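import Pool.Agent.Helper741.UHF.Slices

/-! Binary digits: commuting `2 × 2` systems inside matrix algebras. -/

open Finset

namespace Pool.Agent.Helper741.UHF

section bits

variable {S Z : Type*} [Fintype S] [DecidableEq S] [Fintype Z] [DecidableEq Z]

/-- matrix unit `e_{ab}` acting on the binary digit `s` -/
def bitE (Z : Type*) [Fintype Z] [DecidableEq Z] (s : S) (a b : ℕ) :
    Matrix ((S → Fin 2) × Z) ((S → Fin 2) × Z) ℂ :=
  Matrix.of fun y y' =>
    if (y.1 s : ℕ) = a ∧ (y'.1 s : ℕ) = b ∧ (∀ t, t ≠ s → y.1 t = y'.1 t) ∧ y.2 = y'.2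
    then 1 else 0

theorem bitE_apply (s : S) (a b : ℕ) (y y' : (S → Fin 2) × Z) :
    bitE Z s a b y y' = if (y.1 s : ℕ) = a ∧ (y'.1 s : ℕ) = b ∧ (∀ t, t ≠ s → y.1 t = y'.1 t) ∧
      y.2 = y'.2 then 1 else 0 := rfl

theorem bitE_mul_apply (s t : S) (a b c d : ℕ) (hb : b < 2) (y y' : (S → Fin 2) × Z) :
    (bitE Z s a b * bitE Z t c d) y y' =
      if (y.1 s : ℕ) = a then
        bitE Z t c d (Function.update y.1 s ⟨b, hb⟩, y.2) y' else 0 := by
  rw [Matrix.mul_apply]
  split_ifs with ha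
  · rw [Finset.sum_eq_single (Function.update y.1 s ⟨b, hb⟩, y.2)]
    · have : bitE Z s a b y (Function.update y.1 s ⟨b, hb⟩, y.2) = 1 := by
        rw [bitE_apply, if_pos]
        refine ⟨ha, by simp, fun t ht => by simp [ht], rfl⟩
      rw [this, one_mul]
    · intro z _ hz
      rw [bitE_apply, if_neg, zero_mul]
      rintro ⟨_, h2, h3, h4⟩
      refine hz (Prod.ext ?_ h4.symm)
      funext u
      by_cases hu : u = s
      · subst hu
        simp only [Function.update_self]
        exact Fin.ext h2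
      · simp [hu, h3 u hu]
    · intro h
      exact absurd (Finset.mem_univ _) h
  · refine Finset.sum_eq_zero fun z _ => ?_
    rw [bitE_apply, if_neg (fun h => ha h.1), zero_mul]

theorem bitE_eq_zero_left (s : S) (a b : ℕ) (ha : 2 ≤ a) : bitE Z s a b = 0 := by
  ext y y'
  rw [bitE_apply, if_neg, Matrix.zero_apply]
  rintro ⟨h, _⟩
  have := (y.1 s).2
  omega

theorem bitE_eq_zero_right (s : S) (a b : ℕ) (ha : 2 ≤ b) : bitE Z s a b = 0 := by
  ext y y'
  rw [bitE_apply, if_neg, Matrix.zero_apply]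
  rintro ⟨_, h, _⟩
  have := (y'.1 s).2
  omega

theorem bitE_mul_same (s : S) (a b c : ℕ) (hb : b < 2) :
    bitE Z s a b * bitE Z s b c = bitE Z s a c := by
  ext y y'
  rw [bitE_mul_apply s s a b b c hb]
  simp only [bitE_apply, Function.update_self, true_and]
  by_cases ha : (y.1 s : ℕ) = a
  · rw [if_pos ha]
    refine if_congr ?_ rfl rfl
    constructor
    · rintro ⟨h1, h2, h3⟩
      exact ⟨ha, h1, fun t ht => by simpa [ht] using h2 t ht, h3⟩
    · rintro ⟨_, h1, h2, h3⟩
      exact ⟨h1, fun t ht => by simpa [ht] using h2 t ht, h3⟩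
  · rw [if_neg ha, if_neg (fun h => ha h.1)]

theorem bitE_mul_ne (s : S) (a b c d : ℕ) (hbc : b ≠ c) :
    bitE Z s a b * bitE Z s c d = 0 := by
  rcases lt_or_ge b 2 with hb | hb
  · ext y y'
    rw [bitE_mul_apply s s a b c d hb, Matrix.zero_apply]
    split_ifs
    · rw [bitE_apply, if_neg]
      rintro ⟨h, _⟩
      simp only [Function.update_self] at h
      exact hbc h
    · rfl
  · rw [bitE_eq_zero_right s a b hb, zero_mul]

theorem bitE_star (s : S) (a b : ℕ) : star (bitE Z s a b) = bitE Z s b a := by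
  ext y y'
  rw [Matrix.star_apply, bitE_apply, bitE_apply]
  by_cases h : (y'.1 s : ℕ) = a ∧ (y.1 s : ℕ) = b ∧ (∀ t, t ≠ s → y'.1 t = y.1 t) ∧ y'.2 = y.2
  · rw [if_pos h, if_pos ⟨h.2.1, h.1, fun t ht => (h.2.2.1 t ht).symm, h.2.2.2.symm⟩, star_one]
  · rw [if_neg h, if_neg, star_zero]
    rintro ⟨h1, h2, h3, h4⟩
    exact h ⟨h2, h1, fun t ht => (h3 t ht).symm, h4.symm⟩

theorem bitE_one (s : S) : ∑ a ∈ range 2, bitE Z s a a = 1 := by
  ext y y'
  rw [Matrix.sum_apply]
  by_cases h : y = y'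
  · subst h
    rw [Matrix.one_apply_eq, Finset.sum_eq_single (y.1 s : ℕ)]
    · rw [bitE_apply, if_pos]
      exact ⟨rfl, rfl, fun _ _ => rfl, rfl⟩
    · intro b _ hb
      rw [bitE_apply, if_neg (fun h => hb h.1.symm)]
    · intro h
      exact absurd (Finset.mem_range.mpr (y.1 s).2) h
  · rw [Matrix.one_apply_ne h]
    refine Finset.sum_eq_zero fun b _ => ?_
    rw [bitE_apply, if_neg]
    rintro ⟨h1, h2, h3, h4⟩
    refine h (Prod.ext ?_ h4)
    funext t
    by_cases ht : t = s
    · subst ht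
      exact Fin.ext (h1.trans h2.symm)
    · exact h3 t ht

theorem bitE_comm (s t : S) (hst : s ≠ t) (a b c d : ℕ) :
    Commute (bitE Z s a b) (bitE Z t c d) := by
  rcases lt_or_ge b 2 with hb | hb
  swap
  · rw [bitE_eq_zero_right s a b hb]
    exact Commute.zero_left _
  rcases lt_or_ge d 2 with hd | hd
  swap
  · rw [bitE_eq_zero_right t c d hd]
    exact Commute.zero_right _
  ext y y'
  rw [bitE_mul_apply s t a b c d hb, bitE_mul_apply t s c d a b hd]
  simp only [bitE_apply]
  have hts := hst.symm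
  by_cases h : (y.1 s : ℕ) = a ∧ (y.1 t : ℕ) = c ∧ (y'.1 s : ℕ) = b ∧ (y'.1 t : ℕ) = d ∧
      (∀ u, u ≠ s → u ≠ t → y.1 u = y'.1 u) ∧ y.2 = y'.2
  · obtain ⟨h1, h2, h3, h4, h5, h6⟩ := h
    rw [if_pos h1, if_pos h2, if_pos, if_pos]
    · refine ⟨by simpa [hst] using h1, h3, fun u hu => ?_, h6⟩
      by_cases hut : u = t
      · subst hut
        simp only [Function.update_self]
        exact Fin.ext h4.symm
      · simpa [hut] using h5 u hu hut
    · refine ⟨by simpa [hts] using h2, h4, fun u hu => ?_, h6⟩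
      by_cases hus : u = s
      · subst hus
        simp only [Function.update_self]
        exact Fin.ext h3.symm
      · simpa [hus] using h5 u hus hu
  · have e1 : (if (y.1 s : ℕ) = a then (if ((Function.update y.1 s ⟨b, hb⟩) t : ℕ) = c ∧
        (y'.1 t : ℕ) = d ∧ (∀ u, u ≠ t → (Function.update y.1 s ⟨b, hb⟩) u = y'.1 u) ∧
        y.2 = y'.2 then (1 : ℂ) else 0) else 0) = 0 := by
      split_ifs with h1 h2
      · exfalso
        apply h
        obtain ⟨g1, g2, g3, g4⟩ := h2
        refine ⟨h1, by simpa [hts] using g1, ?_, g2, fun u hus hut => ?_, g4⟩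
        · have := g3 s hst
          rw [Function.update_self] at this
          rw [← this]
        · simpa [hus] using g3 u hut
      · rfl
      · rfl
    have e2 : (if (y.1 t : ℕ) = c then (if ((Function.update y.1 t ⟨d, hd⟩) s : ℕ) = a ∧
        (y'.1 s : ℕ) = b ∧ (∀ u, u ≠ s → (Function.update y.1 t ⟨d, hd⟩) u = y'.1 u) ∧
        y.2 = y'.2 then (1 : ℂ) else 0) else 0) = 0 := by
      split_ifs with h1 h2
      · exfalso
        apply h
        obtain ⟨g1, g2, g3, g4⟩ := h2
        refine ⟨by simpa [hst] using g1, h1, g2, ?_, fun u hus hut => ?_, g4⟩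
        · have := g3 t hts
          rw [Function.update_self] at this
          rw [← this]
        · simpa [hut] using g3 u hus
      · rfl
      · rfl
    exact e1.trans e2.symm

end bits

end Pool.Agent.Helper741.UHF
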