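import Mathlib

/-! An abstract closing-off lemma. -/

open Cardinal

universe u

namespace Pool.Agent.Helper741.UHF

theorem closing_off {J Λ Ty : Type u} (κ : Cardinal.{u}) (hκ : ℵ₀ ≤ κ) (hΛ : κ < #Λ)
    (Over : Set J → Set Ty)
    (hcard : ∀ N : Set J, #N ≤ κ → #(Over N) ≤ κ)
    (hfin : ∀ N : ℕ → Set J, Monotone N → ∀ τ ∈ Over (⋃ k, N k), ∃ k, τ ∈ Over (N k))
    (Real : Ty → Λ → Set J → Prop) (P : Set J) (hP : #P ≤ κ) :
    ∃ N : Set J, P ⊆ N ∧ ∃ α : Λ, ∀ τ ∈ Over N, ∀ t : Set J, Disjoint t N → Real τ α t →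
      ∀ F : Set J, F.Finite → ∃ β, β ≠ α ∧ ∃ t', Disjoint t' F ∧ Real τ β t' := by
  classical
  let bad : Ty → Finset J → Finset Λ → Prop := fun τ F G =>
    ∀ β ∉ G, ∀ t', Disjoint t' (F : Set J) → ¬ Real τ β t'
  have hch : ∀ τ, ∃ FG : Finset J × Finset Λ, (∃ F G, bad τ F G) → bad τ FG.1 FG.2 := by
    intro τ
    by_cases h : ∃ F G, bad τ F G
    · obtain ⟨F, G, h⟩ := h
      exact ⟨(F, G), fun _ => h⟩
    · exact ⟨(∅, ∅), fun h' => absurd h' h⟩
  choose FG hFG using hch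
  let step : Set J → Set J := fun N => N ∪ ⋃ τ ∈ Over N, ((FG τ).1 : Set J)
  have hstep : ∀ N : Set J, #N ≤ κ → #(step N) ≤ κ := by
    intro N hN
    refine (mk_union_le _ _).trans (add_le_of_le hκ hN ?_)
    refine (mk_biUnion_le _ _).trans ?_
    refine mul_le_of_le hκ (hcard N hN) ?_
    refine ciSup_le' fun τ => ?_
    exact le_trans (lt_aleph0_of_finite _).le hκ
  let Nk : ℕ → Set J := fun k => step^[k] P
  have hNk : ∀ k, #(Nk k) ≤ κ := by
    intro k
    induction k with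
    | zero => exact hP
    | succ k ih =>
      have : Nk (k + 1) = step (Nk k) := Function.iterate_succ_apply' _ _ _
      rw [this]
      exact hstep _ ih
  have hmono : Monotone Nk := by
    refine monotone_nat_of_le_succ fun k => ?_
    have : Nk (k + 1) = step (Nk k) := Function.iterate_succ_apply' _ _ _
    rw [this]
    exact Set.subset_union_left
  have hcN : #(⋃ k, Nk k) ≤ κ := by
    have h1 := mk_iUnion_le_sum_mk (f := fun k : ULift.{u} ℕ => Nk k.down)
    have h2 : (⋃ k : ULift.{u} ℕ, Nk k.down) = ⋃ k, Nk k := by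
      ext x
      simp
    rw [h2] at h1
    refine h1.trans ?_
    refine (sum_le_mk_mul_iSup _).trans ?_
    refine mul_le_of_le hκ (by simpa using hκ) ?_
    exact ciSup_le' fun k => hNk k.down
  set N : Set J := ⋃ k, Nk k with hN
  have hΛ0 : #(⋃ τ ∈ Over N, ((FG τ).2 : Set Λ) : Set Λ) ≤ κ := by
    refine (mk_biUnion_le _ _).trans ?_
    refine mul_le_of_le hκ (hcard N hcN) ?_
    refine ciSup_le' fun τ => ?_
    exact le_trans (lt_aleph0_of_finite _).le hκ
  obtain ⟨α, hα⟩ : ∃ α, α ∉ (⋃ τ ∈ Over N, ((FG τ).2 : Set Λ) : Set Λ) := by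
    by_contra hcon
    push Not at hcon
    have : (⋃ τ ∈ Over N, ((FG τ).2 : Set Λ) : Set Λ) = Set.univ := Set.eq_univ_of_forall hcon
    rw [this, mk_univ] at hΛ0
    exact absurd hΛ (not_lt.mpr hΛ0)
  refine ⟨N, fun x hx => Set.mem_iUnion.mpr ⟨0, hx⟩, α, ?_⟩
  intro τ hτ t ht hreal F hF
  by_contra hcon
  have hbad : ∃ F G, bad τ F G := by
    refine ⟨hF.toFinset, {α}, ?_⟩
    intro β hβ t' ht' hr
    refine hcon ⟨β, by simpa using hβ, t', by simpa using ht', hr⟩
  have hb := hFG τ hbad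
  have hα' : α ∉ (FG τ).2 := by
    intro h
    exact hα (Set.mem_biUnion hτ (by simpa using h))
  refine hb α hα' t ?_ hreal
  refine ht.mono_right ?_
  obtain ⟨k, hk⟩ := hfin Nk hmono τ hτ
  intro x hx
  refine Set.mem_iUnion.mpr ⟨k + 1, ?_⟩
  have : Nk (k + 1) = step (Nk k) := Function.iterate_succ_apply' _ _ _
  rw [this]
  exact Or.inr (Set.mem_biUnion hk hx)

end Pool.Agent.Helper741.UHF
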