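import Pool.Agent.Helper741.UHF.Embed

/-! `⨂_K M_2` embeds unitally in `⨂_j M_{n_j}` iff `#K ≤ ∑_j v_2(n_j)`. -/

open Finset Cardinal
open scoped Matrix.Norms.L2Operator

universe u

namespace Pool.Agent.Helper741.UHF

theorem mk_le_weight {J K E C : Type u} [CStarAlgebra E] [CStarAlgebra C] {n : J → ℕ}
    (hn : ∀ j, 0 < n j) (hE : IsMatrixTensor n E) (hC : IsMatrixTensor (fun _ : K => 2) C)
    (hφ : EmbedsUnitally C E) : #K ≤ #(Σ j, Fin (padicValNat 2 (n j))) := by
  classical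
  obtain ⟨hEn, ι, hι, hιg⟩ := hE
  obtain ⟨_, κ, hκ, _⟩ := hC
  obtain ⟨φ, _⟩ := hφ
  have h := musys_unitsOf ι hn hι
  have hgen := adjoin_unitsOf ι hιg
  have hp := (pauli_of_musys (musys_unitsOf κ (fun _ => by norm_num) hκ)).map φ
  rcases finite_or_infinite K with hK | hK
  · have := Fintype.ofFinite K
    obtain ⟨T, hT⟩ := exists_le_sum h hgen hp (Fintype.card K) (Fintype.equivFin K).symm
      (Fintype.equivFin K).symm.injective
    have h1 : #(Σ j : T, Fin (padicValNat 2 (n j))) ≤ #(Σ j, Fin (padicValNat 2 (n j))) :=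
      mk_le_of_injective (f := fun x => (⟨x.1.1, x.2⟩ : Σ j, Fin (padicValNat 2 (n j)))) (by
        rintro ⟨⟨a, ha⟩, b⟩ ⟨⟨c, hc⟩, d⟩ h
        simp only [Sigma.mk.injEq] at h
        obtain ⟨h1, h2⟩ := h
        subst h1
        rw [eq_of_heq h2])
    refine le_trans ?_ h1
    rw [Cardinal.mk_fintype, Cardinal.mk_fintype, Nat.cast_le, Fintype.card_sigma]
    simp only [Fintype.card_fin]
    rwa [Finset.sum_coe_sort T (fun j => padicValNat 2 (n j))]
  · refine (mk_le h hgen hp).trans ?_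
    have hv : ∀ j : {j | Even (n j)}, 0 < padicValNat 2 (n j) := fun j =>
      one_le_padicValNat_of_dvd (hn j).ne' (even_iff_two_dvd.mp j.2)
    exact mk_le_of_injective
      (f := fun j : {j | Even (n j)} => (⟨j.1, ⟨0, hv j⟩⟩ : Σ j, Fin (padicValNat 2 (n j)))) (by
        intro a b h
        simp only [Sigma.mk.injEq] at h
        exact Subtype.ext h.1)

/-- reindexing of matrices -/
noncomputable def rx {X Y : Type*} [Fintype X] [DecidableEq X] [Fintype Y] [DecidableEq Y]
    (σ : Y ≃ X) : Matrix Y Y ℂ →⋆ₐ[ℂ] Matrix X X ℂ :=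
  { (Matrix.reindexAlgEquiv ℂ ℂ σ).toAlgHom with
    map_star' := fun M => by
      ext a b
      simp [Matrix.star_apply] }

theorem MUSys.map {J A B : Type*} [CStarAlgebra A] [CStarAlgebra B] {n : J → ℕ}
    {e : J → ℕ → ℕ → A} (h : MUSys n e) (φ : A →⋆ₐ[ℂ] B) :
    MUSys n (fun j a b => φ (e j a b)) := by
  refine ⟨h.pos, fun j a b ha => ?_, fun j a b c hb => ?_, fun j a b c d hbc => ?_,
    fun j a b => ?_, fun j => ?_, fun i j hij a b c d => ?_⟩
  · rw [h.zero_left j a b ha, map_zero]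
  · rw [← map_mul, h.mul_same j a b c hb]
  · rw [← map_mul, h.mul_ne j a b c d hbc, map_zero]
  · rw [← map_star, h.star_e]
  · rw [← map_sum, h.one, map_one]
  · exact (h.comm i j hij a b c d).map φ

theorem bit_musys {S Z : Type*} [Fintype S] [DecidableEq S] [Fintype Z] [DecidableEq Z] :
    MUSys (fun _ : S => 2) (fun s a b => bitE Z s a b) :=
  ⟨fun _ => by norm_num, fun s a b ha => bitE_eq_zero_left s a b ha,
    fun s a b c hb => bitE_mul_same s a b c hb, fun s a b c d h => bitE_mul_ne s a b c d h,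
    fun s a b => bitE_star s a b, fun s => bitE_one s,
    fun s t hst a b c d => bitE_comm s t hst a b c d⟩

theorem MUSys.restrict {J K A : Type*} [CStarAlgebra A] {n : J → ℕ}
    {e : J → ℕ → ℕ → A} (h : MUSys n e) (f : K → J) (hf : Function.Injective f) :
    MUSys (fun k => n (f k)) (fun k a b => e (f k) a b) :=
  ⟨fun _ => h.pos _, fun _ a b ha => h.zero_left _ a b ha,
    fun _ a b c hb => h.mul_same _ a b c hb, fun _ a b c d hh => h.mul_ne _ a b c d hh,
    fun _ a b => h.star_e _ a b, fun _ => h.one _,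
    fun _ _ hst a b c d => h.comm _ _ (fun hh => hst (hf hh)) a b c d⟩

theorem embeds_of_mk_le {J K E C : Type u} [CStarAlgebra E] [CStarAlgebra C] {n : J → ℕ}
    (hE : IsMatrixTensor n E) (hC : IsMatrixTensor (fun _ : K => 2) C)
    (hle : #K ≤ #(Σ j, Fin (padicValNat 2 (n j)))) : EmbedsUnitally C E := by
  classical
  obtain ⟨hEn, ι, hι, _⟩ := hE
  obtain ⟨hCn, κ, hκ, hκg⟩ := hC
  have hcard : ∀ j, Fintype.card ((Fin (padicValNat 2 (n j)) → Fin 2) ×
      Fin (n j / 2 ^ padicValNat 2 (n j))) = Fintype.card (Fin (n j)) := by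
    intro j
    simp only [Fintype.card_prod, Fintype.card_fun, Fintype.card_fin]
    exact Nat.mul_div_cancel' pow_padicValNat_dvd
  let σ : ∀ j, ((Fin (padicValNat 2 (n j)) → Fin 2) × Fin (n j / 2 ^ padicValNat 2 (n j))) ≃
      Fin (n j) := fun j => Fintype.equivOfCardEq (hcard j)
  let θ := fun j => (ι j).comp (rx (σ j))
  let e' : (Σ j, Fin (padicValNat 2 (n j))) → ℕ → ℕ → E := fun p a b =>
    θ p.1 (bitE (Fin (n p.1 / 2 ^ padicValNat 2 (n p.1))) p.2 a b)
  have hj : ∀ j, MUSys (fun _ : Fin (padicValNat 2 (n j)) => 2)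
      (fun s a b => θ j (bitE (Fin (n j / 2 ^ padicValNat 2 (n j))) s a b)) := fun j =>
    bit_musys.map (θ j)
  have h' : MUSys (fun _ => 2) e' := by
    refine ⟨fun _ => by norm_num, fun p a b ha => (hj p.1).zero_left p.2 a b ha,
      fun p a b c hb => (hj p.1).mul_same p.2 a b c hb,
      fun p a b c d hbc => (hj p.1).mul_ne p.2 a b c d hbc,
      fun p a b => (hj p.1).star_e p.2 a b, fun p => (hj p.1).one p.2, ?_⟩
    rintro ⟨i, s⟩ ⟨j, t⟩ hne a b c d
    by_cases hij : i = j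
    · subst hij
      exact (hj i).comm s t (fun hst => hne (by rw [hst])) a b c d
    · exact hι i j hij _ _
  obtain ⟨f⟩ := hle
  have h'' := h'.restrict f f.injective
  obtain ⟨ψ, hψ, _⟩ := exists_embedding (musys_unitsOf κ (fun _ => by norm_num) hκ) h''
    (adjoin_unitsOf κ hκg)
  exact ⟨ψ, hψ⟩

end Pool.Agent.Helper741.UHF
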