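import Mathlib

/-!
Definitions: infinite tensor products of full matrix algebras, described internally.
-/

universe u

namespace Pool.Agent.Helper741.UHF

/-- `E` is (a copy of) the C*-tensor product `⨂_{j ∈ J} M_{n j}(ℂ)`: it is nonzero and is generated,
as a C*-algebra, by pairwise commuting unital copies of the algebras `M_{n j}(ℂ)`, `j ∈ J`.
(The matrix algebras are simple and finite dimensional, so for every finite `F ⊆ J` the copies with
index in `F` generate a copy of `⨂_{j ∈ F} M_{n j}(ℂ)`, the inclusions between these are the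
connecting maps `b ↦ b ⊗ 1`, and `E` is the closure of their union, the C*-inductive limit.) -/
def IsMatrixTensor {J : Type u} (n : J → ℕ) (E : Type u) [CStarAlgebra E] : Prop :=
  Nontrivial E ∧ ∃ ι : ∀ j, Matrix (Fin (n j)) (Fin (n j)) ℂ →⋆ₐ[ℂ] E,
    (∀ i j, i ≠ j → ∀ x y, Commute (ι i x) (ι j y)) ∧
    (StarAlgebra.adjoin ℂ (⋃ j, Set.range (ι j))).topologicalClosure = ⊤

/-- `E` is (a copy of) the C*-tensor product `A ⊗ B`, where `A` and `B` are simple and nuclear:
it is nonzero and generated, as a C*-algebra, by commuting unital copies of `A` and `B`. -/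
def IsCStarTensor (A B E : Type u) [CStarAlgebra A] [CStarAlgebra B] [CStarAlgebra E] : Prop :=
  Nontrivial E ∧ ∃ (a : A →⋆ₐ[ℂ] E) (b : B →⋆ₐ[ℂ] E), (∀ x y, Commute (a x) (b y)) ∧
    (StarAlgebra.adjoin ℂ (Set.range a ∪ Set.range b)).topologicalClosure = ⊤

/-- `B` admits a unital embedding into `C`. -/
def EmbedsUnitally (B C : Type u) [CStarAlgebra B] [CStarAlgebra C] : Prop :=
  ∃ φ : B →⋆ₐ[ℂ] C, Function.Injective φ

end Pool.Agent.Helper741.UHF
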