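import Pool.Agent.Helper741.UHF.Infinite

/-! A Pauli family is at most as large as the set of even factors. -/

open Finset Cardinal Filter Topology

universe u

namespace Pool.Agent.Helper741.UHF

variable {J E : Type u} [CStarAlgebra E] {n : J → ℕ} {e : J → ℕ → ℕ → E}

theorem mk_le_of_infinite [Nontrivial E] (h : MUSys n e)
    (hgen : (Algebra.adjoin ℂ {x | ∃ j a b, x = e j a b}).topologicalClosure = ⊤)
    {Λ : Type u} {u v : Λ → E} (hp : PauliFamily u v)
    (hP : ℵ₀ ≤ #{j | Even (n j)}) : #Λ ≤ #{j | Even (n j)} := by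
  classical
  by_contra hcon
  push Not at hcon
  obtain ⟨δ, hδ, hdvd⟩ := two_pow_dvd.{0} 1
  set c := min 1 δ / 40 with hcdef
  have hc : 0 < c := by positivity
  have hc1 : 5 * c ≤ 1 := by
    have := min_le_left 1 δ
    rw [hcdef]
    linarith
  have hcδ : 30 * c ≤ δ := by
    have := min_le_right 1 δ
    have h0 : 0 < min 1 δ := by positivity
    rw [hcdef]
    linarith
  set ε : ℕ → ℝ := fun m => c * (1 / 2) ^ m with hε
  have hεpos : ∀ m, 0 < ε m := fun m => by positivity
  have hε1 : ∀ m, ε m ≤ 1 := by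
    intro m
    have h1 : ((1 / 2 : ℝ)) ^ m ≤ 1 := pow_le_one₀ (by norm_num) (by norm_num)
    calc ε m ≤ c * 1 := by
          simp only [hε]
          gcongr
      _ ≤ 1 := by linarith
  obtain ⟨N, hPN, α, hα⟩ := closing_off (#{j | Even (n j)}) hP hcon (Over e)
    (fun N hN => mk_Over_le hP N hN) (fun N hN τ hτ => Over_finitary N hN τ hτ)
    (Real n e u v ε) {j | Even (n j)} le_rfl
  -- approximations
  have hx : ∀ m, ∃ T : Finset J, ∃ w ∈ D e (T : Set J), ‖w - u α‖ ≤ ε m := by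
    intro m
    obtain ⟨T, w, hw, hwu⟩ := dense_D hgen (u α) (hεpos m)
    exact ⟨T, w, hw, by rw [norm_sub_rev]; exact hwu.le⟩
  have hy : ∀ m, ∃ T : Finset J, ∃ w ∈ D e (T : Set J), ‖w - v α‖ ≤ ε m := by
    intro m
    obtain ⟨T, w, hw, hwu⟩ := dense_D hgen (v α) (hεpos m)
    exact ⟨T, w, hw, by rw [norm_sub_rev]; exact hwu.le⟩
  choose Tx x hxD hxu using hx
  choose Ty' y hyD hyv using hy
  set T : ℕ → Finset J := fun m => (Finset.range (m + 1)).biUnion fun k => Tx k ∪ Ty' k with hT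
  have hTmono : ∀ m, T m ⊆ T (m + 1) := fun m =>
    Finset.biUnion_subset_biUnion_of_subset_left _ (Finset.range_subset_range.mpr (by omega))
  have hxT : ∀ m, x m ∈ D e (T m : Set J) := fun m => D_mono (by
    intro j hj
    simp only [hT, Finset.mem_coe, Finset.mem_biUnion, Finset.mem_range, Finset.mem_union]
    exact ⟨m, by omega, Or.inl hj⟩) (hxD m)
  have hyT : ∀ m, y m ∈ D e (T m : Set J) := fun m => D_mono (by
    intro j hj
    simp only [hT, Finset.mem_coe, Finset.mem_biUnion, Finset.mem_range, Finset.mem_union]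
    exact ⟨m, by omega, Or.inr hj⟩) (hyD m)
  set L : List J := ((T 0).filter (· ∉ N)).toList with hL
  set r : ℕ → List J := fun m => ((T (m + 1) \ T m).filter (· ∉ N)).toList with hr
  set rest : ℕ → List J := fun m => Nat.rec [] (fun k l => l ++ r k) m with hrest
  have hrest0 : rest 0 = [] := rfl
  have hrestS : ∀ m, rest (m + 1) = rest m ++ r m := fun m => rfl
  have hmemL : ∀ m j, j ∈ L ++ rest m ↔ j ∈ T m ∧ j ∉ N := by
    intro m
    induction m with
    | zero =>
      intro j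
      rw [hrest0, List.append_nil, hL, Finset.mem_toList, Finset.mem_filter]
    | succ m ih =>
      intro j
      rw [hrestS, ← List.append_assoc, List.mem_append, ih]
      simp only [hr, Finset.mem_toList, Finset.mem_filter, Finset.mem_sdiff]
      constructor
      · rintro (⟨h1, h2⟩ | ⟨⟨h1, _⟩, h2⟩)
        · exact ⟨hTmono m h1, h2⟩
        · exact ⟨h1, h2⟩
      · rintro ⟨h1, h2⟩
        by_cases h3 : j ∈ T m
        · exact Or.inl ⟨h3, h2⟩
        · exact Or.inr ⟨⟨h1, h3⟩, h2⟩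
  have hnodup : ∀ m, (L ++ rest m).Nodup := by
    intro m
    induction m with
    | zero =>
      rw [hrest0, List.append_nil]
      exact Finset.nodup_toList _
    | succ m ih =>
      rw [hrestS, ← List.append_assoc]
      refine List.Nodup.append ih (Finset.nodup_toList _) ?_
      intro j hj hj'
      have h1 := (hmemL m j).mp hj
      simp only [hr, Finset.mem_toList, Finset.mem_filter, Finset.mem_sdiff] at hj'
      exact hj'.1.2 h1.1
  set R : ℕ → List J := fun m => ((T m).filter (· ∈ N)).toList with hR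
  have hmemR : ∀ m j, j ∈ R m ↔ j ∈ T m ∧ j ∈ N := by
    intro m j
    rw [hR, Finset.mem_toList, Finset.mem_filter]
  have hTsub : ∀ m, (T m : Set J) ⊆ {j | j ∈ R m} ∪ {j | j ∈ L ++ rest m} := by
    intro m j hj
    by_cases h3 : j ∈ N
    · exact Or.inl ((hmemR m j).mpr ⟨hj, h3⟩)
    · exact Or.inr ((hmemL m j).mpr ⟨hj, h3⟩)
  have hLR : ∀ m, ∀ j ∈ L ++ rest m, j ∉ R m := fun m j hj hj' =>
    ((hmemL m j).mp hj).2 ((hmemR m j).mp hj').2
  have hxD' : ∀ m, x m ∈ D e ({j | j ∈ R m} ∪ {j | j ∈ L ++ rest m}) := fun m =>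
    D_mono (hTsub m) (hxT m)
  have hyD' : ∀ m, y m ∈ D e ({j | j ∈ R m} ∪ {j | j ∈ L ++ rest m}) := fun m =>
    D_mono (hTsub m) (hyT m)
  -- the twin
  have htwin : ∀ m, ∃ β, β ≠ α ∧ ∃ ℓ' : List J, (∀ j ∈ ℓ', j ∉ L ++ rest m) ∧
      (∀ j ∈ ℓ', j ∉ R m) ∧ ℓ'.map n = (L ++ rest m).map n ∧ ∃ x' y' : E,
      ‖x' - u β‖ ≤ ε m ∧ ‖y' - v β‖ ≤ ε m ∧ prof n e ℓ' x' = prof n e (L ++ rest m) (x m) ∧
      prof n e ℓ' y' = prof n e (L ++ rest m) (y m) := by
    intro m
    have hover : ((m, R m, (L ++ rest m).map n, prof n e (L ++ rest m) (x m),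
        prof n e (L ++ rest m) (y m)) : Ty J E) ∈ Over e N := by
      refine ⟨fun j hj => ((hmemR m j).mp hj).2, ?_, ?_⟩
      · intro c hc
        obtain ⟨f, hf, g, hg, rfl⟩ := mem_prof hc
        refine Sl_mem_D h _ (hnodup m) (fun j hj => ((hmemL m j).mp hj).2) ?_ f g hf hg
        refine D_mono ?_ (hxT m)
        intro j hj
        by_cases h3 : j ∈ N
        · exact Or.inl h3
        · exact Or.inr ((hmemL m j).mpr ⟨hj, h3⟩)
      · intro c hc
        obtain ⟨f, hf, g, hg, rfl⟩ := mem_prof hc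
        refine Sl_mem_D h _ (hnodup m) (fun j hj => ((hmemL m j).mp hj).2) ?_ f g hf hg
        refine D_mono ?_ (hyT m)
        intro j hj
        by_cases h3 : j ∈ N
        · exact Or.inl h3
        · exact Or.inr ((hmemL m j).mpr ⟨hj, h3⟩)
    obtain ⟨β, hβ, t', ht', ℓ', h1, h2, h3, h4, x', hx', y', hy', h5, h6, h7, h8⟩ :=
      hα _ hover {j | j ∈ L ++ rest m}
        (Set.disjoint_left.mpr fun j hj hjN => ((hmemL m j).mp hj).2 hjN)
        ⟨L ++ rest m, hnodup m, rfl, hLR m, rfl, x m, hxD' m, y m, hyD' m, hxu m, hyv m, rfl, rfl⟩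
        {j | j ∈ L ++ rest m} (List.finite_toSet _)
    refine ⟨β, hβ, ℓ', ?_, h3, h4, x', y', h5, h6, h7, h8⟩
    intro j hj hj'
    rw [← h2] at ht'
    exact Set.disjoint_left.mp ht' hj hj'
  -- apply the core
  have hev := core h hc hc1 hcδ hdvd L rest r hrest0 hrestS
    (fun b m => if b then x m else y m) (fun b => if b then u α else v α)
    (by rintro (_ | _) <;> simp [hp.saU, hp.saV])
    (by rintro (_ | _) <;> simp [hp.sqU, hp.sqV])
    (by simpa using hp.anti α)
    (by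
      rintro (_ | _) m
      · exact hyv m
      · exact hxu m)
    (by
      have hrT : ∀ m, ∀ j ∈ r m, j ∉ (T m : Set J) := by
        intro m j hj
        simp only [hr, Finset.mem_toList, Finset.mem_filter, Finset.mem_sdiff] at hj
        exact hj.1.2
      rintro (_ | _) m j hj a d
      · simpa using commute_of_mem_D h (hyT m) (hrT m j hj) a d
      · simpa using commute_of_mem_D h (hxT m) (hrT m j hj) a d)
    (by
      intro b b' m f hf g hg f' hf' g' hg'
      obtain ⟨β, hβ, ℓ', hdis, hℓ'R, hmap, x', y', hx', hy', hpx, hpy⟩ := htwin m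
      have hu1 : ∀ γ, ‖u γ‖ ≤ 1 := fun γ => norm_le_one_of_sq (hp.saU γ) (hp.sqU γ)
      have hv1 : ∀ γ, ‖v γ‖ ≤ 1 := fun γ => norm_le_one_of_sq (hp.saV γ) (hp.sqV γ)
      have hst : ∀ p ∈ D e ({j | j ∈ R m} ∪ {j | j ∈ L ++ rest m}),
          ∀ q ∈ D e ({j | j ∈ R m} ∪ {j | j ∈ L ++ rest m}), ∀ q',
          prof n e ℓ' q' = prof n e (L ++ rest m) q →
          ‖Sl n e (L ++ rest m) f g p * Sl n e (L ++ rest m) f' g' q -
            Sl n e (L ++ rest m) f' g' q * Sl n e (L ++ rest m) f g p‖ ≤ ‖p * q' - q' * p‖ :=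
        fun p hpD q hqD q' hqq => stage h (hnodup m) (hLR m) hmap hdis hℓ'R hpD hqD hqq
          f g f' g' hf' hg'
      rcases b with _ | _ <;> rcases b' with _ | _ <;>
        simp only [Bool.false_eq_true, if_true, if_false]
      · exact (hst _ (hyD' m) _ (hyD' m) y' hpy).trans
          (norm_comm_le (hε1 m) (hv1 _) (hv1 _) (hyv m) hy' (hp.cVV _ _ hβ.symm))
      · exact (hst _ (hyD' m) _ (hxD' m) x' hpx).trans
          (norm_comm_le (hε1 m) (hv1 _) (hu1 _) (hyv m) hx' (hp.cUV _ _ hβ).symm)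
      · exact (hst _ (hxD' m) _ (hyD' m) y' hpy).trans
          (norm_comm_le (hε1 m) (hu1 _) (hv1 _) (hxu m) hy' (hp.cUV _ _ hβ.symm))
      · exact (hst _ (hxD' m) _ (hxD' m) x' hpx).trans
          (norm_comm_le (hε1 m) (hu1 _) (hu1 _) (hxu m) hx' (hp.cUU _ _ hβ.symm)))
  have hodd : Odd (L.map n).prod := by
    rw [hL, Finset.prod_map_toList]
    refine Finset.prod_induction _ Odd (fun a b => Odd.mul) odd_one ?_
    intro j hj
    refine Nat.not_even_iff_odd.mp fun hev => ?_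
    exact (Finset.mem_filter.mp hj).2 (hPN hev)
  exact (Nat.not_even_iff_odd.mpr hodd) (even_iff_two_dvd.mpr hev)

theorem mk_le [Nontrivial E] (h : MUSys n e)
    (hgen : (Algebra.adjoin ℂ {x | ∃ j a b, x = e j a b}).topologicalClosure = ⊤)
    {Λ : Type u} [Infinite Λ] {u v : Λ → E} (hp : PauliFamily u v) :
    #Λ ≤ #{j | Even (n j)} := by
  rcases lt_or_ge (#{j | Even (n j)}) ℵ₀ with hP | hP
  · exact absurd (not_infinite_of_finite h hgen hp
      (Cardinal.lt_aleph0_iff_set_finite.mp hP)) id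
  · exact mk_le_of_infinite h hgen hp hP

end Pool.Agent.Helper741.UHF
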