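import Pool.Agent.Helper741.UHF.Slices

/-!
The small dense subrings generated by matrix units over a set of sites.
-/

open Finset Cardinal

universe u

namespace Pool.Agent.Helper741.UHF

variable {J : Type u} {E : Type u} [CStarAlgebra E]

/-- generators of the ring over the sites in `N` -/
def gens (e : J → ℕ → ℕ → E) (N : Set J) : Set E :=
  (Set.range fun p : N × ℕ × ℕ => e p.1 p.2.1 p.2.2) ∪
    (Set.range fun q : ℚ × ℚ => algebraMap ℂ E ((q.1 : ℂ) + (q.2 : ℂ) * Complex.I))

/-- ring over the sites in `N` -/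
def D (e : J → ℕ → ℕ → E) (N : Set J) : Subalgebra ℤ E := Algebra.adjoin ℤ (gens e N)

variable {n : J → ℕ} {e : J → ℕ → ℕ → E}

theorem gens_mono {M N : Set J} (h : M ⊆ N) : gens e M ⊆ gens e N := by
  rintro x (⟨⟨j, a, b⟩, rfl⟩ | ⟨q, rfl⟩)
  · exact Or.inl ⟨⟨⟨j.1, h j.2⟩, a, b⟩, rfl⟩
  · exact Or.inr ⟨q, rfl⟩

theorem D_mono {M N : Set J} (h : M ⊆ N) : D e M ≤ D e N := Algebra.adjoin_mono (gens_mono h)

theorem e_mem_D {N : Set J} {j : J} (hj : j ∈ N) (a b : ℕ) : e j a b ∈ D e N :=
  Algebra.subset_adjoin (Or.inl ⟨⟨⟨j, hj⟩, a, b⟩, rfl⟩)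

theorem D_induction {N : Set J} {p : E → Prop}
    (he : ∀ j ∈ N, ∀ a b, p (e j a b))
    (hq : ∀ c : ℂ, p (algebraMap ℂ E c))
    (hadd : ∀ x y, p x → p y → p (x + y)) (hmul : ∀ x y, p x → p y → p (x * y))
    {w : E} (hw : w ∈ D e N) : p w := by
  refine Algebra.adjoin_induction (p := fun x _ => p x) ?_ ?_ ?_ ?_ hw
  · rintro x (⟨⟨j, a, b⟩, rfl⟩ | ⟨q, rfl⟩)
    · exact he j.1 j.2 a b
    · exact hq _
  · intro r
    have : algebraMap ℤ E r = algebraMap ℂ E (r : ℂ) := by simp
    rw [this]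
    exact hq _
  · intro x y _ _ hx hy
    exact hadd x y hx hy
  · intro x y _ _ hx hy
    exact hmul x y hx hy

theorem exists_finset_of_mem_D {N : Set J} {w : E} (hw : w ∈ D e N) :
    ∃ T : Finset J, (T : Set J) ⊆ N ∧ w ∈ D e T := by
  classical
  refine Algebra.adjoin_induction
    (p := fun x _ => ∃ T : Finset J, (T : Set J) ⊆ N ∧ x ∈ D e T) ?_ ?_ ?_ ?_ hw
  · rintro x (⟨⟨j, a, b⟩, rfl⟩ | ⟨q, rfl⟩)
    · exact ⟨{j.1}, by simp, e_mem_D (by simp) a b⟩
    · exact ⟨∅, by simp, Algebra.subset_adjoin (Or.inr ⟨q, rfl⟩)⟩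
  · intro r
    exact ⟨∅, by simp, algebraMap_mem _ r⟩
  · rintro x y _ _ ⟨T₁, h₁, hx⟩ ⟨T₂, h₂, hy⟩
    refine ⟨T₁ ∪ T₂, by simp [h₁, h₂], add_mem (D_mono ?_ hx) (D_mono ?_ hy)⟩ <;> simp
  · rintro x y _ _ ⟨T₁, h₁, hx⟩ ⟨T₂, h₂, hy⟩
    refine ⟨T₁ ∪ T₂, by simp [h₁, h₂], mul_mem (D_mono ?_ hx) (D_mono ?_ hy)⟩ <;> simp

theorem commute_of_mem_D (h : MUSys n e) {N : Set J} {w : E} (hw : w ∈ D e N) {i : J}
    (hi : i ∉ N) (a b : ℕ) : Commute (e i a b) w := by
  refine D_induction (e := e) (N := N) (p := fun w => Commute (e i a b) w) ?_ ?_ ?_ ?_ hw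
  · intro j hj c d
    exact h.comm i j (fun hij => hi (hij ▸ hj)) a b c d
  · intro c
    exact (Algebra.commutes c _).symm
  · intro x y hx hy
    exact hx.add_right hy
  · intro x y hx hy
    exact hx.mul_right hy

theorem slice_mem_D (h : MUSys n e) {N : Set J} {j : J} (hj : j ∉ N) {w : E}
    (hw : w ∈ D e (insert j N)) (a b : ℕ) (ha : a < n j) (hb : b < n j) :
    slice n e j a b w ∈ D e N := by
  have key : ∀ a < n j, ∀ b < n j, slice n e j a b w ∈ D e N := by
    refine Algebra.adjoin_induction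
      (p := fun w _ => ∀ a < n j, ∀ b < n j, slice n e j a b w ∈ D e N) ?_ ?_ ?_ ?_ hw
    · rintro x (⟨⟨⟨i, hi⟩, c, d⟩, rfl⟩ | ⟨q, rfl⟩) a ha b hb
      · dsimp only
        rcases hi with rfl | hi
        · rcases lt_or_ge c (n i) with hc | hc
          · rcases lt_or_ge d (n i) with hd | hd
            · rw [slice_e_self h i a b c d ha hb hc hd]
              split_ifs
              · exact one_mem _
              · exact zero_mem _
            · rw [h.zero_right i c d hd, map_zero]
              exact zero_mem _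
          · rw [h.zero_left i c d hc, map_zero]
            exact zero_mem _
        · rw [slice_of_commute h j a b ha _ fun c' d' =>
            h.comm j i (fun hij => hj (hij ▸ hi)) c' d' c d]
          split_ifs
          · exact e_mem_D hi c d
          · exact zero_mem _
      · dsimp only
        rw [slice_of_commute h j a b ha _ fun c' d' => (Algebra.commutes _ _).symm]
        split_ifs
        · exact Algebra.subset_adjoin (Or.inr ⟨q, rfl⟩)
        · exact zero_mem _
    · intro r a ha b hb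
      rw [slice_of_commute h j a b ha _ fun c' d' => (Algebra.commutes _ _).symm]
      split_ifs
      · exact algebraMap_mem _ r
      · exact zero_mem _
    · intro x y _ _ hx hy a ha b hb
      rw [map_add]
      exact add_mem (hx a ha b hb) (hy a ha b hb)
    · intro x y _ _ hx hy a ha b hb
      rw [slice_mul h]
      exact sum_mem fun k hk => mul_mem (hx a ha k (Finset.mem_range.mp hk))
        (hy k (Finset.mem_range.mp hk) b hb)
  exact key a ha b hb

theorem Sl_mem_D (h : MUSys n e) (ℓ : List J) (hℓ : ℓ.Nodup) {N : Set J} (hN : ∀ j ∈ ℓ, j ∉ N)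
    {w : E} (hw : w ∈ D e (N ∪ {j | j ∈ ℓ})) (f g : List ℕ) (hf : f ∈ idx (ℓ.map n))
    (hg : g ∈ idx (ℓ.map n)) : Sl n e ℓ f g w ∈ D e N := by
  induction ℓ generalizing N f g with
  | nil => simpa using hw
  | cons j ℓ ih =>
    rw [List.map_cons, mem_idx_cons] at hf hg
    obtain ⟨a, ha, f, hf, rfl⟩ := hf
    obtain ⟨b, hb, g, hg, rfl⟩ := hg
    rw [List.nodup_cons] at hℓ
    rw [Sl_cons]
    refine slice_mem_D h (hN j List.mem_cons_self) ?_ a b ha hb
    refine ih hℓ.2 ?_ ?_ f g hf hg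
    · intro i hi hi'
      rcases hi' with rfl | hi'
      · exact hℓ.1 hi
      · exact hN i (List.mem_cons_of_mem _ hi) hi'
    · refine D_mono ?_ hw
      rintro i (hi | hi)
      · exact Or.inl (Or.inr hi)
      · rcases List.mem_cons.mp hi with rfl | hi
        · exact Or.inl (Or.inl rfl)
        · exact Or.inr hi

theorem mk_D_le {N : Set J} : #(D e N) ≤ max ℵ₀ #N := by
  have h1 : #(gens e N) ≤ max ℵ₀ #N := by
    unfold gens
    refine (mk_union_le _ _).trans ?_
    refine add_le_of_le (le_max_left _ _) ?_ ?_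
    · refine mk_range_le.trans ?_
      simp only [mk_prod, mk_eq_aleph0, lift_aleph0]
      simp only [lift_uzero]
      refine (mul_le_max _ _).trans ?_
      simp only [max_le_iff, le_max_left, le_max_right, and_self]
    · refine le_trans ?_ (le_max_left _ _)
      exact mk_le_aleph0_iff.mpr (Set.countable_range _)
  have h2 := Algebra.lift_cardinalMk_adjoin_le ℤ (gens e N)
  simp only [mk_eq_aleph0, lift_aleph0, lift_uzero] at h2
  refine h2.trans ?_
  simp only [max_le_iff, le_max_left, and_true, true_and]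
  exact h1

theorem dense_D (hgen : (Algebra.adjoin ℂ {x | ∃ j a b, x = e j a b}).topologicalClosure = ⊤)
    (z : E) {ε : ℝ} (hε : 0 < ε) : ∃ T : Finset J, ∃ w ∈ D e (T : Set J), ‖z - w‖ < ε := by
  let C : Subring E := (D e Set.univ).toSubring.topologicalClosure
  have hC : (C : Set E) = closure (D e Set.univ : Set E) := rfl
  have hsc : ∀ c : ℂ, algebraMap ℂ E c ∈ C := by
    intro c
    have hd : DenseRange fun q : ℚ × ℚ => ((q.1 : ℂ) + (q.2 : ℂ) * Complex.I) := by
      have h1 : DenseRange (Prod.map (fun q : ℚ => (q : ℝ)) (fun q : ℚ => (q : ℝ))) :=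
        Rat.denseRange_cast.prodMap Rat.denseRange_cast
      have h2 := (Complex.equivRealProdCLM.symm.surjective.denseRange).comp h1
        Complex.equivRealProdCLM.symm.continuous
      convert h2 using 1
      ext q
      apply Complex.ext <;> simp
    have hcl : algebraMap ℂ E c ∈ closure (Set.range fun q : ℚ × ℚ =>
        algebraMap ℂ E ((q.1 : ℂ) + (q.2 : ℂ) * Complex.I)) := by
      have hc : c ∈ closure (Set.range fun q : ℚ × ℚ => ((q.1 : ℂ) + (q.2 : ℂ) * Complex.I)) :=
        hd c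
      have := image_closure_subset_closure_image (f := algebraMap ℂ E)
        (s := Set.range fun q : ℚ × ℚ => ((q.1 : ℂ) + (q.2 : ℂ) * Complex.I))
        (continuous_algebraMap ℂ E)
      have h3 := this ⟨c, hc, rfl⟩
      rwa [← Set.range_comp] at h3
    have : algebraMap ℂ E c ∈ closure (D e Set.univ : Set E) := by
      refine closure_mono ?_ hcl
      rintro x ⟨q, rfl⟩
      exact Algebra.subset_adjoin (Or.inr ⟨q, rfl⟩)
    exact this
  let C' : Subalgebra ℂ E :=
    { C with algebraMap_mem' := hsc }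
  have h1 : Algebra.adjoin ℂ {x | ∃ j a b, x = e j a b} ≤ C' := by
    refine Algebra.adjoin_le ?_
    rintro x ⟨j, a, b, rfl⟩
    exact (D e Set.univ).toSubring.le_topologicalClosure (e_mem_D (Set.mem_univ j) a b)
  have h2 : (Algebra.adjoin ℂ {x | ∃ j a b, x = e j a b}).topologicalClosure ≤ C' :=
    Subalgebra.topologicalClosure_minimal h1
      (D e Set.univ).toSubring.isClosed_topologicalClosure
  have hz : z ∈ closure (D e Set.univ : Set E) := by
    have : z ∈ C' := h2 (by rw [hgen]; trivial)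
    exact this
  obtain ⟨w, hw, hzw⟩ := Metric.mem_closure_iff.mp hz ε hε
  obtain ⟨T, _, hT⟩ := exists_finset_of_mem_D hw
  exact ⟨T, w, hT, by rwa [dist_eq_norm] at hzw⟩

end Pool.Agent.Helper741.UHF
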