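import Pool.Agent.Helper741.UHF.Rep
import Pool.Agent.Helper741.UHF.Ring

/-! The universal property of algebras generated by commuting matrix units. -/

open Finset

universe u

namespace Pool.Agent.Helper741.UHF

variable {J C A : Type u} [CStarAlgebra C] [CStarAlgebra A] {n : J → ℕ}

section one

variable {e : J → ℕ → ℕ → C}

theorem mem_bot_iff (z : C) : z ∈ (⊥ : StarSubalgebra ℂ C) ↔ ∃ c : ℂ, algebraMap ℂ C c = z := by
  rw [StarSubalgebra.mem_bot]
  exact Iff.rfl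

theorem D_empty_le_bot {w : C} (hw : w ∈ D e (∅ : Set J)) : w ∈ (⊥ : StarSubalgebra ℂ C) := by
  refine D_induction (e := e) (N := ∅) (p := fun w => w ∈ (⊥ : StarSubalgebra ℂ C))
    ?_ ?_ ?_ ?_ hw
  · intro j hj
    exact absurd hj (Set.notMem_empty j)
  · intro c
    exact algebraMap_mem _ c
  · exact fun x y hx hy => add_mem hx hy
  · exact fun x y hx hy => mul_mem hx hy

theorem e_mem_sliceAlg (h : MUSys n e) {ℓ : List J} (hℓ : ℓ.Nodup) {j : J} (hj : j ∈ ℓ)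
    (a b : ℕ) : e j a b ∈ sliceAlg h ℓ ⊥ := fun f hf g hg =>
  D_empty_le_bot (Sl_mem_D h ℓ hℓ (fun j _ => Set.notMem_empty j)
    (e_mem_D (N := ∅ ∪ {j | j ∈ ℓ}) (Or.inr hj) a b) f g hf hg)

theorem exists_finset_sliceAlg (h : MUSys n e) {z : C}
    (hz : z ∈ StarAlgebra.adjoin ℂ {x | ∃ j a b, x = e j a b}) :
    ∃ T : Finset J, ∀ ℓ : List J, ℓ.Nodup → (∀ j ∈ T, j ∈ ℓ) → z ∈ sliceAlg h ℓ ⊥ := by
  classical
  refine StarAlgebra.adjoin_induction
    (p := fun z _ => ∃ T : Finset J, ∀ ℓ : List J, ℓ.Nodup → (∀ j ∈ T, j ∈ ℓ) →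
      z ∈ sliceAlg h ℓ ⊥) ?_ ?_ ?_ ?_ ?_ hz
  · rintro x ⟨j, a, b, rfl⟩
    exact ⟨{j}, fun ℓ hℓ hj => e_mem_sliceAlg h hℓ (hj j (by simp)) a b⟩
  · intro r
    exact ⟨∅, fun ℓ _ _ => algebraMap_mem _ r⟩
  · rintro x y _ _ ⟨T₁, h₁⟩ ⟨T₂, h₂⟩
    exact ⟨T₁ ∪ T₂, fun ℓ hℓ hj => add_mem
      (h₁ ℓ hℓ fun j hj' => hj j (Finset.mem_union_left _ hj'))
      (h₂ ℓ hℓ fun j hj' => hj j (Finset.mem_union_right _ hj'))⟩
  · rintro x y _ _ ⟨T₁, h₁⟩ ⟨T₂, h₂⟩
    exact ⟨T₁ ∪ T₂, fun ℓ hℓ hj => mul_mem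
      (h₁ ℓ hℓ fun j hj' => hj j (Finset.mem_union_left _ hj'))
      (h₂ ℓ hℓ fun j hj' => hj j (Finset.mem_union_right _ hj'))⟩
  · rintro x _ ⟨T, h₁⟩
    exact ⟨T, fun ℓ hℓ hj => star_mem (h₁ ℓ hℓ hj)⟩

theorem isClosed_bot : IsClosed ((⊥ : StarSubalgebra ℂ C) : Set C) := by
  have : ((⊥ : StarSubalgebra ℂ C) : Set C) = ((1 : Submodule ℂ C) : Set C) := by
    ext z
    rw [SetLike.mem_coe, mem_bot_iff, SetLike.mem_coe, Submodule.mem_one]
  rw [this]
  have hfd : FiniteDimensional ℂ (1 : Submodule ℂ C) := by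
    rw [Submodule.one_eq_span]
    infer_instance
  exact Submodule.closed_of_finiteDimensional _

/-- The norm of an element of a finite stage is determined by an algebra homomorphism which
intertwines the slices. -/
theorem norm_map_of_slices [Nontrivial A] {e' : J → ℕ → ℕ → A} (h : MUSys n e)
    (φ : C →⋆ₐ[ℂ] A) (hφ : ∀ j a b, φ (e j a b) = e' j a b) {z : C}
    (hz : z ∈ StarAlgebra.adjoin ℂ {x | ∃ j a b, x = e j a b}) : ‖φ z‖ = ‖z‖ := by
  classical
  obtain ⟨T, hT⟩ := exists_finset_sliceAlg h hz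
  have hzB := hT T.toList (Finset.nodup_toList T) (fun j hj => by simpa using hj)
  set ℓ := T.toList with hℓ
  let i1 : CStarAlgebra (sliceAlg h ℓ ⊥) :=
    StarSubalgebra.cstarAlgebra _ (h_closed := isClosed_sliceAlg h ℓ ⊥ isClosed_bot)
  have hsl : ∀ j a b (z : C), φ (slice n e j a b z) = slice n e' j a b (φ z) := by
    intro j a b z
    simp only [slice_apply, map_sum, map_mul, hφ]
  have hSl : ∀ (ℓ : List J) f g (z : C), φ (Sl n e ℓ f g z) = Sl n e' ℓ f g (φ z) := by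
    intro ℓ
    induction ℓ with
    | nil => intro f g z; rfl
    | cons j ℓ ih =>
      intro f g z
      rw [Sl_cons, Sl_cons, hsl, ih]
  have hinj : Function.Injective (φ.comp (sliceAlg h ℓ ⊥).subtype) := by
    rw [injective_iff_map_eq_zero]
    intro z hz0
    have hz0' : φ (z : C) = 0 := hz0
    apply Subtype.ext
    refine Sl_injective h ℓ (z : C) fun f hf g hg => ?_
    obtain ⟨c, hc⟩ := (mem_bot_iff _).mp (z.2 f hf g hg)
    have h1 := hSl ℓ f g (z : C)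
    rw [hz0', map_zero, ← hc] at h1
    have h2 : algebraMap ℂ A c = 0 := by
      rw [← h1]
      exact (AlgHomClass.commutes φ c).symm
    have h3 : c = 0 := (map_eq_zero_iff _ (FaithfulSMul.algebraMap_injective ℂ A)).mp h2
    rw [← hc, h3, map_zero]
  exact NonUnitalStarAlgHom.norm_map (φ.comp (sliceAlg h ℓ ⊥).subtype) hinj ⟨z, hzB⟩

end one

theorem exists_embedding [Nontrivial C] [Nontrivial A] {e : J → ℕ → ℕ → C} {e' : J → ℕ → ℕ → A}
    (h : MUSys n e) (h' : MUSys n e')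
    (hgen : (Algebra.adjoin ℂ {x | ∃ j a b, x = e j a b}).topologicalClosure = ⊤) :
    ∃ ψ : C →⋆ₐ[ℂ] A, Function.Injective ψ ∧ ∀ j a b, ψ (e j a b) = e' j a b := by
  classical
  let e'' : J → ℕ → ℕ → C × A := fun j a b => (e j a b, e' j a b)
  have h'' : MUSys n e'' := by
    refine ⟨h.pos, fun j a b ha => ?_, fun j a b c hb => ?_, fun j a b c d hbc => ?_,
      fun j a b => ?_, fun j => ?_, fun i j hij a b c d => ?_⟩
    · exact Prod.ext (h.zero_left j a b ha) (h'.zero_left j a b ha)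
    · exact Prod.ext (h.mul_same j a b c hb) (h'.mul_same j a b c hb)
    · exact Prod.ext (h.mul_ne j a b c d hbc) (h'.mul_ne j a b c d hbc)
    · exact Prod.ext (h.star_e j a b) (h'.star_e j a b)
    · refine Prod.ext ?_ ?_
      · rw [Prod.fst_sum]
        exact h.one j
      · rw [Prod.snd_sum]
        exact h'.one j
    · exact Prod.ext (h.comm i j hij a b c d) (h'.comm i j hij a b c d)
  let G : StarSubalgebra ℂ (C × A) := StarAlgebra.adjoin ℂ {x | ∃ j a b, x = e'' j a b}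
  let Gb : StarSubalgebra ℂ (C × A) := G.topologicalClosure
  have hGb : IsClosed (Gb : Set (C × A)) := G.isClosed_topologicalClosure
  let p1 : C × A →⋆ₐ[ℂ] C := StarAlgHom.fst ℂ C A
  let p2 : C × A →⋆ₐ[ℂ] A := StarAlgHom.snd ℂ C A
  have hn1 : ∀ z ∈ Gb, ‖p1 z‖ = ‖z‖ := by
    intro z hz
    have hcl : IsClosed {z : C × A | ‖p1 z‖ = ‖z‖} :=
      isClosed_eq (continuous_fst.norm) continuous_norm
    exact closure_minimal (fun z hz => norm_map_of_slices (e' := e) h'' p1 (fun _ _ _ => rfl) hz)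
      hcl hz
  have hn2 : ∀ z ∈ Gb, ‖p2 z‖ = ‖z‖ := by
    intro z hz
    have hcl : IsClosed {z : C × A | ‖p2 z‖ = ‖z‖} :=
      isClosed_eq (continuous_snd.norm) continuous_norm
    exact closure_minimal (fun z hz => norm_map_of_slices (e' := e') h'' p2 (fun _ _ _ => rfl) hz)
      hcl hz
  let q1 : Gb →⋆ₐ[ℂ] C := p1.comp Gb.subtype
  let q2 : Gb →⋆ₐ[ℂ] A := p2.comp Gb.subtype
  have hi1 : Isometry q1 := AddMonoidHomClass.isometry_of_norm q1 fun z => hn1 z z.2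
  have hi2 : Isometry q2 := AddMonoidHomClass.isometry_of_norm q2 fun z => hn2 z z.2
  have : CompleteSpace Gb := hGb.completeSpace_coe
  have hs1 : Function.Surjective q1 := by
    have hcr : IsClosed (Set.range q1) := hi1.isClosedEmbedding.isClosed_range
    have hle : Algebra.adjoin ℂ {x | ∃ j a b, x = e j a b} ≤ q1.toAlgHom.range := by
      refine Algebra.adjoin_le ?_
      rintro x ⟨j, a, b, rfl⟩
      exact ⟨⟨e'' j a b, G.le_topologicalClosure
        (StarAlgebra.subset_adjoin ℂ _ ⟨j, a, b, rfl⟩)⟩, rfl⟩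
    have hle2 := Subalgebra.topologicalClosure_minimal hle hcr
    rw [hgen] at hle2
    intro y
    exact hle2 (show y ∈ (⊤ : Subalgebra ℂ C) from trivial)
  let E1 : Gb ≃⋆ₐ[ℂ] C := StarAlgEquiv.ofBijective q1 ⟨hi1.injective, hs1⟩
  refine ⟨q2.comp (E1.symm : C →⋆ₐ[ℂ] Gb), hi2.injective.comp E1.symm.injective,
    fun j a b => ?_⟩
  have hmem : e'' j a b ∈ Gb := G.le_topologicalClosure
    (StarAlgebra.subset_adjoin ℂ {x | ∃ j a b, x = e'' j a b} ⟨j, a, b, rfl⟩)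
  have h0 : E1 ⟨e'' j a b, hmem⟩ = e j a b := rfl
  have h1 : E1.symm (e j a b) = ⟨e'' j a b, hmem⟩ := by
    rw [← h0]
    exact E1.symm_apply_apply _
  change q2 (E1.symm (e j a b)) = e' j a b
  rw [h1]
  rfl

end Pool.Agent.Helper741.UHF
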