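import Pool.Agent.Helper741.UHF.Defs
import Pool.Agent.Helper741.UHF.Main
import Pool.Agent.Helper741.UHF.Univ
import Pool.Agent.Helper741.UHF.Bits

/-! Embedding criterion. -/

open Finset Cardinal
open scoped Matrix.Norms.L2Operator

universe u

namespace Pool.Agent.Helper741.UHF

/-- matrix units from a family of unital homomorphisms -/
noncomputable def unitsOf {J E : Type u} [CStarAlgebra E] {n : J → ℕ}
    (ι : ∀ j, Matrix (Fin (n j)) (Fin (n j)) ℂ →⋆ₐ[ℂ] E) (j : J) (a b : ℕ) : E :=
  if h : a < n j ∧ b < n j then ι j (Matrix.single ⟨a, h.1⟩ ⟨b, h.2⟩ 1) else 0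

section

variable {J E : Type u} [CStarAlgebra E] {n : J → ℕ}
  (ι : ∀ j, Matrix (Fin (n j)) (Fin (n j)) ℂ →⋆ₐ[ℂ] E)

theorem unitsOf_fin (j : J) (a b : Fin (n j)) :
    unitsOf ι j a b = ι j (Matrix.single a b 1) := by
  unfold unitsOf
  rw [dif_pos ⟨a.2, b.2⟩]

theorem musys_unitsOf (hn : ∀ j, 0 < n j)
    (hcomm : ∀ i j, i ≠ j → ∀ x y, Commute (ι i x) (ι j y)) : MUSys n (unitsOf ι) := by
  refine ⟨hn, fun j a b ha => ?_, fun j a b c hb => ?_, fun j a b c d hbc => ?_,
    fun j a b => ?_, fun j => ?_, fun i j hij a b c d => ?_⟩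
  · unfold unitsOf
    rw [dif_neg (fun h => absurd h.1 (not_lt.mpr ha))]
  · unfold unitsOf
    by_cases ha : a < n j
    · by_cases hc : c < n j
      · rw [dif_pos ⟨ha, hb⟩, dif_pos ⟨hb, hc⟩, dif_pos ⟨ha, hc⟩, ← map_mul,
          Matrix.single_mul_single_same, one_mul]
      · rw [dif_neg (show ¬ (b < n j ∧ c < n j) from fun h => hc h.2),
          dif_neg (show ¬ (a < n j ∧ c < n j) from fun h => hc h.2), mul_zero]
    · rw [dif_neg (show ¬ (a < n j ∧ b < n j) from fun h => ha h.1), zero_mul,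
        dif_neg (show ¬ (a < n j ∧ c < n j) from fun h => ha h.1)]
  · unfold unitsOf
    split_ifs with h1 h2
    · rw [← map_mul, Matrix.single_mul_single_of_ne (h := by
        intro h
        exact hbc (congrArg Fin.val h)), map_zero]
    · rw [mul_zero]
    · rw [zero_mul]
    · rw [zero_mul]
  · unfold unitsOf
    by_cases h : a < n j ∧ b < n j
    · rw [dif_pos h, dif_pos ⟨h.2, h.1⟩, ← map_star, Matrix.star_eq_conjTranspose,
        Matrix.conjTranspose_single, star_one]
    · rw [dif_neg h, dif_neg (fun h' => h ⟨h'.2, h'.1⟩), star_zero]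
  · rw [Finset.sum_range]
    have : ∀ a : Fin (n j), unitsOf ι j a a = ι j (Matrix.single a a 1) :=
      fun a => unitsOf_fin ι j a a
    rw [Finset.sum_congr rfl fun a _ => this a, ← map_sum, ← map_one (ι j)]
    congr 1
    ext a b
    rw [Matrix.sum_apply, Matrix.one_apply]
    simp only [Matrix.single_apply]
    by_cases hab : a = b
    · subst hab
      simp
    · rw [if_neg hab]
      refine Finset.sum_eq_zero fun c _ => if_neg ?_
      rintro ⟨rfl, h⟩
      exact hab h
  · unfold unitsOf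
    split_ifs
    · exact hcomm i j hij _ _
    · exact Commute.zero_right _
    · exact Commute.zero_left _
    · exact Commute.zero_left _

theorem adjoin_unitsOf
    (hgen : (StarAlgebra.adjoin ℂ (⋃ j, Set.range (ι j))).topologicalClosure = ⊤) :
    (Algebra.adjoin ℂ {x | ∃ j a b, x = unitsOf ι j a b}).topologicalClosure = ⊤ := by
  have h1 : ∀ j x, ι j x ∈ Algebra.adjoin ℂ {x | ∃ j a b, x = unitsOf ι j a b} := by
    intro j x
    have hx : x = ∑ a, ∑ b, x a b • Matrix.single a b (1 : ℂ) := by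
      conv_lhs => rw [Matrix.matrix_eq_sum_single x]
      simp
    rw [hx, map_sum]
    refine sum_mem fun a _ => ?_
    rw [map_sum]
    refine sum_mem fun b _ => ?_
    rw [map_smul, ← unitsOf_fin]
    have hmem : unitsOf ι j a b ∈ Algebra.adjoin ℂ {x | ∃ j a b, x = unitsOf ι j a b} :=
      Algebra.subset_adjoin ⟨j, a, b, rfl⟩
    exact Subalgebra.smul_mem _ hmem _
  have h2 : (StarAlgebra.adjoin ℂ (⋃ j, Set.range (ι j))).toSubalgebra ≤
      Algebra.adjoin ℂ {x | ∃ j a b, x = unitsOf ι j a b} := by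
    rw [StarAlgebra.adjoin_toSubalgebra]
    refine Algebra.adjoin_le ?_
    rintro z (hz | hz)
    · obtain ⟨j, x, rfl⟩ := Set.mem_iUnion.mp hz
      exact h1 j x
    · obtain ⟨j, x, hx⟩ := Set.mem_iUnion.mp hz
      have : z = ι j (star x) := by
        rw [map_star, hx, star_star]
      rw [this]
      exact h1 j _
  rw [eq_top_iff]
  intro z _
  have hz : z ∈ (StarAlgebra.adjoin ℂ (⋃ j, Set.range (ι j))).topologicalClosure := by
    rw [hgen]
    trivial
  exact closure_mono h2 hz

end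

/-- The Pauli family of a family of `2 × 2` systems. -/
theorem pauli_of_musys {Λ E : Type u} [CStarAlgebra E] {e : Λ → ℕ → ℕ → E}
    (h : MUSys (fun _ => 2) e) :
    PauliFamily (fun k => e k 0 1 + e k 1 0) (fun k => e k 0 0 - e k 1 1) := by
  have h1 : ∀ k, e k 0 0 + e k 1 1 = 1 := by
    intro k
    have := h.one k
    rwa [Finset.sum_range_succ, Finset.sum_range_one] at this
  have m : ∀ k a b c, b < 2 → e k a b * e k b c = e k a c := h.mul_same
  have m0 : ∀ k a b c d, b ≠ c → e k a b * e k c d = 0 := h.mul_ne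
  refine ⟨fun k => ?_, fun k => ?_, fun k => ?_, fun k => ?_, fun k => ?_,
    fun i j hij => ?_, fun i j hij => ?_, fun i j hij => ?_⟩
  · rw [IsSelfAdjoint, star_add, h.star_e, h.star_e, add_comm]
  · rw [IsSelfAdjoint, star_sub, h.star_e, h.star_e]
  · rw [add_mul, mul_add, mul_add, m0 k 0 1 0 1 (by norm_num), m k 0 1 0 (by norm_num),
      m k 1 0 1 (by norm_num), m0 k 1 0 1 0 (by norm_num), zero_add, add_zero, h1]
  · rw [sub_mul, mul_sub, mul_sub, m0 k 0 0 1 1 (by norm_num), m k 0 0 0 (by norm_num),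
      m k 1 1 1 (by norm_num), m0 k 1 1 0 0 (by norm_num), zero_sub, sub_zero, sub_neg_eq_add, h1]
  · rw [add_mul, mul_sub, mul_sub, sub_mul, mul_add, mul_add,
      m0 k 0 1 0 0 (by norm_num), m k 0 1 1 (by norm_num), m k 1 0 0 (by norm_num),
      m0 k 1 0 1 1 (by norm_num), m k 0 0 1 (by norm_num), m0 k 0 0 1 0 (by norm_num),
      m0 k 1 1 0 1 (by norm_num), m k 1 1 0 (by norm_num)]
    abel
  · have c := fun a b c d => (h.comm i j hij a b c d).eq
    rw [add_mul, mul_add, mul_add, add_mul, mul_add, mul_add, c, c, c, c]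
    abel
  · have c := fun a b c d => (h.comm i j hij a b c d).eq
    rw [add_mul, mul_sub, mul_sub, sub_mul, mul_add, mul_add, c, c, c, c]
    abel
  · have c := fun a b c d => (h.comm i j hij a b c d).eq
    rw [sub_mul, mul_sub, mul_sub, sub_mul, mul_sub, mul_sub, c, c, c, c]
    abel

theorem PauliFamily.map {Λ A B : Type u} [CStarAlgebra A] [CStarAlgebra B] {u v : Λ → A}
    (h : PauliFamily u v) (φ : A →⋆ₐ[ℂ] B) : PauliFamily (fun k => φ (u k)) (fun k => φ (v k)) := by
  refine ⟨fun k => (h.saU k).map φ, fun k => (h.saV k).map φ, fun k => ?_, fun k => ?_,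
    fun k => ?_, fun i j hij => ?_, fun i j hij => ?_, fun i j hij => ?_⟩
  · rw [← map_mul, h.sqU, map_one]
  · rw [← map_mul, h.sqV, map_one]
  · rw [← map_mul, ← map_mul, ← map_add, h.anti, map_zero]
  · rw [← map_mul, ← map_mul, h.cUU i j hij]
  · rw [← map_mul, ← map_mul, h.cUV i j hij]
  · rw [← map_mul, ← map_mul, h.cVV i j hij]

end Pool.Agent.Helper741.UHF
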