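import Pool.Agent.Helper741.UHF.Tensor

/-! Existence of the infinite tensor products, as algebras of operators on `ℓ²`. -/

open Finset Cardinal
open scoped ENNReal lp

universe u

namespace Pool.Agent.Helper741.UHF

section op

variable {Y : Type u}

/-- the Hilbert space `ℓ²(Y)` -/
abbrev L2 (Y : Type u) : Type u := lp (fun _ : Y => ℂ) 2

theorem memlp_mk (s : Y → Prop) [DecidablePred s] (π : Equiv.Perm Y) (ξ : L2 Y) :
    Memℓp (fun y => if s y then ξ (π y) else 0) 2 := by
  have h2 : (0 : ℝ) < (2 : ℝ≥0∞).toReal := by norm_num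
  rw [memℓp_gen_iff h2]
  have h1 : Summable fun y => ‖ξ (π y)‖ ^ (2 : ℝ≥0∞).toReal :=
    (π.summable_iff (f := fun y => ‖ξ y‖ ^ (2 : ℝ≥0∞).toReal)).mpr ((lp.memℓp ξ).summable h2)
  refine Summable.of_nonneg_of_le (fun y => by positivity) (fun y => ?_) h1
  split_ifs
  · exact le_rfl
  · rw [norm_zero, Real.zero_rpow h2.ne']
    positivity

/-- partial permutation operators -/
noncomputable def pop (s : Y → Prop) [DecidablePred s] (π : Equiv.Perm Y) : L2 Y →L[ℂ] L2 Y :=
  LinearMap.mkContinuous
    { toFun := fun ξ => ⟨fun y => if s y then ξ (π y) else 0, memlp_mk s π ξ⟩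
      map_add' := fun ξ η => by
        ext y
        simp only [lp.coeFn_add, Pi.add_apply]
        split_ifs
        · rfl
        · simp
      map_smul' := fun c ξ => by
        ext y
        simp only [lp.coeFn_smul, Pi.smul_apply, RingHom.id_apply]
        split_ifs
        · rfl
        · simp } 1 (by
    intro ξ
    have h2 : (0 : ℝ) < (2 : ℝ≥0∞).toReal := by norm_num
    rw [one_mul]
    refine lp.norm_le_of_tsum_le h2 (norm_nonneg _) ?_
    rw [lp.norm_rpow_eq_tsum h2]
    rw [← π.tsum_eq (fun y => ‖ξ y‖ ^ (2 : ℝ≥0∞).toReal)]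
    refine Summable.tsum_le_tsum (fun y => ?_) ?_ ?_
    · change ‖if s y then ξ (π y) else 0‖ ^ (2 : ℝ≥0∞).toReal ≤ _
      split_ifs
      · exact le_rfl
      · rw [norm_zero, Real.zero_rpow h2.ne']
        positivity
    · exact (memℓp_gen_iff h2).mp (memlp_mk s π ξ)
    · exact (π.summable_iff (f := fun y => ‖ξ y‖ ^ (2 : ℝ≥0∞).toReal)).mpr
        ((lp.memℓp ξ).summable h2))

theorem pop_apply (s : Y → Prop) [DecidablePred s] (π : Equiv.Perm Y) (ξ : L2 Y) (y : Y) :
    pop s π ξ y = if s y then ξ (π y) else 0 := rfl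

theorem star_pop (s : Y → Prop) [DecidablePred s] (π : Equiv.Perm Y)
    (hπ : ∀ y, π (π y) = y) : star (pop s π) = pop (fun y => s (π y)) π := by
  rw [ContinuousLinearMap.star_eq_adjoint]
  symm
  rw [ContinuousLinearMap.eq_adjoint_iff]
  intro ξ η
  rw [lp.inner_eq_tsum, lp.inner_eq_tsum, ← π.tsum_eq]
  refine tsum_congr fun y => ?_
  rw [pop_apply, pop_apply]
  simp only [hπ]
  split_ifs
  · rfl
  · rw [inner_zero_left, inner_zero_right]

end op

section fock

variable {J : Type u} (n : J → ℕ)

/-- finitely supported configurations -/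
abbrev Conf : Type u := {f : J →₀ ℕ // ∀ j, f j < n j}

variable {n}

theorem swap_lt {a b c N : ℕ} (ha : a < N) (hb : b < N) (hc : c < N) :
    Equiv.swap a b c < N := by
  rw [Equiv.swap_apply_def]
  split_ifs <;> assumption

open Classical in
/-- swapping the values `a` and `b` at the site `j` -/
noncomputable def swp (j : J) (a b : ℕ) (ha : a < n j) (hb : b < n j) : Equiv.Perm (Conf n) :=
  Function.Involutive.toPerm
    (fun y => ⟨y.1.update j (Equiv.swap a b (y.1 j)), fun i => by
      rw [Finsupp.coe_update, Function.update_apply]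
      split_ifs with h
      · subst h
        exact swap_lt ha hb (y.2 i)
      · exact y.2 i⟩) (by
    intro y
    apply Subtype.ext
    ext i
    simp only [Finsupp.coe_update, Function.update_self, Equiv.swap_apply_self]
    by_cases h : i = j
    · subst h
      rw [Function.update_self]
    · rw [Function.update_of_ne h, Function.update_of_ne h])

open Classical in
theorem swp_apply (j : J) (a b : ℕ) (ha : a < n j) (hb : b < n j) (y : Conf n) (i : J) :
    (swp j a b ha hb y).1 i = if i = j then Equiv.swap a b (y.1 j) else y.1 i := by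
  change (y.1.update j (Equiv.swap a b (y.1 j))) i = _
  rw [Finsupp.coe_update, Function.update_apply]

theorem swp_swp (j : J) (a b : ℕ) (ha : a < n j) (hb : b < n j) (y : Conf n) :
    swp j a b ha hb (swp j a b ha hb y) = y := by
  apply Subtype.ext
  ext i
  rw [swp_apply, swp_apply, swp_apply, if_pos rfl, Equiv.swap_apply_self]
  by_cases h : i = j
  · rw [if_pos h, h]
  · rw [if_neg h, if_neg h]

open Classical in
/-- the matrix units acting on `ℓ²` of the configurations -/
noncomputable def fockE (n : J → ℕ) (j : J) (a b : ℕ) : L2 (Conf n) →L[ℂ] L2 (Conf n) :=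
  if h : a < n j ∧ b < n j then pop (fun y : Conf n => y.1 j = a) (swp j a b h.1 h.2) else 0

theorem fockE_apply (j : J) (a b : ℕ) (h : a < n j ∧ b < n j) (ξ : L2 (Conf n)) (y : Conf n) :
    fockE n j a b ξ y = if y.1 j = a then ξ (swp j a b h.1 h.2 y) else 0 := by
  unfold fockE
  rw [dif_pos h]
  rw [pop_apply]

theorem fockE_neg (j : J) (a b : ℕ) (h : ¬ (a < n j ∧ b < n j)) : fockE n j a b = 0 := by
  unfold fockE
  rw [dif_neg h]

theorem fock_musys (hn : ∀ j, 0 < n j) : MUSys n (fockE n) := by
  classical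
  refine ⟨hn, fun j a b ha => ?_, fun j a b c hb => ?_, fun j a b c d hbc => ?_,
    fun j a b => ?_, fun j => ?_, fun i j hij a b c d => ?_⟩
  · exact fockE_neg j a b fun h => absurd h.1 (not_lt.mpr ha)
  · by_cases ha : a < n j
    swap
    · rw [fockE_neg j a b (fun h => ha h.1), zero_mul, fockE_neg j a c (fun h => ha h.1)]
    by_cases hc : c < n j
    swap
    · rw [fockE_neg j b c (fun h => hc h.2), mul_zero, fockE_neg j a c (fun h => hc h.2)]
    ext ξ y
    change fockE n j a b (fockE n j b c ξ) y = fockE n j a c ξ y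
    rw [fockE_apply j a b ⟨ha, hb⟩, fockE_apply j b c ⟨hb, hc⟩, fockE_apply j a c ⟨ha, hc⟩]
    split_ifs with h1 h2
    · have key : swp j b c hb hc (swp j a b ha hb y) = swp j a c ha hc y := by
        apply Subtype.ext
        ext i
        rw [swp_apply, swp_apply, swp_apply, swp_apply, if_pos rfl]
        by_cases h : i = j
        · rw [if_pos h, if_pos h, h1, Equiv.swap_apply_left, Equiv.swap_apply_left,
            Equiv.swap_apply_left]
        · rw [if_neg h, if_neg h, if_neg h]
      rw [key]
    · exfalso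
      apply h2
      rw [swp_apply, if_pos rfl, h1, Equiv.swap_apply_left]
    · rfl
  · by_cases h1 : a < n j ∧ b < n j
    swap
    · rw [fockE_neg j a b h1, zero_mul]
    by_cases h2 : c < n j ∧ d < n j
    swap
    · rw [fockE_neg j c d h2, mul_zero]
    ext ξ y
    change fockE n j a b (fockE n j c d ξ) y = 0
    rw [fockE_apply j a b h1, fockE_apply j c d h2]
    split_ifs with h3 h4
    · exfalso
      rw [swp_apply, if_pos rfl, h3, Equiv.swap_apply_left] at h4
      exact hbc h4
    · rfl
    · rfl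
  · by_cases h1 : a < n j ∧ b < n j
    swap
    · rw [fockE_neg j a b h1, star_zero, fockE_neg j b a (fun h => h1 ⟨h.2, h.1⟩)]
    unfold fockE
    rw [dif_pos h1, dif_pos ⟨h1.2, h1.1⟩, star_pop _ _ (swp_swp j a b h1.1 h1.2)]
    ext ξ y
    rw [pop_apply, pop_apply, swp_apply, if_pos rfl]
    have e1 : Equiv.swap a b (y.1 j) = a ↔ y.1 j = b := by
      constructor
      · intro h
        have := congrArg (Equiv.swap a b) h
        rwa [Equiv.swap_apply_self, Equiv.swap_apply_left] at this
      · intro h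
        rw [h, Equiv.swap_apply_right]
    have e2 : swp j a b h1.1 h1.2 y = swp j b a h1.2 h1.1 y := by
      apply Subtype.ext
      ext i
      rw [swp_apply, swp_apply, Equiv.swap_comm]
    rw [e2]
    exact if_congr e1 rfl rfl
  · ext ξ y
    rw [_root_.sum_apply, lp.coeFn_sum, Finset.sum_apply,
      Finset.sum_eq_single (y.1 j)]
    · rw [fockE_apply j _ _ ⟨y.2 j, y.2 j⟩, if_pos rfl]
      have key : swp j (y.1 j) (y.1 j) (y.2 j) (y.2 j) y = y := by
        apply Subtype.ext
        ext i
        rw [swp_apply, Equiv.swap_self]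
        by_cases h : i = j
        · rw [if_pos h, h]
          rfl
        · rw [if_neg h]
      rw [key]
      rfl
    · intro b hb hne
      have hb' := Finset.mem_range.mp hb
      rw [fockE_apply j _ _ ⟨hb', hb'⟩, if_neg (fun h => hne h.symm)]
    · intro h
      exact absurd (Finset.mem_range.mpr (y.2 j)) h
  · by_cases h1 : a < n i ∧ b < n i
    swap
    · rw [fockE_neg i a b h1]
      exact Commute.zero_left _
    by_cases h2 : c < n j ∧ d < n j
    swap
    · rw [fockE_neg j c d h2]
      exact Commute.zero_right _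
    ext ξ y
    change fockE n i a b (fockE n j c d ξ) y = fockE n j c d (fockE n i a b ξ) y
    rw [fockE_apply i a b h1, fockE_apply j c d h2, fockE_apply j c d h2, fockE_apply i a b h1,
      swp_apply, swp_apply, if_neg hij, if_neg hij.symm]
    have e : swp j c d h2.1 h2.2 (swp i a b h1.1 h1.2 y) =
        swp i a b h1.1 h1.2 (swp j c d h2.1 h2.2 y) := by
      apply Subtype.ext
      ext k
      simp only [swp_apply]
      by_cases hki : k = i
      · subst hki
        simp [hij]
      · by_cases hkj : k = j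
        · subst hkj
          simp [hki]
        · simp [hki, hkj]
    rw [e]
    split_ifs <;> rfl

theorem nontrivial_L2 (hn : ∀ j, 0 < n j) : Nontrivial (L2 (Conf n) →L[ℂ] L2 (Conf n)) := by
  classical
  have y0 : Conf n := ⟨0, hn⟩
  have : Nontrivial (L2 (Conf n)) := by
    refine ⟨⟨lp.single 2 y0 1, 0, fun h => ?_⟩⟩
    have := congrArg (fun ξ : L2 (Conf n) => ξ y0) h
    simp at this
  infer_instance

end fock

/-- Existence. -/
theorem exists_isMatrixTensor {J : Type u} (n : J → ℕ) (hn : ∀ j, 0 < n j) :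
    ∃ (E : Type u) (_ : CStarAlgebra E), IsMatrixTensor n E := by
  have := nontrivial_L2 hn
  obtain ⟨F, iF, nF, e₀, _, h₀, g₀, _⟩ := exists_generated (fock_musys hn)
  exact ⟨F, iF, isMatrixTensor_of_musys h₀ g₀⟩

/-- Uniqueness. -/
theorem isMatrixTensor_unique {J : Type u} {n : J → ℕ} (hn : ∀ j, 0 < n j) {E F : Type u}
    [CStarAlgebra E] [CStarAlgebra F] (hE : IsMatrixTensor n E) (hF : IsMatrixTensor n F) :
    Nonempty (E ≃⋆ₐ[ℂ] F) := by
  obtain ⟨hEn, ι, hι, hιg⟩ := hE
  obtain ⟨hFn, κ, hκ, hκg⟩ := hF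
  obtain ⟨ψ, hψ, hψe⟩ := exists_embedding (musys_unitsOf ι hn hι) (musys_unitsOf κ hn hκ)
    (adjoin_unitsOf ι hιg)
  refine ⟨StarAlgEquiv.ofBijective ψ ⟨hψ, ?_⟩⟩
  have hiso : Isometry ψ := NonUnitalStarAlgHom.isometry ψ hψ
  have hcr : IsClosed (Set.range ψ) := hiso.isClosedEmbedding.isClosed_range
  have hle : Algebra.adjoin ℂ {x | ∃ j a b, x = unitsOf κ j a b} ≤ ψ.toAlgHom.range := by
    refine Algebra.adjoin_le ?_
    rintro x ⟨j, a, b, rfl⟩
    exact ⟨unitsOf ι j a b, hψe j a b⟩
  have hle2 := Subalgebra.topologicalClosure_minimal hle hcr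
  rw [adjoin_unitsOf κ hκg] at hle2
  intro y
  exact hle2 (show y ∈ (⊤ : Subalgebra ℂ F) from trivial)

/-- Existence of `A`, `B` and `A ⊗ B`. -/
theorem exists_tensor_all {I K : Type u} (n : I → ℕ) (m : K → ℕ) (hn : ∀ i, 0 < n i)
    (hm : ∀ k, 0 < m k) :
    ∃ (A B F : Type u) (_ : CStarAlgebra A) (_ : CStarAlgebra B) (_ : CStarAlgebra F),
      IsMatrixTensor n A ∧ IsMatrixTensor m B ∧ IsCStarTensor A B F := by
  have h : ∀ j : I ⊕ K, 0 < Sum.elim n m j := by
    rintro (i | k)
    · exact hn i
    · exact hm k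
  have := nontrivial_L2 h
  exact exists_tensor (fock_musys h)

end Pool.Agent.Helper741.UHF
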