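import Pool.Agent.Helper741.UHF.Rep
import Pool.Agent.Helper741.UHF.Ring

/-! The case of finitely many even factors. -/

open Finset

universe u

namespace Pool.Agent.Helper741.UHF

/-- A family of anticommuting pairs of self-adjoint unitaries, different pairs commuting. -/
structure PauliFamily {Λ E : Type*} [CStarAlgebra E] (u v : Λ → E) : Prop where
  saU : ∀ α, IsSelfAdjoint (u α)
  saV : ∀ α, IsSelfAdjoint (v α)
  sqU : ∀ α, u α * u α = 1
  sqV : ∀ α, v α * v α = 1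
  anti : ∀ α, u α * v α + v α * u α = 0
  cUU : ∀ α β, α ≠ β → u α * u β = u β * u α
  cUV : ∀ α β, α ≠ β → u α * v β = v β * u α
  cVV : ∀ α β, α ≠ β → v α * v β = v β * v α

section norms

variable {E : Type*} [CStarAlgebra E]

theorem norm_le_one_of_sq {x : E} (hx : IsSelfAdjoint x) (h : x * x = 1) : ‖x‖ ≤ 1 := by
  rcases subsingleton_or_nontrivial E with hA | hA
  · rw [Subsingleton.elim x 0, norm_zero]
    norm_num
  have h2 : ‖x * x‖ = ‖x‖ * ‖x‖ := by
    have := CStarRing.norm_star_mul_self (x := x)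
    rwa [hx.star_eq] at this
  rw [h, CStarRing.norm_one] at h2
  nlinarith [norm_nonneg x]

theorem norm_prod_sub_le {x y u v : E} {η : ℝ} (hη1 : η ≤ 1) (hu : ‖u‖ ≤ 1)
    (hv : ‖v‖ ≤ 1) (hx : ‖x - u‖ ≤ η) (hy : ‖y - v‖ ≤ η) : ‖x * y - u * v‖ ≤ 3 * η := by
  have hη0 : 0 ≤ η := (norm_nonneg _).trans hx
  have h1 : x * y - u * v = (x - u) * (y - v) + (x - u) * v + u * (y - v) := by noncomm_ring
  have e1 : ‖(x - u) * (y - v)‖ ≤ η * 1 :=
    (norm_mul_le _ _).trans (mul_le_mul hx (hy.trans hη1) (norm_nonneg _) hη0)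
  have e2 : ‖(x - u) * v‖ ≤ η * 1 :=
    (norm_mul_le _ _).trans (mul_le_mul hx hv (norm_nonneg _) hη0)
  have e3 : ‖u * (y - v)‖ ≤ 1 * η :=
    (norm_mul_le _ _).trans (mul_le_mul hu hy (norm_nonneg _) zero_le_one)
  rw [h1]
  calc _ ≤ ‖(x - u) * (y - v) + (x - u) * v‖ + ‖u * (y - v)‖ := norm_add_le _ _
    _ ≤ ‖(x - u) * (y - v)‖ + ‖(x - u) * v‖ + ‖u * (y - v)‖ := by
        gcongr
        exact norm_add_le _ _
    _ ≤ 3 * η := by linarith

theorem norm_comm_le {x y u v : E} {η : ℝ} (hη1 : η ≤ 1) (hu : ‖u‖ ≤ 1)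
    (hv : ‖v‖ ≤ 1) (hx : ‖x - u‖ ≤ η) (hy : ‖y - v‖ ≤ η) (huv : u * v = v * u) :
    ‖x * y - y * x‖ ≤ 6 * η := by
  have h1 := norm_prod_sub_le hη1 hu hv hx hy
  have h2 := norm_prod_sub_le hη1 hv hu hy hx
  have : x * y - y * x = (x * y - u * v) - (y * x - v * u) := by
    rw [huv]
    abel
  rw [this]
  calc _ ≤ ‖x * y - u * v‖ + ‖y * x - v * u‖ := norm_sub_le _ _
    _ ≤ 6 * η := by linarith

theorem norm_anti_le {x y u v : E} {η : ℝ} (hη1 : η ≤ 1) (hu : ‖u‖ ≤ 1)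
    (hv : ‖v‖ ≤ 1) (hx : ‖x - u‖ ≤ η) (hy : ‖y - v‖ ≤ η) (huv : u * v + v * u = 0) :
    ‖x * y + y * x‖ ≤ 6 * η := by
  have h1 := norm_prod_sub_le hη1 hu hv hx hy
  have h2 := norm_prod_sub_le hη1 hv hu hy hx
  have : x * y + y * x = (x * y - u * v) + (y * x - v * u) + (u * v + v * u) := by
    abel
  rw [this, huv, add_zero]
  calc _ ≤ ‖x * y - u * v‖ + ‖y * x - v * u‖ := norm_add_le _ _
    _ ≤ 6 * η := by linarith

/-- Approximating a Pauli family. -/
theorem approxPauli_of_close {Λ : Type*} {u v : Λ → E} (hp : PauliFamily u v) {r : ℕ}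
    (ι : Fin r → Λ) (hι : Function.Injective ι) {η δ : ℝ} (hη1 : η ≤ 1) (hηδ : 6 * η ≤ δ)
    (x y : Fin r → E) (hxs : ∀ i, IsSelfAdjoint (x i)) (hys : ∀ i, IsSelfAdjoint (y i))
    (hx : ∀ i, ‖x i - u (ι i)‖ ≤ η) (hy : ∀ i, ‖y i - v (ι i)‖ ≤ η) : ApproxPauli r δ x y := by
  have hu : ∀ α, ‖u α‖ ≤ 1 := fun α => norm_le_one_of_sq (hp.saU α) (hp.sqU α)
  have hv : ∀ α, ‖v α‖ ≤ 1 := fun α => norm_le_one_of_sq (hp.saV α) (hp.sqV α)
  refine ⟨hxs, hys, fun i => ?_, fun i => ?_, fun i => ?_, fun i j hij => ?_,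
      fun i j hij => ?_, fun i j hij => ?_⟩
  · have hη0 : 0 ≤ η := (norm_nonneg _).trans (hx i)
    have := norm_prod_sub_le hη1 (hu _) (hu _) (hx i) (hx i)
    rw [hp.sqU] at this
    linarith
  · have hη0 : 0 ≤ η := (norm_nonneg _).trans (hx i)
    have := norm_prod_sub_le hη1 (hv _) (hv _) (hy i) (hy i)
    rw [hp.sqV] at this
    linarith
  · exact (norm_anti_le hη1 (hu _) (hv _) (hx i) (hy i) (hp.anti _)).trans hηδ
  · exact (norm_comm_le hη1 (hu _) (hu _) (hx i) (hx j)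
      (hp.cUU _ _ fun h => hij (hι h))).trans hηδ
  · exact (norm_comm_le hη1 (hu _) (hv _) (hx i) (hy j)
      (hp.cUV _ _ fun h => hij (hι h))).trans hηδ
  · exact (norm_comm_le hη1 (hv _) (hv _) (hy i) (hy j)
      (hp.cVV _ _ fun h => hij (hι h))).trans hηδ

end norms

variable {J E : Type u} [CStarAlgebra E] {n : J → ℕ} {e : J → ℕ → ℕ → E}

theorem isSelfAdjoint_half_add (x : E) : IsSelfAdjoint ((1 / 2 : ℂ) • (x + star x)) := by
  rw [IsSelfAdjoint, star_smul, star_add, star_star]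
  congr 1
  · simp
  · exact add_comm _ _

theorem norm_half_add_sub_le {x u : E} {η : ℝ} (hu : IsSelfAdjoint u) (hx : ‖x - u‖ ≤ η) :
    ‖(1 / 2 : ℂ) • (x + star x) - u‖ ≤ η := by
  have h1 : (1 / 2 : ℂ) • (x + star x) - u = (1 / 2 : ℂ) • ((x - u) + star (x - u)) := by
    rw [star_sub, hu.star_eq]
    have : u = (1 / 2 : ℂ) • (u + u) := by
      rw [← two_smul ℂ u, smul_smul]
      norm_num
    nth_rewrite 1 [this]
    rw [← smul_sub]
    congr 1
    abel
  rw [h1, norm_smul]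
  have h2 : ‖(x - u) + star (x - u)‖ ≤ η + η :=
    (norm_add_le _ _).trans (add_le_add hx (by rwa [norm_star]))
  have h3 : ‖(1 / 2 : ℂ)‖ = 1 / 2 := by norm_num
  rw [h3]
  linarith

theorem exists_dvd [Nontrivial E] (h : MUSys n e)
    (hgen : (Algebra.adjoin ℂ {x | ∃ j a b, x = e j a b}).topologicalClosure = ⊤)
    {Λ : Type*} {u v : Λ → E} (hp : PauliFamily u v) (M : ℕ) (ι : Fin M → Λ)
    (hι : Function.Injective ι) : ∃ T : Finset J, 2 ^ M ∣ ∏ j ∈ T, n j := by
  classical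
  obtain ⟨δ, hδ, hdvd⟩ := two_pow_dvd.{0} M
  set η := min 1 (δ / 6) with hη
  have hη0 : 0 < η := by positivity
  have hη1 : η ≤ 1 := min_le_left _ _
  have hηδ : 6 * η ≤ δ := by
    have := min_le_right 1 (δ / 6)
    rw [← hη] at this
    linarith
  have hx : ∀ i : Fin M, ∃ T : Finset J, ∃ w ∈ D e (T : Set J), ‖w - u (ι i)‖ ≤ η := by
    intro i
    obtain ⟨T, w, hw, hwu⟩ := dense_D hgen (u (ι i)) hη0
    exact ⟨T, w, hw, by rw [norm_sub_rev]; exact hwu.le⟩
  have hy : ∀ i : Fin M, ∃ T : Finset J, ∃ w ∈ D e (T : Set J), ‖w - v (ι i)‖ ≤ η := by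
    intro i
    obtain ⟨T, w, hw, hwu⟩ := dense_D hgen (v (ι i)) hη0
    exact ⟨T, w, hw, by rw [norm_sub_rev]; exact hwu.le⟩
  choose Tx x hxD hxu using hx
  choose Ty y hyD hyv using hy
  set T : Finset J := (Finset.univ.biUnion Tx) ∪ (Finset.univ.biUnion Ty) with hT
  set ℓ := T.toList with hℓ
  let C : StarSubalgebra ℂ E := StarSubalgebra.centralizer ℂ Set.univ
  have hCmem : ∀ z, z ∈ C ↔ ∀ g, g * z = z * g := by
    intro z
    rw [StarSubalgebra.mem_centralizer_iff]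
    exact ⟨fun hz g => (hz g trivial).1, fun hz g _ => ⟨hz g, hz _⟩⟩
  have hC : IsClosed (C : Set E) := Set.isClosed_centralizer _
  have hcomm : ∀ x ∈ C, ∀ y ∈ C, x * y = y * x := fun x _ y hy => (hCmem y).mp hy x
  have hD0 : ∀ w ∈ D e (∅ : Set J), w ∈ C := by
    intro w hw
    refine D_induction (e := e) (N := ∅) (p := fun w => w ∈ C) ?_ ?_ ?_ ?_ hw
    · intro j hj
      exact absurd hj (Set.notMem_empty j)
    · intro c
      exact algebraMap_mem C c
    · exact fun x y hx hy => add_mem hx hy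
    · exact fun x y hx hy => mul_mem hx hy
  have hsl : ∀ w ∈ D e (T : Set J), w ∈ sliceAlg h ℓ C := by
    intro w hw f hf g hg
    refine hD0 _ (Sl_mem_D h ℓ (Finset.nodup_toList T) (fun j _ => Set.notMem_empty j) ?_
      f g hf hg)
    refine D_mono ?_ hw
    intro j hj
    exact Or.inr (by simpa [hℓ] using hj)
  have hxS : ∀ i, x i ∈ sliceAlg h ℓ C := fun i => hsl _ (D_mono (by
    intro j hj
    rw [hT]
    simp only [coe_union, coe_biUnion, coe_univ, Set.mem_univ, Set.iUnion_true, Set.mem_union,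
      Set.mem_iUnion]
    exact Or.inl ⟨i, hj⟩) (hxD i))
  have hyS : ∀ i, y i ∈ sliceAlg h ℓ C := fun i => hsl _ (D_mono (by
    intro j hj
    rw [hT]
    simp only [coe_union, coe_biUnion, coe_univ, Set.mem_univ, Set.iUnion_true, Set.mem_union,
      Set.mem_iUnion]
    exact Or.inr ⟨i, hj⟩) (hyD i))
  have hAP : ApproxPauli M δ (fun i => (1 / 2 : ℂ) • (x i + star (x i)))
      (fun i => (1 / 2 : ℂ) • (y i + star (y i))) :=
    approxPauli_of_close hp ι hι hη1 hηδ _ _ (fun i => isSelfAdjoint_half_add _)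
      (fun i => isSelfAdjoint_half_add _) (fun i => norm_half_add_sub_le (hp.saU _) (hxu i))
      (fun i => norm_half_add_sub_le (hp.saV _) (hyv i))
  have hd := transfer h ℓ C hC hcomm hdvd _ _
    (fun i => SMulMemClass.smul_mem _ (add_mem (hxS i) (star_mem (hxS i))))
    (fun i => SMulMemClass.smul_mem _ (add_mem (hyS i) (star_mem (hyS i)))) hAP
  have hprod : (ℓ.map n).prod = ∏ j ∈ T, n j := by
    rw [hℓ, Finset.prod_map_toList]
  exact ⟨T, hprod ▸ hd⟩

theorem padic_prod {J : Type*} {n : J → ℕ} (T : Finset J) (hT : ∀ j ∈ T, n j ≠ 0) :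
    padicValNat 2 (∏ j ∈ T, n j) = ∑ j ∈ T, padicValNat 2 (n j) := by
  classical
  induction T using Finset.induction_on with
  | empty => simp
  | insert a T ha ih =>
    rw [Finset.prod_insert ha, Finset.sum_insert ha, padicValNat.mul
      (hT a (Finset.mem_insert_self _ _))
      (Finset.prod_ne_zero_iff.mpr fun j hj => hT j (Finset.mem_insert_of_mem hj)),
      ih fun j hj => hT j (Finset.mem_insert_of_mem hj)]

/-- A finite Pauli family is at most as large as the total `2`-adic weight. -/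
theorem exists_le_sum [Nontrivial E] (h : MUSys n e)
    (hgen : (Algebra.adjoin ℂ {x | ∃ j a b, x = e j a b}).topologicalClosure = ⊤)
    {Λ : Type*} {u v : Λ → E} (hp : PauliFamily u v) (M : ℕ) (ι : Fin M → Λ)
    (hι : Function.Injective ι) : ∃ T : Finset J, M ≤ ∑ j ∈ T, padicValNat 2 (n j) := by
  obtain ⟨T, hT⟩ := exists_dvd h hgen hp M ι hι
  refine ⟨T, ?_⟩
  have hne : ∏ j ∈ T, n j ≠ 0 := Finset.prod_ne_zero_iff.mpr fun j _ => (h.pos j).ne'
  have h1 := (padicValNat_dvd_iff_le (p := 2) hne).mp hT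
  rwa [padic_prod T fun j _ => (h.pos j).ne'] at h1

theorem not_infinite_of_finite [Nontrivial E] (h : MUSys n e)
    (hgen : (Algebra.adjoin ℂ {x | ∃ j a b, x = e j a b}).topologicalClosure = ⊤)
    {Λ : Type*} [Infinite Λ] {u v : Λ → E} (hp : PauliFamily u v)
    (hP : {j | Even (n j)}.Finite) : False := by
  classical
  set W := ∑ j ∈ hP.toFinset, padicValNat 2 (n j) with hW
  let ι : Fin (W + 1) → Λ := fun i => Infinite.natEmbedding Λ i
  have hι : Function.Injective ι := fun i j hij =>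
    Fin.ext ((Infinite.natEmbedding Λ).injective hij)
  obtain ⟨T, hT⟩ := exists_le_sum h hgen hp (W + 1) ι hι
  have : ∑ j ∈ T, padicValNat 2 (n j) ≤ W := by
    rw [← Finset.sum_filter_add_sum_filter_not T (fun j => Even (n j))]
    have h0 : ∑ j ∈ T.filter (fun j => ¬ Even (n j)), padicValNat 2 (n j) = 0 := by
      refine Finset.sum_eq_zero fun j hj => ?_
      refine padicValNat.eq_zero_of_not_dvd fun hd => ?_
      exact (Finset.mem_filter.mp hj).2 (even_iff_two_dvd.mpr hd)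
    rw [h0, add_zero]
    refine Finset.sum_le_sum_of_subset ?_
    intro j hj
    simpa using (Finset.mem_filter.mp hj).2
  omega

end Pool.Agent.Helper741.UHF
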