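import Pool.Agent.Helper741.UHF.Finite
import Pool.Agent.Helper741.UHF.ClosingOff

/-! The case of infinitely many even factors. -/

open Finset Cardinal Filter Topology

universe u

namespace Pool.Agent.Helper741.UHF

variable {J E : Type u} [CStarAlgebra E] {n : J → ℕ} {e : J → ℕ → ℕ → E}

/-- the list of all slices -/
noncomputable def prof (n : J → ℕ) (e : J → ℕ → ℕ → E) (ℓ : List J) (z : E) : List E :=
  (idx (ℓ.map n) ×ˢ idx (ℓ.map n)).toList.map fun p => Sl n e ℓ p.1 p.2 z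

theorem prof_eq {ℓ ℓ' : List J} (hℓ : ℓ'.map n = ℓ.map n) {z z' : E}
    (h : prof n e ℓ' z' = prof n e ℓ z) (f g : List ℕ) (hf : f ∈ idx (ℓ.map n))
    (hg : g ∈ idx (ℓ.map n)) : Sl n e ℓ' f g z' = Sl n e ℓ f g z := by
  unfold prof at h
  rw [hℓ, List.map_inj_left] at h
  exact h (f, g) (by simp [hf, hg])

theorem mem_prof {ℓ : List J} {z c : E} (h : c ∈ prof n e ℓ z) :
    ∃ f ∈ idx (ℓ.map n), ∃ g ∈ idx (ℓ.map n), Sl n e ℓ f g z = c := by
  unfold prof at h
  simp only [List.mem_map, Finset.mem_toList, Finset.mem_product, Prod.exists] at h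
  obtain ⟨f, g, ⟨hf, hg⟩, rfl⟩ := h
  exact ⟨f, hf, g, hg, rfl⟩

/-- types -/
abbrev Ty (J E : Type u) : Type u := ℕ × List J × List ℕ × List E × List E

/-- types over `N` -/
def Over (e : J → ℕ → ℕ → E) (N : Set J) : Set (Ty J E) :=
  {τ | (∀ j ∈ τ.2.1, j ∈ N) ∧ (∀ c ∈ τ.2.2.2.1, c ∈ D e N) ∧ (∀ c ∈ τ.2.2.2.2, c ∈ D e N)}

theorem mk_list_le {α : Type u} {κ : Cardinal.{u}} (hκ : ℵ₀ ≤ κ) (h : #α ≤ κ) :
    #(List α) ≤ κ := (mk_list_le_max α).trans (max_le hκ h)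

theorem mk_Over_le {κ : Cardinal.{u}} (hκ : ℵ₀ ≤ κ) (N : Set J) (hN : #N ≤ κ) :
    #(Over e N) ≤ κ := by
  have hD : #(D e N) ≤ κ := mk_D_le.trans (max_le hκ hN)
  let F : (ULift.{u} ℕ × List N × ULift.{u} (List ℕ) × List (D e N) × List (D e N)) → Ty J E :=
    fun p => (p.1.down, p.2.1.map Subtype.val, p.2.2.1.down, p.2.2.2.1.map Subtype.val,
      p.2.2.2.2.map Subtype.val)
  have hsub : Over e N ⊆ Set.range F := by
    rintro ⟨m, R, ν, cx, cy⟩ ⟨h1, h2, h3⟩
    dsimp only at h1 h2 h3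
    lift R to List N using h1
    lift cx to List (D e N) using h2
    lift cy to List (D e N) using h3
    exact ⟨(⟨m⟩, R, ⟨ν⟩, cx, cy), rfl⟩
  refine (mk_le_mk_of_subset hsub).trans (mk_range_le.trans ?_)
  simp only [mk_prod, lift_id]
  refine mul_le_of_le hκ (by simpa using hκ) ?_
  refine mul_le_of_le hκ (mk_list_le hκ hN) ?_
  refine mul_le_of_le hκ (by simpa using hκ) ?_
  exact mul_le_of_le hκ (mk_list_le hκ hD) (mk_list_le hκ hD)

theorem exists_k_set (N : ℕ → Set J) (hN : Monotone N) (R : List J)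
    (hR : ∀ j ∈ R, j ∈ ⋃ k, N k) : ∃ k, ∀ j ∈ R, j ∈ N k := by
  induction R with
  | nil => exact ⟨0, by simp⟩
  | cons a R ih =>
    obtain ⟨k, hk⟩ := ih fun j hj => hR j (List.mem_cons_of_mem _ hj)
    obtain ⟨k', hk'⟩ := Set.mem_iUnion.mp (hR a List.mem_cons_self)
    refine ⟨max k k', fun j hj => ?_⟩
    rcases List.mem_cons.mp hj with rfl | hj
    · exact hN (le_max_right _ _) hk'
    · exact hN (le_max_left _ _) (hk j hj)

theorem exists_k_D (N : ℕ → Set J) (hN : Monotone N) (c : E)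
    (hc : c ∈ D e (⋃ k, N k)) : ∃ k, c ∈ D e (N k) := by
  obtain ⟨T, hT, hcT⟩ := exists_finset_of_mem_D hc
  obtain ⟨k, hk⟩ := exists_k_set N hN T.toList fun j hj => hT (by simpa using hj)
  exact ⟨k, D_mono (fun j hj => hk j (by simpa using hj)) hcT⟩

theorem exists_k_list (N : ℕ → Set J) (hN : Monotone N) (l : List E)
    (hl : ∀ c ∈ l, c ∈ D e (⋃ k, N k)) : ∃ k, ∀ c ∈ l, c ∈ D e (N k) := by
  induction l with
  | nil => exact ⟨0, by simp⟩
  | cons a l ih =>
    obtain ⟨k, hk⟩ := ih fun j hj => hl j (List.mem_cons_of_mem _ hj)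
    obtain ⟨k', hk'⟩ := exists_k_D N hN a (hl a List.mem_cons_self)
    refine ⟨max k k', fun j hj => ?_⟩
    rcases List.mem_cons.mp hj with rfl | hj
    · exact D_mono (hN (le_max_right _ _)) hk'
    · exact D_mono (hN (le_max_left _ _)) (hk j hj)

theorem Over_finitary (N : ℕ → Set J) (hN : Monotone N) (τ : Ty J E)
    (hτ : τ ∈ Over e (⋃ k, N k)) : ∃ k, τ ∈ Over e (N k) := by
  obtain ⟨h1, h2, h3⟩ := hτ
  obtain ⟨k1, h1⟩ := exists_k_set N hN _ h1
  obtain ⟨k2, h2⟩ := exists_k_list N hN _ h2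
  obtain ⟨k3, h3⟩ := exists_k_list N hN _ h3
  refine ⟨max k1 (max k2 k3), ⟨fun j hj => hN (le_max_left _ _) (h1 j hj),
    fun c hc => D_mono (hN ?_) (h2 c hc), fun c hc => D_mono (hN ?_) (h3 c hc)⟩⟩
  · exact le_trans (le_max_left _ _) (le_max_right _ _)
  · exact le_trans (le_max_right _ _) (le_max_right _ _)

/-- realisation of a type -/
def Real {Λ : Type u} (n : J → ℕ) (e : J → ℕ → ℕ → E) (u v : Λ → E) (ε : ℕ → ℝ)
    (τ : Ty J E) (β : Λ) (t : Set J) : Prop :=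
  ∃ ℓ : List J, ℓ.Nodup ∧ {j | j ∈ ℓ} = t ∧ (∀ j ∈ ℓ, j ∉ τ.2.1) ∧ ℓ.map n = τ.2.2.1 ∧
    ∃ x ∈ D e ({j | j ∈ τ.2.1} ∪ {j | j ∈ ℓ}), ∃ y ∈ D e ({j | j ∈ τ.2.1} ∪ {j | j ∈ ℓ}),
      ‖x - u β‖ ≤ ε τ.1 ∧ ‖y - v β‖ ≤ ε τ.1 ∧
      prof n e ℓ x = τ.2.2.2.1 ∧ prof n e ℓ y = τ.2.2.2.2

theorem norm_Sl_le' (h : MUSys n e) (ℓ : List J) (f g : List ℕ) (z : E) :
    ‖Sl n e ℓ f g z‖ ≤ ‖z‖ := by
  let := CStarAlgebra.spectralOrder E
  let := CStarAlgebra.spectralOrderedRing E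
  exact norm_Sl_le h ℓ f g z

theorem norm_commutator_Sl_le' (h : MUSys n e) (ℓ : List J)
    (f g : List ℕ) (z w : E) (hw : ∀ j ∈ ℓ, ∀ c d, Commute (e j c d) w) :
    ‖w * Sl n e ℓ f g z - Sl n e ℓ f g z * w‖ ≤ ‖w * z - z * w‖ := by
  let := CStarAlgebra.spectralOrder E
  let := CStarAlgebra.spectralOrderedRing E
  exact norm_commutator_Sl_le h ℓ f g z w hw

/-- The stage estimate. -/
theorem stage (h : MUSys n e) {ℓ ℓ' R : List J} (hℓ : ℓ.Nodup) 
    (hℓR : ∀ j ∈ ℓ, j ∉ R) (hmap : ℓ'.map n = ℓ.map n)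
    (hdis : ∀ j ∈ ℓ', j ∉ ℓ) (hℓ'R : ∀ j ∈ ℓ', j ∉ R)
    {x z z' : E} (hx : x ∈ D e ({j | j ∈ R} ∪ {j | j ∈ ℓ}))
    (hz : z ∈ D e ({j | j ∈ R} ∪ {j | j ∈ ℓ}))
    (hzz : prof n e ℓ' z' = prof n e ℓ z) (f g f' g' : List ℕ)
    (hf' : f' ∈ idx (ℓ.map n)) (hg' : g' ∈ idx (ℓ.map n)) :
    ‖Sl n e ℓ f g x * Sl n e ℓ f' g' z - Sl n e ℓ f' g' z * Sl n e ℓ f g x‖ ≤
      ‖x * z' - z' * x‖ := by
  set b := Sl n e ℓ f' g' z with hb
  have hbD : b ∈ D e {j | j ∈ R} := Sl_mem_D h ℓ hℓ hℓR hz f' g' hf' hg'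
  have h1 := norm_commutator_Sl_le' h ℓ f g x b
    (fun j hj c d => commute_of_mem_D h hbD (hℓR j hj) c d)
  rw [norm_sub_rev]
  refine h1.trans ?_
  have hb' : b = Sl n e ℓ' f' g' z' := (prof_eq hmap hzz f' g' hf' hg').symm
  rw [hb', norm_sub_rev]
  refine norm_commutator_Sl_le' h ℓ' f' g' z' x (fun j hj c d => commute_of_mem_D h hx ?_ c d)
  rintro (hj' | hj')
  · exact hℓ'R j hj hj'
  · exact hdis j hj hj'

/-- the zero index -/
def z0 (ℓ : List J) : List ℕ := List.replicate ℓ.length 0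

theorem z0_mem (h : MUSys n e) (ℓ : List J) : z0 ℓ ∈ idx (ℓ.map n) := by
  induction ℓ with
  | nil => simp [z0]
  | cons j ℓ ih =>
    simp only [z0, List.length_cons, List.replicate_succ, List.map_cons, mem_idx_cons]
    exact ⟨0, h.pos j, _, ih, rfl⟩

theorem z0_length (ℓ : List J) : (z0 ℓ).length = ℓ.length := by simp [z0]

theorem z0_append (ℓ ℓ' : List J) : z0 (ℓ ++ ℓ') = z0 ℓ ++ z0 ℓ' := by
  unfold z0
  rw [List.length_append, List.replicate_add]

theorem core [Nontrivial E] (h : MUSys n e) {c δ : ℝ} (hc : 0 < c) (hc1 : 5 * c ≤ 1)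
    (hcδ : 30 * c ≤ δ)
    (hδ : ∀ (H : Type) [NormedAddCommGroup H] [InnerProductSpace ℂ H] [FiniteDimensional ℂ H]
      (X Y : Fin 1 → (H →L[ℂ] H)), ApproxPauli 1 δ X Y → 2 ^ 1 ∣ Module.finrank ℂ H)
    (L : List J) (rest r : ℕ → List J) (hrest0 : rest 0 = [])
    (hrest : ∀ m, rest (m + 1) = rest m ++ r m)
    (X : Bool → ℕ → E) (U : Bool → E) (hUs : ∀ b, IsSelfAdjoint (U b))
    (hU2 : ∀ b, U b * U b = 1) (hanti : U true * U false + U false * U true = 0)
    (hX : ∀ b m, ‖X b m - U b‖ ≤ c * (1 / 2) ^ m)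
    (hcX : ∀ b m, ∀ j ∈ r m, ∀ a d, Commute (e j a d) (X b m))
    (hcomm : ∀ b b' m, ∀ f ∈ idx ((L ++ rest m).map n), ∀ g ∈ idx ((L ++ rest m).map n),
      ∀ f' ∈ idx ((L ++ rest m).map n), ∀ g' ∈ idx ((L ++ rest m).map n),
      ‖Sl n e (L ++ rest m) f g (X b m) * Sl n e (L ++ rest m) f' g' (X b' m) -
        Sl n e (L ++ rest m) f' g' (X b' m) * Sl n e (L ++ rest m) f g (X b m)‖
        ≤ 6 * (c * (1 / 2) ^ m)) :
    2 ∣ (L.map n).prod := by
  classical
  set Xt : Bool → ℕ → E := fun b m => Sl n e (rest m) (z0 (rest m)) (z0 (rest m)) (X b m) with hXt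
  have hstep : ∀ b m, dist (Xt b m) (Xt b (m + 1)) ≤ 2 * c * (1 / 2) ^ m := by
    intro b m
    have h1 : Xt b (m + 1) = Sl n e (rest m) (z0 (rest m)) (z0 (rest m))
        (Sl n e (r m) (z0 (r m)) (z0 (r m)) (X b (m + 1))) := by
      simp only [hXt]
      rw [hrest m, z0_append, Sl_append _ _ _ _ _ _ (z0_length _) (z0_length _)]
    have h2 : Xt b m = Sl n e (rest m) (z0 (rest m)) (z0 (rest m))
        (Sl n e (r m) (z0 (r m)) (z0 (r m)) (X b m)) := by
      rw [Sl_of_commute h (r m) _ _ (z0_mem h _) (z0_mem h _) _ (hcX b m), if_pos rfl]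
    rw [dist_eq_norm, h1, h2, ← map_sub, ← map_sub]
    refine (norm_Sl_le' h _ _ _ _).trans ((norm_Sl_le' h _ _ _ _).trans ?_)
    have h3 : X b m - X b (m + 1) = (X b m - U b) - (X b (m + 1) - U b) := by abel
    rw [h3]
    calc _ ≤ ‖X b m - U b‖ + ‖X b (m + 1) - U b‖ := norm_sub_le _ _
      _ ≤ c * (1 / 2) ^ m + c * (1 / 2) ^ (m + 1) := add_le_add (hX b m) (hX b (m + 1))
      _ ≤ 2 * c * (1 / 2) ^ m := by
          rw [pow_succ]
          have : (0 : ℝ) ≤ c * (1 / 2) ^ m := by positivity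
          linarith
  have hZ : ∀ b, ∃ z, Tendsto (Xt b) atTop (𝓝 z) := fun b =>
    cauchySeq_tendsto_of_complete
      (cauchySeq_of_le_geometric (1 / 2) (2 * c) (by norm_num) (hstep b))
  choose Z hZ using hZ
  have hZU : ∀ b, ‖Z b - U b‖ ≤ 5 * c := by
    intro b
    have h1 := dist_le_of_le_geometric_of_tendsto₀ (1 / 2) (2 * c) (by norm_num) (hstep b) (hZ b)
    have h2 : Xt b 0 = X b 0 := by
      simp only [hXt]
      rw [hrest0]
      simp
    rw [h2, dist_eq_norm] at h1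
    have h3 := hX b 0
    rw [pow_zero, mul_one] at h3
    have h4 : Z b - U b = -(X b 0 - Z b) + (X b 0 - U b) := by abel
    rw [h4]
    refine (norm_add_le _ _).trans ?_
    rw [norm_neg]
    norm_num at h1
    linarith
  have hgeo : Tendsto (fun m : ℕ => 6 * (c * (1 / 2 : ℝ) ^ m)) atTop (𝓝 0) := by
    have := (tendsto_pow_atTop_nhds_zero_of_lt_one (r := (1 / 2 : ℝ)) (by norm_num)
      (by norm_num)).const_mul c
    simpa using this.const_mul 6
  have hZs : ∀ b, IsSelfAdjoint (Z b) := by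
    intro b
    have h1 : Tendsto (fun m => star (Xt b m) - Xt b m) atTop (𝓝 (star (Z b) - Z b)) :=
      (hZ b).star.sub (hZ b)
    have h2 : Tendsto (fun m => star (Xt b m) - Xt b m) atTop (𝓝 0) := by
      refine squeeze_zero_norm (fun m => ?_) hgeo
      simp only [hXt]
      rw [Sl_star h, ← map_sub]
      refine (norm_Sl_le' h _ _ _ _).trans ?_
      have h3 : star (X b m) - X b m = star (X b m - U b) - (X b m - U b) := by
        rw [star_sub, (hUs b).star_eq]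
        abel
      rw [h3]
      refine (norm_sub_le _ _).trans ?_
      rw [norm_star]
      have := hX b m
      have h0 : (0 : ℝ) ≤ c * (1 / 2) ^ m := by positivity
      linarith
    exact sub_eq_zero.mp (tendsto_nhds_unique h1 h2)
  have hZc : ∀ b b', ∀ f ∈ idx (L.map n), ∀ g ∈ idx (L.map n), ∀ f' ∈ idx (L.map n),
      ∀ g' ∈ idx (L.map n), Sl n e L f g (Z b) * Sl n e L f' g' (Z b') =
        Sl n e L f' g' (Z b') * Sl n e L f g (Z b) := by
    intro b b' f hf g hg f' hf' g' hg'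
    have t1 : Tendsto (fun m => Sl n e L f g (Xt b m)) atTop (𝓝 (Sl n e L f g (Z b))) :=
      ((continuous_Sl h L f g).tendsto _).comp (hZ b)
    have t2 : Tendsto (fun m => Sl n e L f' g' (Xt b' m)) atTop
        (𝓝 (Sl n e L f' g' (Z b'))) := ((continuous_Sl h L f' g').tendsto _).comp (hZ b')
    have t3 := (t1.mul t2).sub (t2.mul t1)
    have t4 : Tendsto (fun m => Sl n e L f g (Xt b m) * Sl n e L f' g' (Xt b' m) -
        Sl n e L f' g' (Xt b' m) * Sl n e L f g (Xt b m)) atTop (𝓝 0) := by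
      refine squeeze_zero_norm (fun m => ?_) hgeo
      have hl : ∀ k ∈ idx (L.map n), k.length = L.length := fun k hk => by
        simpa using length_of_mem_idx hk
      have hm : ∀ k ∈ idx (L.map n), k ++ z0 (rest m) ∈ idx ((L ++ rest m).map n) := by
        intro k hk
        rw [List.map_append]
        exact append_mem_idx hk (z0_mem h _)
      have := hcomm b b' m (f ++ z0 (rest m)) (hm f hf) (g ++ z0 (rest m)) (hm g hg)
        (f' ++ z0 (rest m)) (hm f' hf') (g' ++ z0 (rest m)) (hm g' hg')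
      rwa [Sl_append _ _ _ _ _ _ (hl f hf) (hl g hg),
        Sl_append _ _ _ _ _ _ (hl f' hf') (hl g' hg')] at this
    exact sub_eq_zero.mp (tendsto_nhds_unique t3 t4)
  let s : Set E := {z | ∃ b, ∃ f ∈ idx (L.map n), ∃ g ∈ idx (L.map n), Sl n e L f g (Z b) = z}
  have hs : ∀ z ∈ s, ∀ w ∈ s, z * w = w * z := by
    rintro _ ⟨b, f, hf, g, hg, rfl⟩ _ ⟨b', f', hf', g', hg', rfl⟩
    exact hZc b b' f hf g hg f' hf' g' hg'
  have hss : ∀ z ∈ s, star z ∈ s := by
    rintro _ ⟨b, f, hf, g, hg, rfl⟩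
    refine ⟨b, g, hg, f, hf, ?_⟩
    rw [Sl_star h, (hZs b).star_eq]
  have hsu : s ∪ star s = s := by
    refine Set.union_eq_self_of_subset_right ?_
    intro z hz
    have := hss _ hz
    rwa [star_star] at this
  let C : StarSubalgebra ℂ E := StarSubalgebra.centralizer ℂ (StarSubalgebra.centralizer ℂ s : Set E)
  have hCc : (C : Set E) = s.centralizer.centralizer := by
    have := StarSubalgebra.coe_centralizer_centralizer ℂ s
    rw [hsu] at this
    exact this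
  have hC : IsClosed (C : Set E) := by
    rw [hCc]
    exact Set.isClosed_centralizer _
  have hCcomm : ∀ x ∈ C, ∀ y ∈ C, x * y = y * x := by
    intro x hx y hy
    have hx' : x ∈ s.centralizer.centralizer := hCc ▸ hx
    have hy' : y ∈ s.centralizer.centralizer := hCc ▸ hy
    exact Set.centralizer_centralizer_comm_of_comm hs x hx' y hy'
  have hsC : ∀ z ∈ s, z ∈ C := by
    intro z hz
    have : z ∈ (C : Set E) := by
      rw [hCc]
      exact Set.subset_centralizer_centralizer hz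
    exact this
  have hmem : ∀ b, Z b ∈ sliceAlg h L C := fun b f hf g hg => hsC _ ⟨b, f, hf, g, hg, rfl⟩
  have hUn : ∀ b, ‖U b‖ ≤ 1 := fun b => norm_le_one_of_sq (hUs b) (hU2 b)
  have hAP : ApproxPauli 1 δ (fun _ => Z true) (fun _ => Z false) := by
    refine ⟨fun _ => hZs _, fun _ => hZs _, fun _ => ?_, fun _ => ?_, fun _ => ?_,
      fun i j hij => absurd (Subsingleton.elim i j) hij,
      fun i j hij => absurd (Subsingleton.elim i j) hij,
      fun i j hij => absurd (Subsingleton.elim i j) hij⟩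
    · have := norm_prod_sub_le hc1 (hUn true) (hUn true) (hZU true) (hZU true)
      rw [hU2] at this
      linarith
    · have := norm_prod_sub_le hc1 (hUn false) (hUn false) (hZU false) (hZU false)
      rw [hU2] at this
      linarith
    · have := norm_anti_le hc1 (hUn true) (hUn false) (hZU true) (hZU false) hanti
      linarith
  have := transfer h L C hC hCcomm hδ _ _ (fun _ => hmem true) (fun _ => hmem false) hAP
  simpa using this

end Pool.Agent.Helper741.UHF
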