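import Mathlib

/-! Approximate Pauli pairs on a finite-dimensional Hilbert space. -/

open Module

universe u

namespace Pool.Agent.Helper741.UHF

section cstar

variable {A : Type*} [CStarAlgebra A]

theorem norm_le_of_sq_sub_one {X : A} (hX : IsSelfAdjoint X) {δ : ℝ} (hδ : δ ≤ 1 / 10)
    (h : ‖X * X - 1‖ ≤ δ) : ‖X‖ ≤ 11 / 10 := by
  rcases subsingleton_or_nontrivial A with hA | hA
  · rw [Subsingleton.elim X 0, norm_zero]
    norm_num
  have h1 : ‖X * X‖ ≤ 1 + δ := by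
    calc ‖X * X‖ = ‖1 + (X * X - 1)‖ := by congr 1; abel
      _ ≤ ‖(1 : A)‖ + ‖X * X - 1‖ := norm_add_le _ _
      _ ≤ 1 + δ := by
          rw [CStarRing.norm_one]
          linarith
  have h2 : ‖X * X‖ = ‖X‖ * ‖X‖ := by
    have := CStarRing.norm_star_mul_self (x := X)
    rwa [hX.star_eq] at this
  rw [h2] at h1
  nlinarith [norm_nonneg X]

theorem exists_projection {X : A} (hX : IsSelfAdjoint X) {δ : ℝ} (hδ0 : 0 ≤ δ) (hδ : δ ≤ 1 / 10)
    (h : ‖X * X - 1‖ ≤ δ) :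
    ∃ P : A, IsStarProjection P ∧ ‖P - (1 / 2 : ℝ) • (1 + X)‖ ≤ δ / 2 := by
  have hspec : ∀ t ∈ spectrum ℝ X, |t ^ 2 - 1| ≤ δ := by
    intro t ht
    have h1 : cfc (fun t : ℝ => t ^ 2 - 1) X = X * X - 1 := by
      rw [cfc_sub _ _ X, cfc_pow_id X 2, cfc_const_one ℝ X, sq]
    have h2 := norm_apply_le_norm_cfc (fun t : ℝ => t ^ 2 - 1) X ht
    rw [h1] at h2
    exact (Real.norm_eq_abs _ ▸ h2).trans h
  have hne : ∀ t ∈ spectrum ℝ X, t ≠ 0 := by
    rintro t ht rfl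
    have := hspec 0 ht
    norm_num at this
    linarith
  set f : ℝ → ℝ := fun t => if 0 < t then 1 else 0 with hf
  have hcont : ContinuousOn f (spectrum ℝ X) := by
    intro t ht
    have ht0 := hne t ht
    rcases lt_or_gt_of_ne ht0 with h0 | h0
    · have : f =ᶠ[nhds t] fun _ => 0 := by
        filter_upwards [Iio_mem_nhds h0] with s hs
        simp only [hf]
        rw [if_neg (not_lt.mpr (le_of_lt hs))]
      exact (continuousAt_const.congr this.symm).continuousWithinAt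
    · have : f =ᶠ[nhds t] fun _ => 1 := by
        filter_upwards [Ioi_mem_nhds h0] with s hs
        simp only [hf]
        rw [if_pos (Set.mem_Ioi.mp hs)]
      exact (continuousAt_const.congr this.symm).continuousWithinAt
  refine ⟨cfc f X, ⟨?_, ?_⟩, ?_⟩
  · have : cfc f X * cfc f X = cfc (fun t => f t * f t) X := (cfc_mul f f X hcont hcont).symm
    rw [IsIdempotentElem, this]
    congr 1
    funext t
    simp only [hf]
    split_ifs <;> simp
  · exact cfc_predicate f X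
  · have h1 : (1 / 2 : ℝ) • (1 + X) = cfc (fun t : ℝ => (1 / 2) * (1 + t)) X := by
      rw [cfc_const_mul (1 / 2 : ℝ) (fun t : ℝ => 1 + t) X, cfc_const_add (1 : ℝ) (fun t => t) X]
      rw [cfc_id' ℝ X]
      simp
    rw [h1, ← cfc_sub f _ X hcont]
    refine norm_cfc_le (by positivity) fun t ht => ?_
    have h2 := abs_le.mp (hspec t ht)
    have ht0 := hne t ht
    rw [Real.norm_eq_abs, abs_le]
    simp only [hf]
    split_ifs with h0
    · constructor <;> nlinarith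
    · have h0' : t < 0 := lt_of_le_of_ne (not_lt.mp h0) ht0
      constructor <;> nlinarith

theorem norm_proj_le_one {P : A} (hP : IsStarProjection P) : ‖P‖ ≤ 1 := by
  have h2 : ‖P * P‖ = ‖P‖ * ‖P‖ := by
    have := CStarRing.norm_star_mul_self (x := P)
    rwa [hP.isSelfAdjoint.star_eq] at this
  rw [hP.isIdempotentElem.eq] at h2
  by_contra hcon
  push Not at hcon
  nlinarith [norm_nonneg P]

/-- If `Y` almost anticommutes with `X`, the corners `PYP` and `(1-P)Y(1-P)` are small. -/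
theorem norm_corner_le {X Y P : A} (hP : IsStarProjection P) {δ : ℝ} (hδ0 : 0 ≤ δ)
    (hY : ‖Y‖ ≤ 11 / 10) (hXY : ‖X * Y + Y * X‖ ≤ δ)
    (hPX : ‖P - (1 / 2 : ℝ) • (1 + X)‖ ≤ δ / 2) :
    ‖P * Y * P‖ ≤ 2 * δ ∧ ‖(1 - P) * Y * (1 - P)‖ ≤ 2 * δ := by
  set R := P - (1 / 2 : ℝ) • (1 + X) with hR
  have h1 : Y * P + P * Y - Y = Y * R + R * Y + (1 / 2 : ℝ) • (X * Y + Y * X) := by
    rw [hR]
    simp only [mul_sub, sub_mul, mul_smul_comm, smul_mul_assoc, mul_add, add_mul, mul_one, one_mul,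
      smul_add]
    have : Y = (1 / 2 : ℝ) • Y + (1 / 2 : ℝ) • Y := by
      rw [← add_smul]
      norm_num
    nth_rewrite 3 [this]
    abel
  have h2 : ‖Y * P + P * Y - Y‖ ≤ 2 * δ := by
    rw [h1]
    have e1 : ‖Y * R‖ ≤ 11 / 10 * (δ / 2) :=
      (norm_mul_le _ _).trans (mul_le_mul hY hPX (norm_nonneg _) (by norm_num))
    have e2 : ‖R * Y‖ ≤ (δ / 2) * (11 / 10) :=
      (norm_mul_le _ _).trans (mul_le_mul hPX hY (norm_nonneg _) (by positivity))
    have e3 : ‖(1 / 2 : ℝ) • (X * Y + Y * X)‖ ≤ 1 / 2 * δ := by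
      rw [norm_smul]
      norm_num
      linarith
    calc _ ≤ ‖Y * R + R * Y‖ + ‖(1 / 2 : ℝ) • (X * Y + Y * X)‖ := norm_add_le _ _
      _ ≤ ‖Y * R‖ + ‖R * Y‖ + ‖(1 / 2 : ℝ) • (X * Y + Y * X)‖ := by
          gcongr
          exact norm_add_le _ _
      _ ≤ 2 * δ := by linarith
  have hPn := norm_proj_le_one hP
  have hPn' := norm_proj_le_one hP.one_sub
  have hPP := hP.isIdempotentElem.eq
  constructor
  · have : P * Y * P = P * (Y * P + P * Y - Y) * P := by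
      have : P * (Y * P + P * Y - Y) * P = P * Y * (P * P) + (P * P) * Y * P - P * Y * P := by
        noncomm_ring
      rw [this, hPP]
      abel
    rw [this]
    calc _ ≤ ‖P * (Y * P + P * Y - Y)‖ * ‖P‖ := norm_mul_le _ _
      _ ≤ (‖P‖ * ‖Y * P + P * Y - Y‖) * ‖P‖ := by gcongr; exact norm_mul_le _ _
      _ ≤ (1 * (2 * δ)) * 1 := by gcongr
      _ = 2 * δ := by ring
  · have : (1 - P) * Y * (1 - P) = -((1 - P) * (Y * P + P * Y - Y) * (1 - P)) := by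
      have : (1 - P) * (Y * P + P * Y - Y) * (1 - P) =
          (1 - P) * Y * (P - P * P) + (P - P * P) * Y * (1 - P) - (1 - P) * Y * (1 - P) := by
        noncomm_ring
      rw [this, hPP]
      noncomm_ring
    rw [this, norm_neg]
    calc _ ≤ ‖(1 - P) * (Y * P + P * Y - Y)‖ * ‖1 - P‖ := norm_mul_le _ _
      _ ≤ (‖1 - P‖ * ‖Y * P + P * Y - Y‖) * ‖1 - P‖ := by gcongr; exact norm_mul_le _ _
      _ ≤ (1 * (2 * δ)) * 1 := by gcongr
      _ = 2 * δ := by ring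

theorem norm_commutator_proj_le {X T P : A} {δ : ℝ} 
    (hT : ‖T‖ ≤ 11 / 10) (hXT : ‖X * T - T * X‖ ≤ δ)
    (hPX : ‖P - (1 / 2 : ℝ) • (1 + X)‖ ≤ δ / 2) : ‖T * P - P * T‖ ≤ 2 * δ := by
  set R := P - (1 / 2 : ℝ) • (1 + X) with hR
  have hδ0 : 0 ≤ δ := (norm_nonneg _).trans hXT
  have h1 : T * P - P * T = T * R - R * T - (1 / 2 : ℝ) • (X * T - T * X) := by
    rw [hR]
    simp only [mul_sub, sub_mul, mul_smul_comm, smul_mul_assoc, mul_add, add_mul, mul_one, one_mul,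
      smul_add, smul_sub]
    abel
  rw [h1]
  have e1 : ‖T * R‖ ≤ 11 / 10 * (δ / 2) :=
    (norm_mul_le _ _).trans (mul_le_mul hT hPX (norm_nonneg _) (by norm_num))
  have e2 : ‖R * T‖ ≤ (δ / 2) * (11 / 10) :=
    (norm_mul_le _ _).trans (mul_le_mul hPX hT (norm_nonneg _) (by positivity))
  have e3 : ‖(1 / 2 : ℝ) • (X * T - T * X)‖ ≤ 1 / 2 * δ := by
    rw [norm_smul]
    norm_num
    linarith
  calc _ ≤ ‖T * R - R * T‖ + ‖(1 / 2 : ℝ) • (X * T - T * X)‖ := norm_sub_le _ _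
    _ ≤ ‖T * R‖ + ‖R * T‖ + ‖(1 / 2 : ℝ) • (X * T - T * X)‖ := by
        gcongr
        exact norm_sub_le _ _
    _ ≤ 2 * δ := by linarith

end cstar

section hilbert

variable {H : Type u} [NormedAddCommGroup H] [InnerProductSpace ℂ H] [FiniteDimensional ℂ H]

omit [FiniteDimensional ℂ H] in
theorem lower_bound {Y : H →L[ℂ] H} {δ : ℝ} (hδ : δ ≤ 1 / 10)
    (hYn : ‖Y‖ ≤ 11 / 10) (hY : ‖Y * Y - 1‖ ≤ δ) (ξ : H) : (4 / 5) * ‖ξ‖ ≤ ‖Y ξ‖ := by
  have h1 : ‖ξ‖ ≤ ‖Y (Y ξ)‖ + δ * ‖ξ‖ := by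
    have : ξ = Y (Y ξ) - (Y * Y - 1) ξ := by simp
    calc ‖ξ‖ = ‖Y (Y ξ) - (Y * Y - 1) ξ‖ := by rw [← this]
      _ ≤ ‖Y (Y ξ)‖ + ‖(Y * Y - 1) ξ‖ := norm_sub_le _ _
      _ ≤ ‖Y (Y ξ)‖ + δ * ‖ξ‖ := by
          gcongr
          exact ((Y * Y - 1).le_opNorm ξ).trans (by gcongr)
  have h2 : ‖Y (Y ξ)‖ ≤ 11 / 10 * ‖Y ξ‖ := (Y.le_opNorm _).trans (by gcongr)
  nlinarith [norm_nonneg ξ]

theorem finrank_le_of_corner {P Y : H →L[ℂ] H} {δ : ℝ} (hδ : δ ≤ 1 / 10)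
    (hYn : ‖Y‖ ≤ 11 / 10) (hY : ‖Y * Y - 1‖ ≤ δ)
    (hc : ‖P * Y * P‖ ≤ 2 * δ) (hP : P * P = P) :
    finrank ℂ (LinearMap.range (P : H →ₗ[ℂ] H)) ≤
      finrank ℂ (LinearMap.range ((1 - P : H →L[ℂ] H) : H →ₗ[ℂ] H)) := by
  let φ : LinearMap.range (P : H →ₗ[ℂ] H) →ₗ[ℂ]
      LinearMap.range ((1 - P : H →L[ℂ] H) : H →ₗ[ℂ] H) :=
    ((((1 - P : H →L[ℂ] H) : H →ₗ[ℂ] H).rangeRestrict).comp (Y : H →ₗ[ℂ] H)).comp
      (LinearMap.range (P : H →ₗ[ℂ] H)).subtype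
  refine LinearMap.finrank_le_finrank_of_injective (f := φ) ?_
  rw [← LinearMap.ker_eq_bot, LinearMap.ker_eq_bot']
  rintro ⟨ξ, η, rfl⟩ hξ
  have h0 : (1 - P) (Y (P η)) = 0 := congrArg Subtype.val hξ
  have hPP : P (P η) = P η := by
    have := congrArg (fun T : H →L[ℂ] H => T η) hP
    simpa using this
  have h1 : Y (P η) = (P * Y * P) (P η) := by
    have h2 : Y (P η) = P (Y (P η)) := by
      simpa [sub_eq_zero] using h0
    calc Y (P η) = P (Y (P η)) := h2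
      _ = P (Y (P (P η))) := by rw [hPP]
      _ = _ := rfl
  have h3 := lower_bound hδ hYn hY (P η)
  have h4 : ‖Y (P η)‖ ≤ 2 * δ * ‖P η‖ := by
    rw [h1]
    exact ((P * Y * P).le_opNorm _).trans (by gcongr)
  have h5 : ‖P η‖ = 0 := by
    nlinarith [norm_nonneg (P η)]
  have h6 : P η = 0 := norm_eq_zero.mp h5
  ext
  exact h6

/-- An approximate Pauli pair halves the dimension. -/
theorem finrank_eq_two_mul {P X Y : H →L[ℂ] H} (hP : IsStarProjection P) {δ : ℝ} (hδ0 : 0 ≤ δ)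
    (hδ : δ ≤ 1 / 10) (hYs : IsSelfAdjoint Y) (hY : ‖Y * Y - 1‖ ≤ δ)
    (hXY : ‖X * Y + Y * X‖ ≤ δ)
    (hPX : ‖P - (1 / 2 : ℝ) • (1 + X)‖ ≤ δ / 2) :
    finrank ℂ H = 2 * finrank ℂ (LinearMap.range (P : H →ₗ[ℂ] H)) := by
  have hYn := norm_le_of_sq_sub_one hYs hδ hY
  obtain ⟨hc1, hc2⟩ := norm_corner_le hP hδ0 hYn hXY hPX
  have h1 := finrank_le_of_corner hδ hYn hY hc1 hP.isIdempotentElem.eq
  have h2 := finrank_le_of_corner hδ hYn hY hc2 hP.one_sub.isIdempotentElem.eq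
  rw [sub_sub_cancel] at h2
  have h3 : finrank ℂ (LinearMap.range ((1 - P : H →L[ℂ] H) : H →ₗ[ℂ] H)) =
      finrank ℂ (LinearMap.ker (P : H →ₗ[ℂ] H)) := by
    have : LinearMap.range ((1 - P : H →L[ℂ] H) : H →ₗ[ℂ] H) =
        LinearMap.ker (P : H →ₗ[ℂ] H) := by
      ext ξ
      simp only [LinearMap.mem_range, LinearMap.mem_ker]
      have hPP : ∀ η, P (P η) = P η := fun η => by
        have := congrArg (fun T : H →L[ℂ] H => T η) hP.isIdempotentElem.eq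
        simpa using this
      constructor
      · rintro ⟨η, rfl⟩
        simp [hPP]
      · intro h
        refine ⟨ξ, ?_⟩
        have h' : P ξ = 0 := h
        simp [h']
    rw [this]
  have h4 := LinearMap.finrank_range_add_finrank_ker (P : H →ₗ[ℂ] H)
  omega

omit [FiniteDimensional ℂ H] in
theorem tri2 {a b : H →L[ℂ] H} {p q : ℝ} (ha : ‖a‖ ≤ p) (hb : ‖b‖ ≤ q) : ‖a - b‖ ≤ p + q :=
  (norm_sub_le a b).trans (add_le_add ha hb)

omit [FiniteDimensional ℂ H] in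
theorem tri2' {a b : H →L[ℂ] H} {p q : ℝ} (ha : ‖a‖ ≤ p) (hb : ‖b‖ ≤ q) : ‖a + b‖ ≤ p + q :=
  (norm_add_le a b).trans (add_le_add ha hb)

/-- compression to a subspace -/
noncomputable def cmp (V : Submodule ℂ H) (T : H →L[ℂ] H) : V →L[ℂ] V :=
  V.orthogonalProjectionOnto ∘L T ∘L V.subtypeL

theorem cmp_apply (V : Submodule ℂ H) (T : H →L[ℂ] H) (v : V) :
    cmp V T v = V.orthogonalProjectionOnto (T v) := rfl

theorem cmp_sub (V : Submodule ℂ H) (S T : H →L[ℂ] H) : cmp V (S - T) = cmp V S - cmp V T := by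
  ext v
  simp [cmp_apply]

theorem cmp_add (V : Submodule ℂ H) (S T : H →L[ℂ] H) : cmp V (S + T) = cmp V S + cmp V T := by
  ext v
  simp [cmp_apply]

theorem cmp_one (V : Submodule ℂ H) : cmp V (1 : H →L[ℂ] H) = 1 := by
  ext v
  simp [cmp_apply]

theorem norm_cmp_le (V : Submodule ℂ H) (T : H →L[ℂ] H) : ‖cmp V T‖ ≤ ‖T‖ := by
  refine ContinuousLinearMap.opNorm_le_bound _ (norm_nonneg _) fun v => ?_
  rw [cmp_apply]
  exact (V.norm_orthogonalProjectionOnto_apply_le _).trans (T.le_opNorm _)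

theorem cmp_selfAdjoint (V : Submodule ℂ H) {T : H →L[ℂ] H} (hT : IsSelfAdjoint T) :
    IsSelfAdjoint (cmp V T) := by
  rw [ContinuousLinearMap.isSelfAdjoint_iff'] at hT ⊢
  unfold cmp
  rw [ContinuousLinearMap.adjoint_comp, ContinuousLinearMap.adjoint_comp, hT,
    Submodule.adjoint_subtypeL, Submodule.adjoint_orthogonalProjectionOnto]
  rfl

theorem norm_cmp_mul_le (V : Submodule ℂ H) (S T : H →L[ℂ] H) :
    ‖cmp V (S * T) - cmp V S * cmp V T‖ ≤ ‖S‖ * ‖T * V.starProjection - V.starProjection * T‖ := by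
  refine ContinuousLinearMap.opNorm_le_bound _ (by positivity) fun v => ?_
  have h1 : (cmp V (S * T) - cmp V S * cmp V T) v =
      V.orthogonalProjectionOnto (S ((T * V.starProjection - V.starProjection * T) v)) := by
    have hv : V.starProjection (v : H) = v := V.starProjection_mem_subspace_eq_self v
    simp only [sub_apply, mul_apply_eq_comp, cmp_apply, hv,
      map_sub]
    rfl
  rw [h1]
  calc _ ≤ ‖S ((T * V.starProjection - V.starProjection * T) v)‖ :=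
        V.norm_orthogonalProjectionOnto_apply_le _
    _ ≤ ‖S‖ * (‖T * V.starProjection - V.starProjection * T‖ * ‖(v : H)‖) :=
        (S.le_opNorm _).trans (by gcongr; exact ContinuousLinearMap.le_opNorm _ _)
    _ = _ := by rw [mul_assoc]; rfl

/-- `r` pairs of approximately anticommuting self-adjoint approximate unitaries, different pairs
approximately commuting. -/
structure ApproxPauli {A : Type*} [CStarAlgebra A] (r : ℕ) (δ : ℝ) (X Y : Fin r → A) :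
    Prop where
  saX : ∀ i, IsSelfAdjoint (X i)
  saY : ∀ i, IsSelfAdjoint (Y i)
  sqX : ∀ i, ‖X i * X i - 1‖ ≤ δ
  sqY : ∀ i, ‖Y i * Y i - 1‖ ≤ δ
  anti : ∀ i, ‖X i * Y i + Y i * X i‖ ≤ δ
  cXX : ∀ i j, i ≠ j → ‖X i * X j - X j * X i‖ ≤ δ
  cXY : ∀ i j, i ≠ j → ‖X i * Y j - Y j * X i‖ ≤ δ
  cYY : ∀ i j, i ≠ j → ‖Y i * Y j - Y j * Y i‖ ≤ δ

theorem two_pow_dvd (r : ℕ) : ∃ δ : ℝ, 0 < δ ∧ ∀ (H : Type u) [NormedAddCommGroup H]
    [InnerProductSpace ℂ H] [FiniteDimensional ℂ H] (X Y : Fin r → (H →L[ℂ] H)),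
    ApproxPauli r δ X Y → 2 ^ r ∣ finrank ℂ H := by
  induction r with
  | zero => exact ⟨1, one_pos, fun H _ _ _ X Y _ => by simp⟩
  | succ r ih =>
    obtain ⟨δ', hδ', ih⟩ := ih
    refine ⟨min (1 / 10) (δ' / 7), by positivity, ?_⟩
    intro H _ _ _ X Y h
    set δ := min (1 / 10) (δ' / 7) with hδdef
    have hδ0 : 0 < δ := by positivity
    have hδ1 : δ ≤ 1 / 10 := min_le_left _ _
    have hδ7 : 7 * δ ≤ δ' := by
      have := min_le_right (1 / 10 : ℝ) (δ' / 7)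
      rw [← hδdef] at this
      linarith
    obtain ⟨P, hP, hPX⟩ := exists_projection (h.saX 0) hδ0.le hδ1 (h.sqX 0)
    have hrank := finrank_eq_two_mul hP hδ0.le hδ1 (h.saY 0) (h.sqY 0) (h.anti 0) hPX
    set V : Submodule ℂ H := LinearMap.range (P : H →ₗ[ℂ] H) with hV
    have hPV : P = V.starProjection := by
      obtain ⟨_, h2⟩ := isStarProjection_iff_eq_starProjection_range.mp hP
      exact h2
    have hXn : ∀ i, ‖X i‖ ≤ 11 / 10 := fun i => norm_le_of_sq_sub_one (h.saX i) hδ1 (h.sqX i)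
    have hYn : ∀ i, ‖Y i‖ ≤ 11 / 10 := fun i => norm_le_of_sq_sub_one (h.saY i) hδ1 (h.sqY i)
    have key : ∀ S T : H →L[ℂ] H, ‖S‖ ≤ 11 / 10 → ‖T‖ ≤ 11 / 10 → ‖X 0 * T - T * X 0‖ ≤ δ →
        ‖cmp V (S * T) - cmp V S * cmp V T‖ ≤ 3 * δ := by
      intro S T hS hT hXT
      refine (norm_cmp_mul_le V S T).trans ?_
      rw [← hPV]
      have := norm_commutator_proj_le hT hXT hPX
      calc ‖S‖ * ‖T * P - P * T‖ ≤ (11 / 10) * (2 * δ) := by gcongr
        _ ≤ 3 * δ := by linarith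
    have sqb : ∀ S : H →L[ℂ] H, ‖S‖ ≤ 11 / 10 → ‖X 0 * S - S * X 0‖ ≤ δ → ‖S * S - 1‖ ≤ δ →
        ‖cmp V S * cmp V S - 1‖ ≤ δ' := by
      intro S hS hXS hSS
      have h1 := key S S hS hS hXS
      have h2 := (norm_cmp_le V (S * S - 1)).trans hSS
      rw [cmp_sub, cmp_one] at h2
      calc ‖cmp V S * cmp V S - 1‖
          = ‖(cmp V (S * S) - 1) - (cmp V (S * S) - cmp V S * cmp V S)‖ := by congr 1; abel
        _ ≤ δ + 3 * δ := tri2 h2 h1
        _ ≤ δ' := by linarith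
    have comb : ∀ S T : H →L[ℂ] H, ‖S‖ ≤ 11 / 10 → ‖T‖ ≤ 11 / 10 → ‖X 0 * T - T * X 0‖ ≤ δ →
        ‖X 0 * S - S * X 0‖ ≤ δ → ‖S * T - T * S‖ ≤ δ →
        ‖cmp V S * cmp V T - cmp V T * cmp V S‖ ≤ δ' := by
      intro S T hS hT hXT hXS hST
      have h1 := key S T hS hT hXT
      have h1' := key T S hT hS hXS
      have h2 := (norm_cmp_le V (S * T - T * S)).trans hST
      rw [cmp_sub] at h2
      calc ‖cmp V S * cmp V T - cmp V T * cmp V S‖
          = ‖(cmp V (S * T) - cmp V (T * S)) - (cmp V (S * T) - cmp V S * cmp V T) +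
              (cmp V (T * S) - cmp V T * cmp V S)‖ := by congr 1; abel
        _ ≤ δ + 3 * δ + 3 * δ := tri2' (tri2 h2 h1) h1'
        _ ≤ δ' := by linarith
    have antib : ∀ S T : H →L[ℂ] H, ‖S‖ ≤ 11 / 10 → ‖T‖ ≤ 11 / 10 → ‖X 0 * T - T * X 0‖ ≤ δ →
        ‖X 0 * S - S * X 0‖ ≤ δ → ‖S * T + T * S‖ ≤ δ →
        ‖cmp V S * cmp V T + cmp V T * cmp V S‖ ≤ δ' := by
      intro S T hS hT hXT hXS hST
      have h1 := key S T hS hT hXT
      have h1' := key T S hT hS hXS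
      have h2 := (norm_cmp_le V (S * T + T * S)).trans hST
      rw [cmp_add] at h2
      calc ‖cmp V S * cmp V T + cmp V T * cmp V S‖
          = ‖(cmp V (S * T) + cmp V (T * S)) - (cmp V (S * T) - cmp V S * cmp V T) -
              (cmp V (T * S) - cmp V T * cmp V S)‖ := by congr 1; abel
        _ ≤ δ + 3 * δ + 3 * δ := tri2 (tri2 h2 h1) h1'
        _ ≤ δ' := by linarith
    have hX0 : ∀ i : Fin r, ‖X 0 * X i.succ - X i.succ * X 0‖ ≤ δ := fun i =>
      h.cXX 0 i.succ (Fin.succ_ne_zero i).symm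
    have hY0 : ∀ i : Fin r, ‖X 0 * Y i.succ - Y i.succ * X 0‖ ≤ δ := fun i =>
      h.cXY 0 i.succ (Fin.succ_ne_zero i).symm
    have hA : ApproxPauli r δ' (fun i => cmp V (X i.succ)) (fun i => cmp V (Y i.succ)) := by
      refine ⟨fun i => cmp_selfAdjoint V (h.saX _), fun i => cmp_selfAdjoint V (h.saY _),
        fun i => sqb _ (hXn _) (hX0 i) (h.sqX _), fun i => sqb _ (hYn _) (hY0 i) (h.sqY _),
        fun i => antib _ _ (hXn _) (hYn _) (hY0 i) (hX0 i) (h.anti _),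
        fun i j hij => comb _ _ (hXn _) (hXn _) (hX0 j) (hX0 i) (h.cXX _ _ ?_),
        fun i j hij => comb _ _ (hXn _) (hYn _) (hY0 j) (hX0 i) (h.cXY _ _ ?_),
        fun i j hij => comb _ _ (hYn _) (hYn _) (hY0 j) (hY0 i) (h.cYY _ _ ?_)⟩ <;>
      exact fun h => hij (Fin.succ_injective _ h)
    have := ih V _ _ hA
    rw [hrank, pow_succ, mul_comm]
    exact Nat.mul_dvd_mul_left 2 this

end hilbert

end Pool.Agent.Helper741.UHF
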