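import Pool.Agent.Helper741.UHF.Slices
import Pool.Agent.Helper741.UHF.Numeric

/-! Characters on commuting sets and the induced finite-dimensional representations. -/

open Finset

universe u

namespace Pool.Agent.Helper741.UHF

variable {J : Type*} {E : Type*} [CStarAlgebra E]

theorem exists_character [Nontrivial E] (C : StarSubalgebra ℂ E) (hC : IsClosed (C : Set E))
    (hcomm : ∀ x ∈ C, ∀ y ∈ C, x * y = y * x) : Nonempty (C →⋆ₐ[ℂ] ℂ) := by
  let i1 : CStarAlgebra C := StarSubalgebra.cstarAlgebra C (h_closed := hC)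
  let i2 : CommCStarAlgebra C :=
    { i1 with mul_comm := fun x y => Subtype.ext (hcomm x x.2 y y.2) }
  have : Nontrivial C := inferInstance
  obtain ⟨χ⟩ : Nonempty (WeakDual.characterSpace ℂ C) := inferInstance
  exact ⟨{ toFun := fun z => χ z
           map_one' := map_one χ
           map_mul' := map_mul χ
           map_zero' := map_zero χ
           map_add' := map_add χ
           commutes' := fun r => AlgHomClass.commutes χ r
           map_star' := fun z => map_star χ z }⟩

variable {n : J → ℕ} {e : J → ℕ → ℕ → E}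

theorem continuous_Sl (h : MUSys n e) (ℓ : List J) (f g : List ℕ) :
    Continuous (Sl n e ℓ f g) := by
  open scoped CStarAlgebra in
  let := CStarAlgebra.spectralOrder E
  let := CStarAlgebra.spectralOrderedRing E
  exact AddMonoidHomClass.continuous_of_bound (Sl n e ℓ f g) 1
    fun z => by simpa using norm_Sl_le h ℓ f g z

/-- elements whose slices are in `C` -/
def sliceAlg (h : MUSys n e) (ℓ : List J) (C : StarSubalgebra ℂ E) : StarSubalgebra ℂ E where
  carrier := {z | ∀ f ∈ idx (ℓ.map n), ∀ g ∈ idx (ℓ.map n), Sl n e ℓ f g z ∈ C}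
  mul_mem' := by
    intro z w hz hw f hf g hg
    rw [Sl_mul h]
    exact sum_mem fun k hk => mul_mem (hz f hf k hk) (hw k hk g hg)
  add_mem' := by
    intro z w hz hw f hf g hg
    rw [map_add]
    exact add_mem (hz f hf g hg) (hw f hf g hg)
  algebraMap_mem' := by
    intro r f hf g hg
    rw [Sl_of_commute h ℓ f g hf hg _ fun _ _ _ _ => (Algebra.commutes _ _).symm]
    split_ifs
    · exact algebraMap_mem _ _
    · exact zero_mem _
  star_mem' := by
    intro z hz f hf g hg
    rw [← Sl_star h]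
    exact star_mem (hz g hg f hf)

theorem isClosed_sliceAlg (h : MUSys n e) (ℓ : List J) (C : StarSubalgebra ℂ E)
    (hC : IsClosed (C : Set E)) : IsClosed (sliceAlg h ℓ C : Set E) := by
  have : (sliceAlg h ℓ C : Set E) = ⋂ f ∈ idx (ℓ.map n), ⋂ g ∈ idx (ℓ.map n),
      (Sl n e ℓ f g) ⁻¹' (C : Set E) := by
    ext z
    simp only [Set.mem_iInter, Set.mem_preimage, SetLike.mem_coe]
    rfl
  rw [this]
  exact isClosed_iInter fun f => isClosed_iInter fun _ => isClosed_iInter fun g =>
    isClosed_iInter fun _ => hC.preimage (continuous_Sl h ℓ f g)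

/-- the matrix of a sliceable element under a character -/
noncomputable def matRep (h : MUSys n e) (ℓ : List J) (C : StarSubalgebra ℂ E)
    (χ : C →⋆ₐ[ℂ] ℂ) : sliceAlg h ℓ C →⋆ₐ[ℂ]
      Matrix {f // f ∈ idx (ℓ.map n)} {f // f ∈ idx (ℓ.map n)} ℂ where
  toFun z := Matrix.of fun f g => χ ⟨Sl n e ℓ f.1 g.1 z.1, z.2 f.1 f.2 g.1 g.2⟩
  map_one' := by
    ext f g
    have h1 := Sl_one h ℓ f.1 g.1 f.2 g.2
    simp only [Matrix.of_apply]
    rw [Matrix.one_apply]
    by_cases hfg : f = g
    · rw [if_pos hfg]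
      rw [if_pos (congrArg Subtype.val hfg)] at h1
      rw [← map_one χ]
      congr 1
      exact Subtype.ext h1
    · rw [if_neg hfg]
      rw [if_neg (fun h => hfg (Subtype.ext h))] at h1
      rw [← map_zero χ]
      congr 1
      exact Subtype.ext h1
  map_mul' := by
    intro z w
    ext f g
    simp only [Matrix.of_apply, Matrix.mul_apply]
    simp only [← map_mul, ← map_sum]
    congr 1
    apply Subtype.ext
    simp only [MulMemClass.coe_mul]
    rw [Sl_mul h, ← Finset.sum_coe_sort]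
    simp
  map_zero' := by
    ext f g
    simp only [Matrix.of_apply, Matrix.zero_apply]
    rw [← map_zero χ]
    congr 1
    apply Subtype.ext
    simp
  map_add' := by
    intro z w
    ext f g
    simp only [Matrix.of_apply, Matrix.add_apply]
    rw [← map_add]
    congr 1
    apply Subtype.ext
    simp
  commutes' := by
    intro r
    ext f g
    have h1 := Sl_of_commute h ℓ f.1 g.1 f.2 g.2 (algebraMap ℂ E r)
      fun _ _ _ _ => (Algebra.commutes _ _).symm
    simp only [Matrix.of_apply]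
    rw [Matrix.algebraMap_matrix_apply]
    by_cases hfg : f = g
    · rw [if_pos hfg]
      rw [if_pos (congrArg Subtype.val hfg)] at h1
      have : algebraMap ℂ ℂ r = χ (algebraMap ℂ C r) := (AlgHomClass.commutes χ r).symm
      rw [this]
      congr 1
      exact Subtype.ext h1
    · rw [if_neg hfg]
      rw [if_neg (fun h => hfg (Subtype.ext h))] at h1
      rw [← map_zero χ]
      congr 1
      exact Subtype.ext h1
  map_star' := by
    intro z
    ext f g
    simp only [Matrix.of_apply, Matrix.star_apply]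
    rw [← map_star]
    congr 1
    apply Subtype.ext
    exact (Sl_star h ℓ g.1 f.1 z.1).symm

/-- the operator of a sliceable element under a character -/
noncomputable def opRep (h : MUSys n e) (ℓ : List J) (C : StarSubalgebra ℂ E)
    (χ : C →⋆ₐ[ℂ] ℂ) : sliceAlg h ℓ C →⋆ₐ[ℂ]
      (EuclideanSpace ℂ {f // f ∈ idx (ℓ.map n)} →L[ℂ] EuclideanSpace ℂ {f // f ∈ idx (ℓ.map n)}) :=
  (Matrix.toEuclideanCLM (n := {f // f ∈ idx (ℓ.map n)}) (𝕜 := ℂ) : _ →⋆ₐ[ℂ] _).comp
    (matRep h ℓ C χ)

theorem norm_opRep_le (h : MUSys n e) (ℓ : List J) (C : StarSubalgebra ℂ E)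
    (hC : IsClosed (C : Set E)) (χ : C →⋆ₐ[ℂ] ℂ) (z : sliceAlg h ℓ C) :
    ‖opRep h ℓ C χ z‖ ≤ ‖(z : E)‖ := by
  let i1 : CStarAlgebra (sliceAlg h ℓ C) :=
    StarSubalgebra.cstarAlgebra _ (h_closed := isClosed_sliceAlg h ℓ C hC)
  exact NonUnitalStarAlgHom.norm_apply_le (opRep h ℓ C χ) z

theorem transfer [Nontrivial E] (h : MUSys n e) (ℓ : List J) (C : StarSubalgebra ℂ E)
    (hC : IsClosed (C : Set E)) (hcomm : ∀ x ∈ C, ∀ y ∈ C, x * y = y * x) {r : ℕ} {δ : ℝ}
    (hδ : ∀ (H : Type) [NormedAddCommGroup H] [InnerProductSpace ℂ H] [FiniteDimensional ℂ H]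
      (X Y : Fin r → (H →L[ℂ] H)), ApproxPauli r δ X Y → 2 ^ r ∣ Module.finrank ℂ H)
    (x y : Fin r → E) (hx : ∀ i, x i ∈ sliceAlg h ℓ C) (hy : ∀ i, y i ∈ sliceAlg h ℓ C)
    (hA : ApproxPauli r δ x y) : 2 ^ r ∣ (ℓ.map n).prod := by
  obtain ⟨χ⟩ := exists_character C hC hcomm
  have hn := norm_opRep_le h ℓ C hC χ
  let X : Fin r → sliceAlg h ℓ C := fun i => ⟨x i, hx i⟩
  let Y : Fin r → sliceAlg h ℓ C := fun i => ⟨y i, hy i⟩
  have key : ∀ z : sliceAlg h ℓ C, ‖(z : E)‖ ≤ δ → ‖opRep h ℓ C χ z‖ ≤ δ :=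
    fun z hz => (hn z).trans hz
  have hAP : ApproxPauli r δ (fun i => opRep h ℓ C χ (X i)) (fun i => opRep h ℓ C χ (Y i)) := by
    refine ⟨fun i => ?_, fun i => ?_, fun i => ?_, fun i => ?_, fun i => ?_, fun i j hij => ?_,
      fun i j hij => ?_, fun i j hij => ?_⟩
    · exact IsSelfAdjoint.map (show IsSelfAdjoint (X i) from Subtype.ext (hA.saX i))
        (opRep h ℓ C χ)
    · exact IsSelfAdjoint.map (show IsSelfAdjoint (Y i) from Subtype.ext (hA.saY i))
        (opRep h ℓ C χ)
    · rw [← map_mul, ← map_one (opRep h ℓ C χ), ← map_sub]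
      exact key _ (hA.sqX i)
    · rw [← map_mul, ← map_one (opRep h ℓ C χ), ← map_sub]
      exact key _ (hA.sqY i)
    · rw [← map_mul, ← map_mul, ← map_add]
      exact key _ (hA.anti i)
    · rw [← map_mul, ← map_mul, ← map_sub]
      exact key _ (hA.cXX i j hij)
    · rw [← map_mul, ← map_mul, ← map_sub]
      exact key _ (hA.cXY i j hij)
    · rw [← map_mul, ← map_mul, ← map_sub]
      exact key _ (hA.cYY i j hij)
  have := hδ _ _ _ hAP
  rwa [finrank_euclideanSpace, Fintype.card_coe, card_idx] at this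

end Pool.Agent.Helper741.UHF
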