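import Mathlib

/-!
Matrix unit systems in a unital C*-algebra and their slice maps.
-/

open Finset

namespace Pool.Agent.Helper741.UHF

variable {J : Type*} {E : Type*} [CStarAlgebra E]

/-- A commuting family of systems of matrix units; the indices are natural numbers, and a matrix
unit with an index out of range is zero. -/
structure MUSys (n : J → ℕ) (e : J → ℕ → ℕ → E) : Prop where
  pos : ∀ j, 0 < n j
  zero_left : ∀ j a b, n j ≤ a → e j a b = 0
  mul_same : ∀ j a b c, b < n j → e j a b * e j b c = e j a c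
  mul_ne : ∀ j a b c d, b ≠ c → e j a b * e j c d = 0
  star_e : ∀ j a b, star (e j a b) = e j b a
  one : ∀ j, ∑ a ∈ range (n j), e j a a = 1
  comm : ∀ i j, i ≠ j → ∀ a b c d, Commute (e i a b) (e j c d)

variable {n : J → ℕ} {e : J → ℕ → ℕ → E}

theorem MUSys.zero_right (h : MUSys n e) (j : J) (a b : ℕ) (hb : n j ≤ b) : e j a b = 0 := by
  rw [← star_star (e j a b), h.star_e, h.zero_left j b a hb, star_zero]

/-- The slice map `z ↦ ∑_h e_{ha} z e_{bh}`. -/
noncomputable def slice (n : J → ℕ) (e : J → ℕ → ℕ → E) (j : J) (a b : ℕ) : E →ₗ[ℂ] E :=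
  ∑ h ∈ range (n j), LinearMap.mulLeftRight ℂ (e j h a, e j b h)

theorem slice_apply (j : J) (a b : ℕ) (z : E) :
    slice n e j a b z = ∑ h ∈ range (n j), e j h a * z * e j b h := by
  simp [slice, LinearMap.sum_apply]

theorem slice_star (h : MUSys n e) (j : J) (a b : ℕ) (z : E) :
    star (slice n e j a b z) = slice n e j b a (star z) := by
  simp only [slice_apply, star_sum, star_mul, h.star_e, mul_assoc]

theorem slice_mul_right (j : J) (a b : ℕ) (z w : E)
    (hw : ∀ c d, Commute (e j c d) w) : slice n e j a b (z * w) = slice n e j a b z * w := by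
  simp only [slice_apply, Finset.sum_mul]
  refine Finset.sum_congr rfl fun k _ => ?_
  rw [mul_assoc, mul_assoc, mul_assoc, mul_assoc, ← (hw b k).eq]

theorem slice_mul_left (j : J) (a b : ℕ) (z w : E)
    (hw : ∀ c d, Commute (e j c d) w) : slice n e j a b (w * z) = w * slice n e j a b z := by
  simp only [slice_apply, Finset.mul_sum]
  refine Finset.sum_congr rfl fun k _ => ?_
  rw [← mul_assoc, (hw k a).eq, mul_assoc, mul_assoc, mul_assoc]

theorem slice_one (h : MUSys n e) (j : J) (a b : ℕ) (ha : a < n j) :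
    slice n e j a b 1 = if a = b then 1 else 0 := by
  simp only [slice_apply, mul_one]
  split_ifs with hab
  · subst hab
    rw [← h.one j]
    exact Finset.sum_congr rfl fun k _ => h.mul_same j k a k ha
  · exact Finset.sum_eq_zero fun k _ => h.mul_ne j k a b k hab

theorem slice_of_commute (h : MUSys n e) (j : J) (a b : ℕ) (ha : a < n j) (w : E)
    (hw : ∀ c d, Commute (e j c d) w) : slice n e j a b w = if a = b then w else 0 := by
  have := slice_mul_right (n := n) j a b 1 w hw
  rw [one_mul, slice_one h j a b ha] at this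
  rw [this]
  split_ifs <;> simp

theorem e_mul_slice (h : MUSys n e) (j : J) (a b c d : ℕ) (z : E) (hd : d < n j) :
    e j c d * slice n e j a b z = e j c a * z * e j b d := by
  rw [slice_apply, Finset.mul_sum, Finset.sum_eq_single d]
  · rw [← mul_assoc, ← mul_assoc, h.mul_same j c d a hd]
  · intro k _ hk
    rw [← mul_assoc, ← mul_assoc, h.mul_ne j c d k a (Ne.symm hk), zero_mul, zero_mul]
  · intro hd'
    exact absurd (Finset.mem_range.mpr hd) hd'

theorem slice_mul_e (h : MUSys n e) (j : J) (a b c d : ℕ) (z : E) (hc : c < n j) :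
    slice n e j a b z * e j c d = e j c a * z * e j b d := by
  rw [slice_apply, Finset.sum_mul, Finset.sum_eq_single c]
  · rw [mul_assoc (e j c a * z), h.mul_same j b c d hc]
  · intro k _ hk
    rw [mul_assoc (e j k a * z), h.mul_ne j b k c d hk, mul_zero]
  · intro hd'
    exact absurd (Finset.mem_range.mpr hc) hd'

theorem commute_slice_self (h : MUSys n e) (j : J) (a b c d : ℕ) (z : E) :
    Commute (e j c d) (slice n e j a b z) := by
  rcases lt_or_ge c (n j) with hc | hc
  · rcases lt_or_ge d (n j) with hd | hd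
    · rw [Commute, SemiconjBy, e_mul_slice h j a b c d z hd, slice_mul_e h j a b c d z hc]
    · rw [h.zero_right j c d hd]
      exact Commute.zero_left _
  · rw [h.zero_left j c d hc]
    exact Commute.zero_left _

theorem commute_slice (j : J) (a b : ℕ) (z w : E)
    (hz : Commute w z) (hw : ∀ c d, Commute w (e j c d)) : Commute w (slice n e j a b z) := by
  rw [slice_apply]
  refine Commute.sum_right _ _ _ fun k _ => ?_
  exact ((hw k a).mul_right hz).mul_right (hw b k)

theorem slice_mul (h : MUSys n e) (j : J) (a b : ℕ) (z w : E) :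
    slice n e j a b (z * w) =
      ∑ k ∈ range (n j), slice n e j a k z * slice n e j k b w := by
  have h1 : ∀ k ∈ range (n j), slice n e j a k z * slice n e j k b w =
      ∑ l ∈ range (n j), e j l a * (z * e j k k * w) * e j b l := by
    intro k hk
    rw [slice_apply (z := w), Finset.mul_sum]
    refine Finset.sum_congr rfl fun l hl => ?_
    have := slice_mul_e h j a k l k z (Finset.mem_range.mp hl)
    calc slice n e j a k z * (e j l k * w * e j b l)
        = (slice n e j a k z * e j l k) * w * e j b l := by noncomm_ring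
      _ = (e j l a * z * e j k k) * w * e j b l := by rw [this]
      _ = _ := by noncomm_ring
  rw [Finset.sum_congr rfl h1, Finset.sum_comm, slice_apply]
  refine Finset.sum_congr rfl fun l _ => ?_
  rw [← Finset.sum_mul, ← Finset.mul_sum, ← Finset.sum_mul, ← Finset.mul_sum, h.one j, mul_one]

/-- reconstruction from the slices -/
theorem sum_e_mul_slice (h : MUSys n e) (j : J) (z : E) :
    ∑ a ∈ range (n j), ∑ b ∈ range (n j), e j a b * slice n e j a b z = z := by
  have h1 : ∀ a ∈ range (n j), ∑ b ∈ range (n j), e j a b * slice n e j a b z = e j a a * z := by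
    intro a _
    have : ∀ b ∈ range (n j), e j a b * slice n e j a b z = e j a a * z * e j b b := by
      intro b hb
      exact e_mul_slice h j a b a b z (Finset.mem_range.mp hb)
    rw [Finset.sum_congr rfl this, ← Finset.mul_sum, h.one j, mul_one]
  rw [Finset.sum_congr rfl h1, ← Finset.sum_mul, h.one j, one_mul]

theorem slice_injective (h : MUSys n e) (j : J) (z : E)
    (hz : ∀ a < n j, ∀ b < n j, slice n e j a b z = 0) : z = 0 := by
  rw [← sum_e_mul_slice h j z]
  refine Finset.sum_eq_zero fun a ha => Finset.sum_eq_zero fun b hb => ?_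
  rw [hz a (Finset.mem_range.mp ha) b (Finset.mem_range.mp hb), mul_zero]

theorem slice_e_self (h : MUSys n e) (j : J) (a b c d : ℕ) (ha : a < n j) (hb : b < n j)
    (hc : c < n j) (hd : d < n j) :
    slice n e j a b (e j c d) = if a = c ∧ b = d then 1 else 0 := by
  rw [slice_apply]
  split_ifs with hh
  · obtain ⟨rfl, rfl⟩ := hh
    rw [← h.one j]
    refine Finset.sum_congr rfl fun k _ => ?_
    rw [h.mul_same j k a b ha, h.mul_same j k b k hb]
  · refine Finset.sum_eq_zero fun k _ => ?_
    rw [not_and_or] at hh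
    rcases hh with hh | hh
    · rw [h.mul_ne j k a c d hh, zero_mul]
    · rw [mul_assoc, h.mul_ne j c d b k (Ne.symm hh), mul_zero]

section order

open scoped CStarAlgebra

theorem norm_slice_le [PartialOrder E] [StarOrderedRing E] (h : MUSys n e) (j : J) (a b : ℕ) (z : E) :
    ‖slice n e j a b z‖ ≤ ‖z‖ := by
  rcases lt_or_ge b (n j) with hb | hb
  swap
  · have : slice n e j a b z = 0 := by
      rw [slice_apply]
      exact Finset.sum_eq_zero fun k _ => by rw [h.zero_left j b k hb, mul_zero]
    rw [this, norm_zero]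
    exact norm_nonneg _
  rcases lt_or_ge a (n j) with ha | ha
  swap
  · have : slice n e j a b z = 0 := by
      rw [slice_apply]
      exact Finset.sum_eq_zero fun k _ => by rw [h.zero_right j k a ha, zero_mul, zero_mul]
    rw [this, norm_zero]
    exact norm_nonneg _
  have hpos : ∀ c < n j, 0 ≤ e j c c := by
    intro c hc
    have : e j c c = star (e j c c) * e j c c := by
      rw [h.star_e, h.mul_same j c c c hc]
    rw [this]
    exact star_mul_self_nonneg _
  have hle1 : e j a a ≤ 1 := by
    rw [← h.one j]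
    exact Finset.single_le_sum (f := fun a => e j a a)
      (fun c hc => hpos c (Finset.mem_range.mp hc)) (Finset.mem_range.mpr ha)
  have hz2 : star z * z ≤ algebraMap ℝ E (‖z‖ ^ 2) := by
    have := IsSelfAdjoint.le_algebraMap_norm_self (a := star z * z)
      (IsSelfAdjoint.star_mul_self z)
    rwa [CStarRing.norm_star_mul_self, ← sq] at this
  have hz3 : star z * e j a a * z ≤ algebraMap ℝ E (‖z‖ ^ 2) := by
    refine le_trans ?_ hz2
    have := star_left_conjugate_le_conjugate hle1 z
    rwa [mul_one] at this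
  set w := slice n e j a b z with hw
  have h1 : star w * w = ∑ k ∈ range (n j), star (e j b k) * (star z * e j a a * z) * e j b k := by
    rw [hw, slice_star h, slice_apply j b a (star z), Finset.sum_mul]
    refine Finset.sum_congr rfl fun k hk => ?_
    rw [mul_assoc, e_mul_slice h j a b a k z (Finset.mem_range.mp hk), h.star_e]
    noncomm_ring
  have h2 : star w * w ≤ algebraMap ℝ E (‖z‖ ^ 2) := by
    rw [h1]
    calc ∑ k ∈ range (n j), star (e j b k) * (star z * e j a a * z) * e j b k
        ≤ ∑ k ∈ range (n j), star (e j b k) * (algebraMap ℝ E (‖z‖ ^ 2)) * e j b k :=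
          Finset.sum_le_sum fun k _ => star_left_conjugate_le_conjugate hz3 _
      _ = ∑ k ∈ range (n j), algebraMap ℝ E (‖z‖ ^ 2) * e j k k := by
          refine Finset.sum_congr rfl fun k _ => ?_
          rw [← Algebra.commutes, mul_assoc, h.star_e, h.mul_same j k b k hb]
      _ = algebraMap ℝ E (‖z‖ ^ 2) := by
          rw [← Finset.mul_sum, h.one j, mul_one]
  have h3 : ‖star w * w‖ ≤ ‖z‖ ^ 2 :=
    (CStarAlgebra.norm_le_iff_le_algebraMap (star w * w) (by positivity)
      (star_mul_self_nonneg w)).mpr h2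
  rw [CStarRing.norm_star_mul_self, ← sq] at h3
  exact le_of_sq_le_sq h3 (norm_nonneg _)

end order

/-! ### Multi-indices and iterated slices -/

/-- The multi-indices of a given shape. -/
def idx : List ℕ → Finset (List ℕ)
  | [] => {[]}
  | k :: ν => (range k ×ˢ idx ν).map
      ⟨fun p => p.1 :: p.2, fun p q hpq => by
        have := List.cons_eq_cons.mp hpq
        exact Prod.ext this.1 this.2⟩

@[simp] theorem mem_idx_nil (f : List ℕ) : f ∈ idx [] ↔ f = [] := by simp [idx]

@[simp] theorem mem_idx_cons (k : ℕ) (ν : List ℕ) (f : List ℕ) :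
    f ∈ idx (k :: ν) ↔ ∃ a < k, ∃ g ∈ idx ν, f = a :: g := by
  simp only [idx, mem_map, mem_product, mem_range, Prod.exists]
  constructor
  · rintro ⟨a, g, ⟨ha, hg⟩, rfl⟩
    exact ⟨a, ha, g, hg, rfl⟩
  · rintro ⟨a, ha, g, hg, rfl⟩
    exact ⟨a, g, ⟨ha, hg⟩, rfl⟩

theorem sum_idx_cons {M : Type*} [AddCommMonoid M] (k : ℕ) (ν : List ℕ) (F : List ℕ → M) :
    ∑ f ∈ idx (k :: ν), F f = ∑ a ∈ range k, ∑ g ∈ idx ν, F (a :: g) := by
  simp only [idx, Finset.sum_map, Finset.sum_product]
  rfl

theorem card_idx (ν : List ℕ) : (idx ν).card = ν.prod := by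
  induction ν with
  | nil => simp [idx]
  | cons k ν ih => simp [idx, ih]

theorem length_of_mem_idx {ν f : List ℕ} (hf : f ∈ idx ν) : f.length = ν.length := by
  induction ν generalizing f with
  | nil => simp_all
  | cons k ν ih =>
    obtain ⟨a, _, g, hg, rfl⟩ := (mem_idx_cons k ν f).mp hf
    simp [ih hg]

theorem append_mem_idx {ν μ f g : List ℕ} (hf : f ∈ idx ν) (hg : g ∈ idx μ) :
    f ++ g ∈ idx (ν ++ μ) := by
  induction ν generalizing f with
  | nil => simp_all
  | cons k ν ih =>
    obtain ⟨a, ha, f', hf', rfl⟩ := (mem_idx_cons k ν f).mp hf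
    simp only [List.cons_append, mem_idx_cons]
    exact ⟨a, ha, _, ih hf', rfl⟩

/-- Iterated slices along a list of sites. -/
noncomputable def Sl (n : J → ℕ) (e : J → ℕ → ℕ → E) : List J → List ℕ → List ℕ → (E →ₗ[ℂ] E)
  | [], _, _ => LinearMap.id
  | j :: ℓ, f, g => (slice n e j (f.headD 0) (g.headD 0)).comp (Sl n e ℓ f.tail g.tail)

@[simp] theorem Sl_nil (f g : List ℕ) (z : E) : Sl n e [] f g z = z := rfl

@[simp] theorem Sl_cons (j : J) (ℓ : List J) (f g : List ℕ) (z : E) :
    Sl n e (j :: ℓ) f g z = slice n e j (f.headD 0) (g.headD 0) (Sl n e ℓ f.tail g.tail z) := rfl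

theorem Sl_append (ℓ₁ ℓ₂ : List J) (f₁ g₁ f₂ g₂ : List ℕ) (hf : f₁.length = ℓ₁.length)
    (hg : g₁.length = ℓ₁.length) (z : E) :
    Sl n e (ℓ₁ ++ ℓ₂) (f₁ ++ f₂) (g₁ ++ g₂) z = Sl n e ℓ₁ f₁ g₁ (Sl n e ℓ₂ f₂ g₂ z) := by
  induction ℓ₁ generalizing f₁ g₁ with
  | nil =>
    simp only [List.length_nil, List.length_eq_zero_iff] at hf hg
    subst hf hg
    simp
  | cons j ℓ₁ ih =>
    obtain ⟨a, f₁, rfl⟩ := List.exists_cons_of_length_eq_add_one hf
    obtain ⟨b, g₁, rfl⟩ := List.exists_cons_of_length_eq_add_one hg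
    simp only [List.length_cons, add_left_inj] at hf hg
    simp [ih f₁ g₁ hf hg]

theorem norm_Sl_le [PartialOrder E] [StarOrderedRing E] (h : MUSys n e) (ℓ : List J)
    (f g : List ℕ) (z : E) : ‖Sl n e ℓ f g z‖ ≤ ‖z‖ := by
  induction ℓ generalizing f g with
  | nil => simp
  | cons j ℓ ih => exact (norm_slice_le h j _ _ _).trans (ih _ _)

theorem Sl_star (h : MUSys n e) (ℓ : List J) (f g : List ℕ) (z : E) :
    star (Sl n e ℓ f g z) = Sl n e ℓ g f (star z) := by
  induction ℓ generalizing f g with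
  | nil => simp
  | cons j ℓ ih => simp only [Sl_cons, slice_star h, ih]

theorem Sl_mul_right (ℓ : List J) (f g : List ℕ) (z w : E)
    (hw : ∀ j ∈ ℓ, ∀ c d, Commute (e j c d) w) : Sl n e ℓ f g (z * w) = Sl n e ℓ f g z * w := by
  induction ℓ generalizing f g with
  | nil => simp
  | cons j ℓ ih =>
    rw [Sl_cons, ih _ _ (fun i hi => hw i (List.mem_cons_of_mem _ hi)),
      slice_mul_right j _ _ _ _ (hw j List.mem_cons_self), Sl_cons]

theorem Sl_mul_left (ℓ : List J) (f g : List ℕ) (z w : E)
    (hw : ∀ j ∈ ℓ, ∀ c d, Commute (e j c d) w) : Sl n e ℓ f g (w * z) = w * Sl n e ℓ f g z := by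
  induction ℓ generalizing f g with
  | nil => simp
  | cons j ℓ ih =>
    rw [Sl_cons, ih _ _ (fun i hi => hw i (List.mem_cons_of_mem _ hi)),
      slice_mul_left j _ _ _ _ (hw j List.mem_cons_self), Sl_cons]

theorem Sl_of_commute (h : MUSys n e) (ℓ : List J) (f g : List ℕ) (hf : f ∈ idx (ℓ.map n))
    (hg : g ∈ idx (ℓ.map n)) (w : E)
    (hw : ∀ j ∈ ℓ, ∀ c d, Commute (e j c d) w) : Sl n e ℓ f g w = if f = g then w else 0 := by
  induction ℓ generalizing f g with
  | nil => simp_all
  | cons j ℓ ih =>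
    rw [List.map_cons, mem_idx_cons] at hf hg
    obtain ⟨a, ha, f, hf, rfl⟩ := hf
    obtain ⟨b, hb, g, hg, rfl⟩ := hg
    rw [Sl_cons, List.tail_cons, List.tail_cons, ih f g hf hg
      (fun i hi => hw i (List.mem_cons_of_mem _ hi)), List.headD_cons, List.headD_cons]
    by_cases hfg : f = g
    · simp only [hfg, if_true, slice_of_commute h j a b ha w (hw j List.mem_cons_self),
        List.cons.injEq, and_true]
    · simp [hfg]

theorem Sl_one (h : MUSys n e) (ℓ : List J) (f g : List ℕ) (hf : f ∈ idx (ℓ.map n))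
    (hg : g ∈ idx (ℓ.map n)) : Sl n e ℓ f g 1 = if f = g then 1 else 0 :=
  Sl_of_commute h ℓ f g hf hg 1 fun _ _ _ _ => Commute.one_right _

theorem Sl_mul (h : MUSys n e) (ℓ : List J) (f g : List ℕ) (z w : E) :
    Sl n e ℓ f g (z * w) = ∑ k ∈ idx (ℓ.map n), Sl n e ℓ f k z * Sl n e ℓ k g w := by
  induction ℓ generalizing f g with
  | nil => simp [idx]
  | cons j ℓ ih =>
    rw [Sl_cons, ih, List.map_cons, sum_idx_cons, map_sum, Finset.sum_comm]
    refine Finset.sum_congr rfl fun k _ => ?_
    rw [slice_mul h]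
    rfl

theorem Sl_injective (h : MUSys n e) (ℓ : List J) (z : E)
    (hz : ∀ f ∈ idx (ℓ.map n), ∀ g ∈ idx (ℓ.map n), Sl n e ℓ f g z = 0) : z = 0 := by
  induction ℓ with
  | nil => simpa [idx] using hz
  | cons j ℓ ih =>
    refine ih fun f hf g hg => ?_
    refine slice_injective h j _ fun a ha b hb => ?_
    have := hz (a :: f) (by simpa using ⟨ha, hf⟩) (b :: g) (by simpa using ⟨hb, hg⟩)
    simpa using this

theorem commute_Sl (ℓ : List J) (f g : List ℕ) (z w : E) (hz : Commute w z)
    (hw : ∀ j ∈ ℓ, ∀ c d, Commute w (e j c d)) : Commute w (Sl n e ℓ f g z) := by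
  induction ℓ generalizing f g with
  | nil => simpa
  | cons j ℓ ih =>
    exact commute_slice j _ _ _ _ (ih _ _ fun i hi => hw i (List.mem_cons_of_mem _ hi))
      (hw j List.mem_cons_self)

/-- Commutator estimate. -/
theorem norm_commutator_Sl_le [PartialOrder E] [StarOrderedRing E] (h : MUSys n e) (ℓ : List J)
    (f g : List ℕ) (z w : E) (hw : ∀ j ∈ ℓ, ∀ c d, Commute (e j c d) w) :
    ‖w * Sl n e ℓ f g z - Sl n e ℓ f g z * w‖ ≤ ‖w * z - z * w‖ := by
  rw [← Sl_mul_right ℓ f g z w hw, ← Sl_mul_left ℓ f g z w hw, ← map_sub]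
  exact norm_Sl_le h ℓ f g _

end Pool.Agent.Helper741.UHF
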