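import Pool.Agent.Helper741.UHF.Criterion

/-! Tensor products of two such algebras. -/

open Finset Cardinal
open scoped Matrix.Norms.L2Operator

universe u

namespace Pool.Agent.Helper741.UHF

theorem continuous_hom {A B : Type*} [CStarAlgebra A] [CStarAlgebra B] (φ : A →⋆ₐ[ℂ] B) :
    Continuous φ :=
  AddMonoidHomClass.continuous_of_bound φ 1
    fun z => by simpa using NonUnitalStarAlgHom.norm_apply_le φ z

/-- if a generating set is mapped into a closed subalgebra, so is everything -/
theorem map_mem_of_generates {A B : Type*} [CStarAlgebra A] [CStarAlgebra B] (φ : A →⋆ₐ[ℂ] B)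
    {s : Set A} (hs : (StarAlgebra.adjoin ℂ s).topologicalClosure = ⊤)
    (G : StarSubalgebra ℂ B) (hG : IsClosed (G : Set B)) (h : ∀ x ∈ s, φ x ∈ G) (x : A) :
    φ x ∈ G := by
  have h1 : StarAlgebra.adjoin ℂ s ≤ G.comap φ := by
    rw [StarAlgebra.adjoin_le_iff]
    intro x hx
    exact h x hx
  have h2 : (StarAlgebra.adjoin ℂ s).topologicalClosure ≤ G.comap φ :=
    StarSubalgebra.topologicalClosure_minimal h1 (hG.preimage (continuous_hom φ))
  rw [hs] at h2
  exact h2 (show x ∈ (⊤ : StarSubalgebra ℂ A) from trivial)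

theorem isMatrixTensor_sum {I K A B E : Type u} [CStarAlgebra A] [CStarAlgebra B]
    [CStarAlgebra E] {n : I → ℕ} {m : K → ℕ} (hA : IsMatrixTensor n A)
    (hB : IsMatrixTensor m B) (hE : IsCStarTensor A B E) :
    IsMatrixTensor (Sum.elim n m) E := by
  obtain ⟨_, ι, hι, hιg⟩ := hA
  obtain ⟨_, κ, hκ, hκg⟩ := hB
  obtain ⟨hEn, a, b, hab, hg⟩ := hE
  let θ : ∀ j : I ⊕ K, Matrix (Fin (Sum.elim n m j)) (Fin (Sum.elim n m j)) ℂ →⋆ₐ[ℂ] E :=
    fun j => match j with
      | Sum.inl i => a.comp (ι i)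
      | Sum.inr k => b.comp (κ k)
  refine ⟨hEn, θ, ?_, ?_⟩
  · rintro (i | k) (i' | k') hne x y
    · exact (hι i i' (fun h => hne (by rw [h])) x y).map a
    · exact hab _ _
    · exact (hab _ _).symm
    · exact (hκ k k' (fun h => hne (by rw [h])) x y).map b
  · set G := (StarAlgebra.adjoin ℂ (⋃ j, Set.range (θ j))).topologicalClosure with hG
    have hGc : IsClosed (G : Set E) := StarSubalgebra.isClosed_topologicalClosure _
    have hmem : ∀ j x, θ j x ∈ G := fun j x => StarSubalgebra.le_topologicalClosure _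
      (StarAlgebra.subset_adjoin ℂ _ (Set.mem_iUnion.mpr ⟨j, x, rfl⟩))
    have ha : ∀ x, a x ∈ G := map_mem_of_generates a hιg G hGc (by
      intro x hx
      obtain ⟨i, y, rfl⟩ := Set.mem_iUnion.mp hx
      exact hmem (Sum.inl i) y)
    have hb : ∀ x, b x ∈ G := map_mem_of_generates b hκg G hGc (by
      intro x hx
      obtain ⟨i, y, rfl⟩ := Set.mem_iUnion.mp hx
      exact hmem (Sum.inr i) y)
    have hle : StarAlgebra.adjoin ℂ (Set.range a ∪ Set.range b) ≤ G := by
      rw [StarAlgebra.adjoin_le_iff]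
      rintro _ (⟨x, rfl⟩ | ⟨x, rfl⟩)
      · exact ha x
      · exact hb x
    have := StarSubalgebra.topologicalClosure_minimal hle hGc
    rw [hg] at this
    exact eq_top_iff.mpr this

theorem mk_weight_sum {I K : Type u} (n : I → ℕ) :
    #(Σ j : I ⊕ K, Fin (padicValNat 2 (Sum.elim n (fun _ : K => 2) j))) =
      #(Σ i, Fin (padicValNat 2 (n i))) + #K := by
  have e1 := Equiv.sumSigmaDistrib
    (fun j : I ⊕ K => Fin (padicValNat 2 (Sum.elim n (fun _ : K => 2) j)))
  rw [mk_congr e1, mk_sum, lift_id, lift_id]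
  congr 1
  refine mk_congr ?_
  have h1 : ∀ k : K, Fin (padicValNat 2 (Sum.elim n (fun _ : K => 2) (Sum.inr k))) ≃ Unit := by
    intro k
    have : padicValNat 2 (Sum.elim n (fun _ : K => 2) (Sum.inr k)) = 1 := by
      simp
    rw [this]
    exact Equiv.ofUnique _ _
  exact (Equiv.sigmaCongrRight h1).trans (Equiv.sigmaPUnit K)

/-- The embedding criterion. -/
theorem embeds_iff {J K E C : Type u} [CStarAlgebra E] [CStarAlgebra C] {n : J → ℕ}
    (hn : ∀ j, 0 < n j) (hE : IsMatrixTensor n E) (hC : IsMatrixTensor (fun _ : K => 2) C) :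
    EmbedsUnitally C E ↔ #K ≤ #(Σ j, Fin (padicValNat 2 (n j))) :=
  ⟨mk_le_weight hn hE hC, embeds_of_mk_le hE hC⟩

theorem embeds_tensor_iff {I K K' A B C E : Type u} [CStarAlgebra A] [CStarAlgebra B]
    [CStarAlgebra C] [CStarAlgebra E] {n : I → ℕ} (hn : ∀ i, 0 < n i)
    (hA : IsMatrixTensor n A) (hB : IsMatrixTensor (fun _ : K => 2) B)
    (hC : IsMatrixTensor (fun _ : K' => 2) C) (hE : IsCStarTensor A B E) :
    EmbedsUnitally C E ↔ #K' ≤ #(Σ i, Fin (padicValNat 2 (n i))) + #K := by
  rw [embeds_iff (n := Sum.elim n (fun _ : K => 2)) (by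
    rintro (i | k)
    · exact hn i
    · norm_num) (isMatrixTensor_sum hA hB hE) hC, mk_weight_sum]

/-- cardinal arithmetic -/
theorem card_infinite {w k k' : Cardinal.{u}} (hkk : k < k') (hk' : ℵ₀ ≤ k') (h : k' ≤ w + k) :
    k' ≤ w := by
  by_contra hcon
  push Not at hcon
  exact absurd (add_lt_of_lt hk' hcon hkk) (not_lt.mpr h)

theorem card_general {w k k' : Cardinal.{u}} (hkk : k < k') (h2 : k + k ≤ k')
    (h : k' ≤ w + k) : k ≤ w := by
  rcases lt_or_ge k ℵ₀ with hk | hk
  · have h1 : k + k ≤ w + k := h2.trans h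
    exact (Cardinal.add_le_add_iff_of_lt_aleph0 hk).mp h1
  · exact hkk.le.trans (card_infinite hkk (hk.trans hkk.le) h)

/-! ### Constructing the algebras from matrix units -/

section construct

variable {J E : Type u} [CStarAlgebra E] {n : J → ℕ} {e : J → ℕ → ℕ → E}

/-- the unital homomorphism defined by a system of matrix units -/
noncomputable def homOf (h : MUSys n e) (j : J) :
    Matrix (Fin (n j)) (Fin (n j)) ℂ →⋆ₐ[ℂ] E where
  toFun M := ∑ a, ∑ b, M a b • e j a b
  map_one' := by
    have h1 : ∀ a : Fin (n j), ∑ b : Fin (n j), (1 : Matrix (Fin (n j)) (Fin (n j)) ℂ) a b •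
        e j a b = e j a a := by
      intro a
      rw [Finset.sum_eq_single a]
      · simp
      · intro b _ hb
        rw [Matrix.one_apply_ne hb.symm, zero_smul]
      · intro hh
        exact absurd (Finset.mem_univ _) hh
    rw [Finset.sum_congr rfl fun a _ => h1 a, ← h.one j, Finset.sum_range]
  map_mul' M N := by
    have h1 : (∑ a, ∑ b, M a b • e j a b) * (∑ c, ∑ d, N c d • e j c d) =
        ∑ a : Fin (n j), ∑ b : Fin (n j), ∑ d : Fin (n j), (M a b * N b d) • e j a d := by
      rw [Finset.sum_mul]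
      refine Finset.sum_congr rfl fun a _ => ?_
      rw [Finset.sum_mul]
      refine Finset.sum_congr rfl fun b _ => ?_
      rw [Finset.mul_sum, Finset.sum_eq_single b]
      · rw [Finset.mul_sum]
        refine Finset.sum_congr rfl fun d _ => ?_
        rw [smul_mul_smul_comm, h.mul_same j a b d b.2]
      · intro c _ hc
        rw [Finset.mul_sum]
        refine Finset.sum_eq_zero fun d _ => ?_
        rw [smul_mul_smul_comm, h.mul_ne j a b c d (fun hh => hc (Fin.ext hh.symm)), smul_zero]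
      · intro hh
        exact absurd (Finset.mem_univ _) hh
    rw [h1]
    refine Finset.sum_congr rfl fun a _ => ?_
    rw [Finset.sum_comm]
    refine Finset.sum_congr rfl fun d _ => ?_
    rw [Matrix.mul_apply, Finset.sum_smul]
  map_zero' := by simp
  map_add' M N := by
    simp only [Matrix.add_apply, add_smul, Finset.sum_add_distrib]
  commutes' r := by
    have h1 : ∀ a : Fin (n j), ∑ b : Fin (n j),
        (algebraMap ℂ (Matrix (Fin (n j)) (Fin (n j)) ℂ) r) a b • e j a b = r • e j a a := by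
      intro a
      rw [Finset.sum_eq_single a]
      · simp [Matrix.algebraMap_matrix_apply]
      · intro b _ hb
        rw [Matrix.algebraMap_matrix_apply, if_neg hb.symm, zero_smul]
      · intro hh
        exact absurd (Finset.mem_univ _) hh
    rw [Finset.sum_congr rfl fun a _ => h1 a, ← Finset.smul_sum, ← Finset.sum_range
      (fun a => e j a a), h.one j, Algebra.algebraMap_eq_smul_one]
  map_star' M := by
    simp only [star_sum, star_smul, h.star_e, Matrix.star_apply]
    rw [Finset.sum_comm]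

theorem homOf_single (h : MUSys n e) (j : J) (a b : Fin (n j)) :
    homOf h j (Matrix.single a b 1) = e j a b := by
  change ∑ a', ∑ b', Matrix.single a b (1 : ℂ) a' b' • e j a' b' = e j a b
  rw [Finset.sum_eq_single a]
  · rw [Finset.sum_eq_single b]
    · simp
    · intro b' _ hb
      rw [Matrix.single_apply, if_neg (fun hh => hb hh.2.symm), zero_smul]
    · intro hh
      exact absurd (Finset.mem_univ _) hh
  · intro a' _ ha
    refine Finset.sum_eq_zero fun b' _ => ?_
    rw [Matrix.single_apply, if_neg (fun hh => ha hh.1.symm), zero_smul]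
  · intro hh
    exact absurd (Finset.mem_univ _) hh

theorem isMatrixTensor_of_musys [Nontrivial E] (h : MUSys n e)
    (hgen : (StarAlgebra.adjoin ℂ {x | ∃ j a b, x = e j a b}).topologicalClosure = ⊤) :
    IsMatrixTensor n E := by
  refine ⟨inferInstance, homOf h, ?_, ?_⟩
  · intro i j hij x y
    change Commute (∑ a : Fin (n i), ∑ b : Fin (n i), x a b • e i a b)
      (∑ c : Fin (n j), ∑ d : Fin (n j), y c d • e j c d)
    refine Commute.sum_left _ _ _ fun a _ => Commute.sum_left _ _ _ fun b _ => ?_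
    refine Commute.sum_right _ _ _ fun c _ => Commute.sum_right _ _ _ fun d _ => ?_
    exact ((h.comm i j hij a b c d).smul_left _).smul_right _
  · have hle : StarAlgebra.adjoin ℂ {x | ∃ j a b, x = e j a b} ≤
        StarAlgebra.adjoin ℂ (⋃ j, Set.range (homOf h j)) := by
      rw [StarAlgebra.adjoin_le_iff]
      rintro _ ⟨j, a, b, rfl⟩
      by_cases hab : a < n j ∧ b < n j
      · refine StarAlgebra.subset_adjoin ℂ _ (Set.mem_iUnion.mpr ⟨j, Matrix.single ⟨a, hab.1⟩
          ⟨b, hab.2⟩ 1, homOf_single h j _ _⟩)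
      · have : e j a b = 0 := by
          rw [not_and_or, not_lt, not_lt] at hab
          rcases hab with hh | hh
          · exact h.zero_left j a b hh
          · exact h.zero_right j a b hh
        rw [this]
        exact zero_mem _
    rw [eq_top_iff, ← hgen]
    exact StarSubalgebra.topologicalClosure_mono hle

/-- the algebra generated by the matrix units -/
theorem exists_generated [Nontrivial E] (h : MUSys n e) :
    ∃ (F : Type u) (_ : CStarAlgebra F) (_ : Nontrivial F) (e' : J → ℕ → ℕ → F)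
      (φ : F →⋆ₐ[ℂ] E), MUSys n e' ∧
      (StarAlgebra.adjoin ℂ {x | ∃ j a b, x = e' j a b}).topologicalClosure = ⊤ ∧
      ∀ j a b, φ (e' j a b) = e j a b := by
  let S : StarSubalgebra ℂ E :=
    (StarAlgebra.adjoin ℂ {x | ∃ j a b, x = e j a b}).topologicalClosure
  have hS : IsClosed (S : Set E) := StarSubalgebra.isClosed_topologicalClosure _
  let i1 : CStarAlgebra S := StarSubalgebra.cstarAlgebra S (h_closed := hS)
  have hmem : ∀ j a b, e j a b ∈ S := fun j a b => StarSubalgebra.le_topologicalClosure _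
    (StarAlgebra.subset_adjoin ℂ {x | ∃ j a b, x = e j a b} ⟨j, a, b, rfl⟩)
  let e' : J → ℕ → ℕ → S := fun j a b => ⟨e j a b, hmem j a b⟩
  refine ⟨S, i1, inferInstance, e', S.subtype, ?_, ?_, fun _ _ _ => rfl⟩
  · refine ⟨h.pos, fun j a b ha => ?_, fun j a b c hb => ?_, fun j a b c d hbc => ?_,
      fun j a b => ?_, fun j => ?_, fun i j hij a b c d => ?_⟩
    · exact Subtype.ext (h.zero_left j a b ha)
    · exact Subtype.ext (h.mul_same j a b c hb)
    · exact Subtype.ext (h.mul_ne j a b c d hbc)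
    · exact Subtype.ext (h.star_e j a b)
    · apply Subtype.ext
      rw [AddSubmonoidClass.coe_finsetSum]
      exact h.one j
    · exact Subtype.ext (h.comm i j hij a b c d).eq
  · set T := StarAlgebra.adjoin ℂ {x | ∃ j a b, x = e' j a b} with hT
    have h1 : StarAlgebra.adjoin ℂ {x | ∃ j a b, x = e j a b} ≤ T.map S.subtype := by
      rw [StarAlgebra.adjoin_le_iff]
      rintro _ ⟨j, a, b, rfl⟩
      exact ⟨e' j a b, StarAlgebra.subset_adjoin ℂ {x | ∃ j a b, x = e' j a b} ⟨j, a, b, rfl⟩,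
        rfl⟩
    rw [eq_top_iff]
    intro x _
    have hx : (x : E) ∈ closure ((StarAlgebra.adjoin ℂ {x | ∃ j a b, x = e j a b} :
      StarSubalgebra ℂ E) : Set E) := x.2
    have hx2 : (x : E) ∈ closure ((Subtype.val : S → E) '' (T : Set S)) := closure_mono h1 hx
    have : x ∈ closure (T : Set S) := by
      rw [closure_subtype]
      exact hx2
    exact this

theorem isCStarTensor_of_units {I K A B F : Type u} [CStarAlgebra A] [CStarAlgebra B]
    [CStarAlgebra F] [Nontrivial F] {n : I → ℕ} {m : K → ℕ}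
    {e₀ : I ⊕ K → ℕ → ℕ → F} (h₀ : MUSys (Sum.elim n m) e₀)
    (g₀ : (StarAlgebra.adjoin ℂ {x | ∃ j a b, x = e₀ j a b}).topologicalClosure = ⊤)
    {eA : I → ℕ → ℕ → A} {eB : K → ℕ → ℕ → B}
    (gA : (StarAlgebra.adjoin ℂ {x | ∃ j a b, x = eA j a b}).topologicalClosure = ⊤)
    (gB : (StarAlgebra.adjoin ℂ {x | ∃ j a b, x = eB j a b}).topologicalClosure = ⊤)
    (α : A →⋆ₐ[ℂ] F) (β : B →⋆ₐ[ℂ] F) (tA : ∀ i a b, α (eA i a b) = e₀ (Sum.inl i) a b)
    (tB : ∀ i a b, β (eB i a b) = e₀ (Sum.inr i) a b) : IsCStarTensor A B F := by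
  refine ⟨inferInstance, α, β, ?_, ?_⟩
  · have step1 : ∀ k c d (x : A), Commute (α x) (e₀ (Sum.inr k) c d) := by
      intro k c d x
      have := map_mem_of_generates α gA (StarSubalgebra.centralizer ℂ {e₀ (Sum.inr k) c d})
        (Set.isClosed_centralizer _) (by
          rintro _ ⟨i, a, b, rfl⟩
          rw [StarSubalgebra.mem_centralizer_iff]
          rintro g rfl
          rw [tA, h₀.star_e]
          exact ⟨(h₀.comm _ _ (by simp) c d a b).eq, (h₀.comm _ _ (by simp) d c a b).eq⟩) x
      rw [StarSubalgebra.mem_centralizer_iff] at this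
      exact (this _ rfl).1.symm
    intro x y
    have := map_mem_of_generates β gB (StarSubalgebra.centralizer ℂ {α x})
      (Set.isClosed_centralizer _) (by
        rintro _ ⟨i, a, b, rfl⟩
        rw [StarSubalgebra.mem_centralizer_iff]
        rintro g rfl
        rw [tB, ← map_star]
        exact ⟨(step1 i a b x).eq, (step1 i a b (star x)).eq⟩) y
    rw [StarSubalgebra.mem_centralizer_iff] at this
    exact (this _ rfl).1
  · rw [eq_top_iff, ← g₀]
    refine StarSubalgebra.topologicalClosure_mono ?_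
    rw [StarAlgebra.adjoin_le_iff]
    rintro _ ⟨i | k, a, b, rfl⟩
    · exact StarAlgebra.subset_adjoin ℂ _ (Or.inl ⟨eA i a b, tA i a b⟩)
    · exact StarAlgebra.subset_adjoin ℂ _ (Or.inr ⟨eB k a b, tB k a b⟩)

theorem exists_tensor {I K : Type u} {n : I → ℕ} {m : K → ℕ} [Nontrivial E]
    {e : I ⊕ K → ℕ → ℕ → E} (h : MUSys (Sum.elim n m) e) :
    ∃ (A B F : Type u) (_ : CStarAlgebra A) (_ : CStarAlgebra B) (_ : CStarAlgebra F),
      IsMatrixTensor n A ∧ IsMatrixTensor m B ∧ IsCStarTensor A B F := by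
  obtain ⟨F, iF, nF, e₀, _, h₀, g₀, _⟩ := exists_generated h
  have hl : MUSys n (fun i a b => e₀ (Sum.inl i) a b) := h₀.restrict Sum.inl Sum.inl_injective
  have hr : MUSys m (fun i a b => e₀ (Sum.inr i) a b) := h₀.restrict Sum.inr Sum.inr_injective
  obtain ⟨A, iA, nA, eA, α, hA, gA, tA⟩ := exists_generated hl
  obtain ⟨B, iB, nB, eB, β, hB, gB, tB⟩ := exists_generated hr
  exact ⟨A, B, F, iA, iB, iF, isMatrixTensor_of_musys hA gA, isMatrixTensor_of_musys hB gB,
    isCStarTensor_of_units h₀ g₀ gA gB α β tA tB⟩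

theorem star_adjoin_top {J E : Type u} [CStarAlgebra E] {e : J → ℕ → ℕ → E}
    (h : (Algebra.adjoin ℂ {x | ∃ j a b, x = e j a b}).topologicalClosure = ⊤) :
    (StarAlgebra.adjoin ℂ {x | ∃ j a b, x = e j a b}).topologicalClosure = ⊤ := by
  have hle : Algebra.adjoin ℂ {x | ∃ j a b, x = e j a b} ≤
      (StarAlgebra.adjoin ℂ {x | ∃ j a b, x = e j a b}).toSubalgebra :=
    Algebra.adjoin_le (StarAlgebra.subset_adjoin ℂ _)
  rw [eq_top_iff]
  intro z _
  have hz : z ∈ (Algebra.adjoin ℂ {x | ∃ j a b, x = e j a b}).topologicalClosure := by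
    rw [h]
    trivial
  exact closure_mono hle hz

/-- `A ⊗ B` is the tensor product over the disjoint union of the index sets. -/
theorem isCStarTensor_iff {I K A B F : Type u} [CStarAlgebra A] [CStarAlgebra B]
    [CStarAlgebra F] {n : I → ℕ} {m : K → ℕ} (hn : ∀ i, 0 < n i) (hm : ∀ k, 0 < m k)
    (hA : IsMatrixTensor n A) (hB : IsMatrixTensor m B) :
    IsCStarTensor A B F ↔ IsMatrixTensor (Sum.elim n m) F := by
  refine ⟨isMatrixTensor_sum hA hB, ?_⟩
  rintro ⟨hFn, θ, hθ, hθg⟩
  obtain ⟨hAn, ι, hι, hιg⟩ := hA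
  obtain ⟨hBn, κ, hκ, hκg⟩ := hB
  have h : ∀ j : I ⊕ K, 0 < Sum.elim n m j := by
    rintro (i | k)
    · exact hn i
    · exact hm k
  have h₀ := musys_unitsOf θ h hθ
  have hl : MUSys n (fun i a b => unitsOf θ (Sum.inl i) a b) :=
    h₀.restrict Sum.inl Sum.inl_injective
  have hr : MUSys m (fun i a b => unitsOf θ (Sum.inr i) a b) :=
    h₀.restrict Sum.inr Sum.inr_injective
  obtain ⟨α, _, tA⟩ := exists_embedding (musys_unitsOf ι hn hι) hl (adjoin_unitsOf ι hιg)
  obtain ⟨β, _, tB⟩ := exists_embedding (musys_unitsOf κ hm hκ) hr (adjoin_unitsOf κ hκg)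
  exact isCStarTensor_of_units h₀ (star_adjoin_top (adjoin_unitsOf θ hθg))
    (star_adjoin_top (adjoin_unitsOf ι hιg)) (star_adjoin_top (adjoin_unitsOf κ hκg)) α β tA tB

end construct

theorem exists_isMatrixTensor_two (K : Type u) [Finite K] :
    ∃ (C : Type u) (_ : CStarAlgebra C), IsMatrixTensor (fun _ : K => 2) C := by
  classical
  have := Fintype.ofFinite K
  obtain ⟨F, iF, nF, e₀, _, h₀, g₀, _⟩ :=
    exists_generated (bit_musys (S := K) (Z := PUnit.{u + 1}))
  exact ⟨F, iF, isMatrixTensor_of_musys h₀ g₀⟩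

theorem exists_tensor_two (I K : Type u) [Finite I] [Finite K] :
    ∃ (A B F : Type u) (_ : CStarAlgebra A) (_ : CStarAlgebra B) (_ : CStarAlgebra F),
      IsMatrixTensor (fun _ : I => 2) A ∧ IsMatrixTensor (fun _ : K => 2) B ∧
        IsCStarTensor A B F := by
  classical
  have := Fintype.ofFinite K
  have := Fintype.ofFinite I
  have h1 := bit_musys (S := I ⊕ K) (Z := PUnit.{u + 1})
  have h2 : (fun _ : I ⊕ K => 2) = Sum.elim (fun _ : I => 2) (fun _ : K => 2) := by
    funext j
    cases j <;> rfl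
  rw [h2] at h1
  exact exists_tensor h1

end Pool.Agent.Helper741.UHF
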